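import Pool.Agent.Lib_MP_bfd926_dd.DPh

/-!
# The inequalities at a pair

`B + e = c + 1`, so `nt e B = c`; `d + e = D + 1`, so `nt e d = D`. Let `Sm u = Sd (c - u) c`: by `Good.left`
`Sm u ≤ u - 1` for `1 ≤ u ≤ c`, and `Sm u ≤ u - 2` for even `u ≥ 2` (`c - u` even, `c - u + 1` odd has `dl = 0`, use
`Good.left` with `x = c - u + 1`; `dl_odd`, `3 * D + 2 ≤ 4 * q`); `Sm 0 = 0`. `Sp u = Sd c (c + u) ≤ u - 1` for
`u ≥ 1`, `c + u ≤ D`.

`I1`: with `h = c - nt e n`, `T = (t + 1) / 2`. The number of the odd `ν` in `(nt e n, c]` is `h / 2` (`c` even). Put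
`f t = 3 (h / 2) - Sd (nt e n) c + bX e q a n t`; for `t ≥ 1` this is
`3 (h / 2) + t - [h even] - Sm (h + T)` (`Sd_add`). Claim: `f t ≥ 0`, and `f t ≥ 1` unless
(`h = 0`, `t ≤ 1`) or (`h = 1`, `t = 0`):
`t = 0`: `h = 0`: 0. `h = 1`: 0. `h ≥ 3` odd: `3 (h - 1) / 2 - (h - 1) ≥ 1`. `h ≥ 2` even: `3 h / 2 - (h - 2) ≥ 1`.
`t ≥ 1`, `h` even: `t = 2 T - 1`: `3 h / 2 + 2 T - 2 - Sm (h + T)`, for `T = 1` at least `3 h / 2 - h`, for `T ≥ 2` at
least `3 h / 2 + 2 T - 2 - (h + T - 1) ≥ 1`; `t = 2 T`: at least `3 h / 2 + 2 T - 1 - (h + T - 1) ≥ 1`.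
`h` odd: `T = 1`: `h + 1` is even, `Sm (h + 1) ≤ h - 1`, `3 (h - 1) / 2 + t - (h - 1) ≥ 1`; `T ≥ 2`:
`3 (h - 1) / 2 + 2 T - 1 - (h + T - 1) ≥ 1`.
The sum `ph B - ph n + bX t + bX t' ≥ f t + f t'` (`ph_ge`).

`I2`: `h = c - nt e n`, `s ≥ h + 2`, `S = (s + 1) / 2`, the window is `(nt - T, nt + S]`: if `S ≤ h` its sum is at most
`Sm (h + T)`, otherwise at most `Sm (h + T) + Sp (S - h)` (`Sd_add`, `Sd_mono`). See the numbers in the note:
the total is at least 1 in all cases.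
`I3`: `nt e (B + 1) = c + 1` is odd, `bX = t - Sd (c + 1 - T) (c + 1) = t - Sm (T - 1) ≥ 1`.
`I4`: `g = nt e i - c ≥ 1`, `3 ((g + 1) / 2) - Sp g ≥ 1`, `3 ((g + 1) / 2) + (s - 1) - Sp (g + S) ≥ 1`.
-/

namespace MT2

private theorem DIneq_left {q a D c x : ℕ} (hg : Good q a D c) (hx : x < c) :
    Sd q a x c + 1 ≤ c - x := hg.left x hx

private theorem DIneq_left2 {q a D c x : ℕ} (hg : Good q a D c) (hc : c ≤ D)
    (hD : 3 * D + 2 ≤ 4 * q) (hx : x + 2 ≤ c) (hxe : x % 2 = 0) :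
    Sd q a x c + 2 ≤ c - x := by
  have h1 := hg.left (x + 1) (by omega)
  have h2 : Sd q a x (x + 1) + Sd q a (x + 1) c = Sd q a x c := Sd_add (by omega) (by omega)
  have h3 : Sd q a x (x + 1) = Sd q a x x + dl q a (x + 1) := Sd_succ le_rfl
  have h4 : dl q a (x + 1) = 0 := dl_odd (by omega) (by rw [Nat.even_iff]; omega)
  rw [Sd_self] at h3
  omega

/-- The facts on the window to the left. -/
private theorem DIneq_L {q a D c x : ℕ} (hg : Good q a D c) (hc : c ≤ D)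
    (hD : 3 * D + 2 ≤ 4 * q) (hx : x ≤ c) :
    (x = c → Sd q a x c = 0) ∧ (x < c → Sd q a x c + 1 + x ≤ c) ∧
      (x < c → x % 2 = 0 → Sd q a x c + 2 + x ≤ c) := by
  have he := Nat.even_iff.mp hg.even
  refine ⟨?_, ?_, ?_⟩
  · rintro rfl
    exact Sd_self q a x
  · intro h
    have := hg.left x h
    omega
  · intro h h2
    have := DIneq_left2 hg hc hD (x := x) (by omega) h2
    omega

private theorem DIneq_R {q a D c y : ℕ} (hg : Good q a D c) (h1 : c < y) (h2 : y ≤ D) :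
    Sd q a c y + 1 + c ≤ y := by
  have := hg.right y h1 h2
  omega

private theorem DIneq_bX {e q a n t x : ℕ} (hx : nt e n = x) :
    bX e q a n t = if t = 0 then 0
      else (t : ℤ) - (if Even x then 1 else 0) - Sd q a (x - (t + 1) / 2) x := by
  subst hx
  rfl

private theorem DIneq_bL {e q a m s x : ℕ} (hx : nt e m = x) :
    bL e q a m s = if s = 0 then 0 else (s : ℤ) - 1 - Sd q a x (x + (s + 1) / 2) := by
  subst hx
  rfl

private theorem DIneq_f {e q a D c n t x : ℕ} (hg : Good q a D c) (hc : c ≤ D)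
    (hD : 3 * D + 2 ≤ 4 * q) (hn : nt e n = x) (hx : x ≤ c) (ht : (t + 1) / 2 ≤ x) :
    0 ≤ 3 * (((c + 1) / 2 : ℕ) - ((x + 1) / 2 : ℕ) : ℤ) - (Sd q a x c : ℤ) + bX e q a n t ∧
      (¬ (x = c ∧ t ≤ 1) → ¬ (x + 1 = c ∧ t = 0) →
        1 ≤ 3 * (((c + 1) / 2 : ℕ) - ((x + 1) / 2 : ℕ) : ℤ) - (Sd q a x c : ℤ) +
          bX e q a n t) := by
  have he := Nat.even_iff.mp hg.even
  obtain ⟨l1, l2, l3⟩ := DIneq_L hg hc hD hx
  rw [DIneq_bX hn]
  by_cases h0 : t = 0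
  · rw [if_pos h0]
    refine ⟨by omega, fun _ _ => by omega⟩
  · rw [if_neg h0]
    obtain ⟨m1, m2, m3⟩ := DIneq_L hg hc hD (x := x - (t + 1) / 2) (by omega)
    have hadd : Sd q a (x - (t + 1) / 2) x + Sd q a x c = Sd q a (x - (t + 1) / 2) c :=
      Sd_add (by omega) hx
    split_ifs with hev
    · have hev' := Nat.even_iff.mp hev
      refine ⟨by omega, fun _ _ => by omega⟩
    · have hev' := Nat.odd_iff.mp (Nat.not_even_iff_odd.mp hev)
      refine ⟨by omega, fun _ _ => by omega⟩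

theorem I1 {e q a w d c B D n t t' : ℕ} (he : e ≤ 1) (hw : w + 2 * e = 4 * q + 1)
    (ha : 2 ^ a ∣ q) (hd : 3 * d + e ≤ w) (hD : d + e = D + 1) (hB : B + e = c + 1)
    (hBd : B ≤ d) (hg : Good q a D c) (hn : 1 ≤ n) (hnB : n ≤ B) (ht : t < n) (ht' : t' < n) :
    0 ≤ ph e w B - ph e w n + bX e q a n t + bX e q a n t' ∧
      (¬ (n = B ∧ t ≤ 1 ∧ t' ≤ 1) → ¬ (n + 1 = B ∧ t = 0 ∧ t' = 0) →
        1 ≤ ph e w B - ph e w n + bX e q a n t + bX e q a n t') := by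
  have hp := ph_ge (e := e) (q := q) (a := a) (w := w) he hw ha hn hnB (by omega)
  have eB : nt e B = c := by
    unfold nt
    omega
  obtain ⟨x, hx⟩ : ∃ x, nt e n = x := ⟨_, rfl⟩
  have hx2 : x + 1 = n + e := by
    rw [← hx]
    unfold nt
    omega
  rw [eB, hx] at hp
  obtain ⟨f1, f2⟩ := DIneq_f (t := t) hg (by omega) (by omega) hx (by omega) (by omega)
  obtain ⟨g1, g2⟩ := DIneq_f (t := t') hg (by omega) (by omega) hx (by omega) (by omega)
  refine ⟨by omega, fun h1 h2 => ?_⟩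
  by_cases hh : (x = c ∧ t ≤ 1) ∨ (x + 1 = c ∧ t = 0)
  · have := g2 (by omega) (by omega)
    omega
  · have := f2 (by omega) (by omega)
    omega

theorem I2 {e q a w d c B D n t s : ℕ} (he : e ≤ 1) (hw : w + 2 * e = 4 * q + 1)
    (ha : 2 ^ a ∣ q) (hd : 3 * d + e ≤ w) (hD : d + e = D + 1) (hB : B + e = c + 1)
    (hBd : B ≤ d) (hg : Good q a D c) (hn : 1 ≤ n) (hnB : n ≤ B) (ht : t < n)
    (hs : B + 2 ≤ n + s) (hsd : n + s ≤ d) :
    1 ≤ bX e q a n t + bL e q a n s := by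
  have hev := Nat.even_iff.mp hg.even
  obtain ⟨x, hx⟩ : ∃ x, nt e n = x := ⟨_, rfl⟩
  have hx2 : x + 1 = n + e := by
    rw [← hx]
    unfold nt
    omega
  have hxc : x ≤ c := by omega
  have hcD : c ≤ D := by omega
  have hDq : 3 * D + 2 ≤ 4 * q := by omega
  rw [DIneq_bX hx, DIneq_bL hx, if_neg (show ¬ s = 0 by omega)]
  obtain ⟨l1, l2, l3⟩ := DIneq_L hg hcD hDq hxc
  have hP : Sd q a x (x + (s + 1) / 2) ≤ Sd q a x c + (s - s / 2 + x - c) ∧
      (c < x + (s + 1) / 2 → Sd q a x (x + (s + 1) / 2) + 1 ≤ Sd q a x c + (s - s / 2 + x - c)) := by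
    rcases Nat.lt_or_ge c (x + (s + 1) / 2) with h | h
    · have h1 := DIneq_R hg h (by omega)
      have h2 : Sd q a x c + Sd q a c (x + (s + 1) / 2) = Sd q a x (x + (s + 1) / 2) :=
        Sd_add hxc h.le
      refine ⟨by omega, fun _ => by omega⟩
    · have h2 : Sd q a x (x + (s + 1) / 2) ≤ Sd q a x c := Sd_mono le_rfl h
      refine ⟨by omega, fun h3 => by omega⟩
  obtain ⟨p1, p2⟩ := hP
  by_cases h0 : t = 0
  · rw [if_pos h0]
    omega
  · rw [if_neg h0]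
    obtain ⟨m1, m2, m3⟩ := DIneq_L hg hcD hDq (x := x - (t + 1) / 2) (by omega)
    have hadd : Sd q a (x - (t + 1) / 2) x + Sd q a x c = Sd q a (x - (t + 1) / 2) c :=
      Sd_add (by omega) hxc
    split_ifs with hev2
    · omega
    · omega

theorem I3 {e q a w d c B D t : ℕ} (he : e ≤ 1) (hw : w + 2 * e = 4 * q + 1)
    (ha : 2 ^ a ∣ q) (hd : 3 * d + e ≤ w) (hD : d + e = D + 1) (hB : B + e = c + 1)
    (hBd : B < d) (hg : Good q a D c) (h1 : 1 ≤ t) (ht : t ≤ B) :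
    1 ≤ bX e q a (B + 1) t := by
  have hev := Nat.even_iff.mp hg.even
  have hx : nt e (B + 1) = c + 1 := by
    unfold nt
    omega
  have hne : ¬ Even (c + 1) := by
    rw [Nat.even_iff]
    omega
  rw [DIneq_bX hx, if_neg (show ¬ t = 0 by omega), if_neg hne]
  have hle : c + 1 - (t + 1) / 2 ≤ c := by omega
  obtain ⟨l1, l2, l3⟩ := DIneq_L hg (by omega) (by omega) hle
  have h2 : Sd q a (c + 1 - (t + 1) / 2) (c + 1) =
      Sd q a (c + 1 - (t + 1) / 2) c + dl q a (c + 1) := Sd_succ hle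
  have h3 : dl q a (c + 1) = 0 := dl_odd (by omega) hne
  omega

private theorem DIneq_g {e q a D c i s y : ℕ} (hg : Good q a D c) (hn : nt e i = y)
    (hy : c < y) (hs : y + s ≤ D) :
    1 ≤ 3 * (((y + 1) / 2 : ℕ) - ((c + 1) / 2 : ℕ) : ℤ) - (Sd q a c y : ℤ) + bL e q a i s := by
  have hev := Nat.even_iff.mp hg.even
  rw [DIneq_bL hn]
  have h1 := DIneq_R hg hy (by omega)
  by_cases h0 : s = 0
  · rw [if_pos h0]
    omega
  · rw [if_neg h0]
    have h2 := DIneq_R hg (y := y + (s + 1) / 2) (by omega) (by omega)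
    have h3 : Sd q a c y + Sd q a y (y + (s + 1) / 2) = Sd q a c (y + (s + 1) / 2) :=
      Sd_add hy.le (by omega)
    omega

theorem I4 {e q a w d c B D i s s' : ℕ} (he : e ≤ 1) (hw : w + 2 * e = 4 * q + 1)
    (ha : 2 ^ a ∣ q) (hd : 3 * d + e ≤ w) (hD : d + e = D + 1) (hB : B + e = c + 1)
    (hg : Good q a D c) (hi : B < i) (hs : i + s ≤ d) (hs' : i + s' ≤ d) :
    1 ≤ ph e w i - ph e w B + bL e q a i s + bL e q a i s' := by
  have h2c := hg.two_le
  have hp := ph_ge (e := e) (q := q) (a := a) (w := w) (n := B) (m := i) he hw ha (by omega)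
    hi.le (by omega)
  have eB : nt e B = c := by
    unfold nt
    omega
  obtain ⟨y, hy⟩ : ∃ y, nt e i = y := ⟨_, rfl⟩
  have hy2 : y + 1 = i + e := by
    rw [← hy]
    unfold nt
    omega
  rw [eB, hy] at hp
  have f1 := DIneq_g (s := s) hg hy (by omega) (by omega)
  have f2 := DIneq_g (s := s') hg hy (by omega) (by omega)
  omega

/-- The pairs have different valuations. -/
theorem ph_good {e q a w d c B D n : ℕ} (he : e ≤ 1) (hw : w + 2 * e = 4 * q + 1)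
    (ha : 2 ^ a ∣ q) (hd : 3 * d + e ≤ w) (hD : d + e = D + 1) (hB : B + e = c + 1)
    (hBd : B ≤ d) (hg : Good q a D c) (hn : 1 ≤ n) (hnB : n + 2 ≤ B) : ph e w n < ph e w B := by
  have hev := Nat.even_iff.mp hg.even
  have hp := ph_ge (e := e) (q := q) (a := a) (w := w) (n := n) (m := B) he hw ha hn (by omega)
    (by omega)
  have eB : nt e B = c := by
    unfold nt
    omega
  obtain ⟨x, hx⟩ : ∃ x, nt e n = x := ⟨_, rfl⟩
  have hx2 : x + 1 = n + e := by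
    rw [← hx]
    unfold nt
    omega
  rw [eB, hx] at hp
  obtain ⟨l1, l2, l3⟩ := DIneq_L hg (x := x) (by omega) (by omega) (by omega)
  omega

end MT2
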