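import Pool.Agent.Lib_MP_bfd926_dd.DNum
import Pool.Agent.Lib_MP_bfd926_sq.SQL

/-!
# The entries of the lower triangular factor

`LE_vc`: in the proof of `LE_norm` (SQL, please copy): `LE e w (m + s) m * odd * C(w - 2 m - 1, s) =
odd * C(w - m + s - 1, 2 s) * integer` for both `e`; `v₂(C(w - 2 m - 1, s)) = vc (w - 2 m - 1 - s) s`.
`LE_bd`: `v₂(C(w - m + s - 1, 2 s)) = vc (w - m - s - 1) (2 s)`, `vc_sum`: the sum of `v₂(u)` over
`w - m - s - 1 < u ≤ w - m + s - 1`. Substitute `u = 4 q - x`: `mt - s < x ≤ mt + s` (`e = 0`),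
`mt + 1 - s < x ≤ mt + 1 + s` (`e = 1`), `mt = nt e m`; for small `mt` the numbers `x` can be zero or
negative, so work with the sum over `u` and split it: the part with `x > mt` suffices together with the
part `x ≤ mt` counted by the even `u`. The window `mt < x ≤ mt + (s + 1) / 2` by `val_ge4`; the remaining numbers:
`s` and `s / 2` (`e = 0`), `s - 1` and `s / 2 + 1` (`e = 1`); at least half (rounded down) of the numbers of an
interval are even: `s / 2 + (s / 2 + s / 2 / 2) ≥ s - 1`. Then `fac_two`, `den_L`.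
Everything checked by computer.
-/

namespace MT2

private theorem DL_odd (f : ℕ → ℕ) (hf : ∀ m, Odd (f m)) (t : ℕ) :
    Odd (∏ m ∈ Finset.range t, f m) := by
  induction t with
  | zero => simp
  | succ t ih =>
    rw [Finset.prod_range_succ]
    exact ih.mul (hf t)

private theorem DL_norm {x : ℚ} {o c k : ℕ} {i : ℤ} (ho : Odd o) (hc : c ≠ 0)
    (h : x * o * c = i) (hk : (2 : ℤ) ^ k ∣ i) :
    padicNorm 2 x ≤ (2 : ℚ) ^ ((padicValNat 2 c : ℤ) - k) := by
  have h1 : padicNorm 2 (x * o * c) ≤ (2 : ℚ) ^ (-(k : ℤ)) := by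
    rw [h]
    have := (padicNorm.dvd_iff_norm_le (p := 2) (n := k) (z := i)).1 (by exact_mod_cast hk)
    exact_mod_cast this
  have h2 : padicNorm 2 (o : ℚ) = 1 := by
    rw [padicNorm.nat_eq_one_iff]
    exact ho.not_two_dvd_nat
  have h3 : padicNorm 2 (c : ℚ) = (2 : ℚ) ^ (-(padicValNat 2 c : ℤ)) := by
    rw [padicNorm.eq_zpow_of_nonzero (by exact_mod_cast hc), padicValRat.of_nat]
    norm_num
  rw [padicNorm.mul, padicNorm.mul, h2, h3, mul_one] at h1
  have h4 : (0 : ℚ) < (2 : ℚ) ^ (padicValNat 2 c : ℤ) := by positivity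
  have h5 := mul_le_mul_of_nonneg_right h1 h4.le
  rw [mul_assoc, ← zpow_add₀ (by norm_num : (2 : ℚ) ≠ 0),
    ← zpow_add₀ (by norm_num : (2 : ℚ) ≠ 0)] at h5
  rw [neg_add_cancel, zpow_zero, mul_one] at h5
  rw [sub_eq_add_neg, add_comm]
  exact h5

private theorem DL_closed' {w n t : ℕ} (hn : 1 ≤ n) (h : 3 * (n + t) ≤ w) :
    LE 0 w (n + t) n * ((∏ m ∈ Finset.range t, (2 * n + 1 + 2 * m) : ℕ) : ℚ) *
        (Nat.choose (w - 2 * n - 1) t : ℚ) =
      (((∏ m ∈ Finset.range t, (2 * m + 1)) * Nat.choose (w - n + t - 1) (2 * t) *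
        Nat.choose (w - 3 * n) t : ℕ) : ℚ) := by
  have := L_closed hn h
  push_cast at this ⊢
  exact this

/-- The case `e = 0`. -/
private theorem DL_zero {w m s k : ℕ} (hm : 1 ≤ m) (h : 3 * (m + s) ≤ w)
    (hk : 2 ^ k ∣ Nat.choose (w - m + s - 1) (2 * s) * Nat.choose (w - 3 * m) s) :
    padicNorm 2 (LE 0 w (m + s) m) ≤ (2 : ℚ) ^ ((vc (w - 2 * m - 1 - s) s : ℤ) - k) := by
  have hc : Nat.choose (w - 2 * m - 1) s ≠ 0 := (Nat.choose_pos (by omega)).ne'
  have hv : vc (w - 2 * m - 1 - s) s = padicValNat 2 (Nat.choose (w - 2 * m - 1) s) := by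
    unfold vc
    rw [Nat.sub_add_cancel (by omega)]
  rw [hv]
  refine DL_norm (DL_odd (fun a => 2 * m + 1 + 2 * a) (fun a => ⟨m + a, by ring⟩) s) hc
    (i := (((∏ m ∈ Finset.range s, (2 * m + 1)) * Nat.choose (w - m + s - 1) (2 * s) *
        Nat.choose (w - 3 * m) s : ℕ) : ℤ)) ?_ ?_
  · rw [Int.cast_natCast]
    exact DL_closed' hm h
  · have : (2 : ℤ) ^ k = ((2 ^ k : ℕ) : ℤ) := by push_cast; rfl
    rw [this, Int.natCast_dvd_natCast, mul_assoc]
    exact dvd_mul_of_dvd_right hk _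

/-- `(u - 3 s) * C(u, s) = u * (C(u, s) - 3 * C(u - 1, s - 1))`. -/
private theorem DL_cc (u s : ℕ) (hu : 1 ≤ u) (hs : 1 ≤ s) :
    ((u : ℚ) - 3 * s) * Nat.choose u s =
      u * ((Nat.choose u s : ℤ) - 3 * (Nat.choose (u - 1) (s - 1) : ℤ) : ℤ) := by
  obtain ⟨u, rfl⟩ : ∃ v, u = v + 1 := ⟨u - 1, by omega⟩
  obtain ⟨s, rfl⟩ : ∃ v, s = v + 1 := ⟨s - 1, by omega⟩
  have h1 : (Nat.choose (u + 1) (s + 1) : ℚ) * (s + 1) = (u + 1) * Nat.choose u s := by
    exact_mod_cast (Nat.add_one_mul_choose_eq u s).symm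
  rw [Nat.add_sub_cancel, Nat.add_sub_cancel]
  push_cast
  linear_combination (-3 : ℚ) * h1

/-- The case `e = 1`. -/
private theorem DL_one {w m s k : ℕ} (hm : 1 ≤ m) (hs : 1 ≤ s) (h : 3 * (m + s) + 1 ≤ w)
    (hk : (2 : ℤ) ^ k ∣ (Nat.choose (w - m + s - 1) (2 * s) : ℤ) *
      ((Nat.choose (w - 3 * m) s : ℤ) - 3 * (Nat.choose (w - 3 * m - 1) (s - 1) : ℤ))) :
    padicNorm 2 (LE 1 w (m + s) m) ≤ (2 : ℚ) ^ ((vc (w - 2 * m - 1 - s) s : ℤ) - k) := by
  have hc : Nat.choose (w - 2 * m - 1) s ≠ 0 := (Nat.choose_pos (by omega)).ne'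
  have hv : vc (w - 2 * m - 1 - s) s = padicValNat 2 (Nat.choose (w - 2 * m - 1) s) := by
    unfold vc
    rw [Nat.sub_add_cancel (by omega)]
  rw [hv]
  refine DL_norm (DL_odd (fun a => 2 * m + 1 + 2 * a) (fun a => ⟨m + a, by ring⟩) s) hc
    (i := ((∏ m ∈ Finset.range s, (2 * m + 1) : ℕ) : ℤ) *
      ((Nat.choose (w - m + s - 1) (2 * s) : ℤ) *
      ((Nat.choose (w - 3 * m) s : ℤ) - 3 * (Nat.choose (w - 3 * m - 1) (s - 1) : ℤ)))) ?_ ?_
  · have h1 := DL_closed' (w := w) (n := m) (t := s) hm (by omega)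
    have h2 := DL_cc (w - 3 * m) s (by omega) hs
    have e2 : ((w - 3 * m : ℕ) : ℚ) = (w : ℚ) - 3 * m := by
      rw [Nat.cast_sub (by omega)]
      push_cast
      ring
    have h3 : ((w : ℚ) - 3 * m) ≠ 0 := by
      have : ((3 * m + 1 : ℕ) : ℚ) ≤ w := by exact_mod_cast (by omega : 3 * m + 1 ≤ w)
      push_cast at this
      intro h0
      linarith
    rw [e2] at h2
    rw [LE_one hm (by omega) (by omega) (by omega)]
    apply mul_left_cancel₀ h3
    have h4 : ((w : ℚ) - 3 * m) * (((w : ℚ) - 3 * ((m + s : ℕ) : ℚ)) / (w - 3 * m) *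
        LE 0 w (m + s) m * ((∏ a ∈ Finset.range s, (2 * m + 1 + 2 * a) : ℕ) : ℚ) *
        (Nat.choose (w - 2 * m - 1) s : ℚ)) = ((w : ℚ) - 3 * ((m + s : ℕ) : ℚ)) *
        (LE 0 w (m + s) m * ((∏ a ∈ Finset.range s, (2 * m + 1 + 2 * a) : ℕ) : ℚ) *
        (Nat.choose (w - 2 * m - 1) s : ℚ)) := by
      field_simp
    rw [h4, h1]
    push_cast at h2 ⊢
    linear_combination (((∏ a ∈ Finset.range s, (2 * (a : ℚ) + 1))) *
      (Nat.choose (w - m + s - 1) (2 * s) : ℚ)) * h2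
  · exact dvd_mul_of_dvd_right hk _

theorem LE_vc {e w m s : ℕ} (he : e ≤ 1) (hm : 1 ≤ m) (h : 3 * (m + s) + e ≤ w) :
    padicNorm 2 (LE e w (m + s) m) ≤
      (2 : ℚ) ^ ((vc (w - 2 * m - 1 - s) s : ℤ) - vc (w - m - s - 1) (2 * s)) := by
  rcases Nat.eq_zero_or_pos s with hs | hs
  · subst hs
    rw [Nat.add_zero, LE_self he hm (by omega)]
    simp [vc_zero]
  · have hN : vc (w - m - s - 1) (2 * s) = padicValNat 2 (Nat.choose (w - m + s - 1) (2 * s)) := by
      unfold vc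
      rw [show w - m - s - 1 + 2 * s = w - m + s - 1 by omega]
    rw [hN]
    have hd : 2 ^ padicValNat 2 (Nat.choose (w - m + s - 1) (2 * s)) ∣
        Nat.choose (w - m + s - 1) (2 * s) := pow_padicValNat_dvd
    rcases Nat.le_one_iff_eq_zero_or_eq_one.1 he with h4 | h4
    · subst h4
      exact DL_zero hm (by omega) (dvd_mul_of_dvd_left hd _)
    · subst h4
      refine DL_one hm hs h (dvd_mul_of_dvd_left ?_ _)
      exact_mod_cast hd

private theorem DL_half (A l : ℕ) : l / 2 ≤ ∑ u ∈ Finset.Ioc A (A + l), padicValNat 2 u := by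
  induction l using Nat.twoStepInduction with
  | zero => simp
  | one => simp
  | more l ih _ =>
    have h1 : Finset.Ioc A (A + (l + 2)) =
        insert (A + l + 1) (insert (A + l + 2) (Finset.Ioc A (A + l))) := by
      ext u
      simp only [Finset.mem_Ioc, Finset.mem_insert]
      omega
    have h2 : 1 ≤ padicValNat 2 (A + l + 1) + padicValNat 2 (A + l + 2) := by
      rcases Nat.even_or_odd (A + l + 1) with h | h
      · have := one_le_padicValNat_of_dvd (p := 2) (n := A + l + 1) (by omega) h.two_dvd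
        omega
      · have h3 : 2 ∣ A + l + 2 := by
          obtain ⟨c, hc⟩ := h
          exact ⟨c + 1, by omega⟩
        have := one_le_padicValNat_of_dvd (p := 2) (n := A + l + 2) (by omega) h3
        omega
    rw [h1, Finset.sum_insert (by simp only [Finset.mem_Ioc, Finset.mem_insert]; omega),
      Finset.sum_insert (by simp only [Finset.mem_Ioc]; omega)]
    omega

/-- The key inequality of natural numbers. -/
private theorem DL_main {e q a w m s : ℕ} (he : e ≤ 1) (hw : w + 2 * e = 4 * q + 1)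
    (ha : 2 ^ a ∣ q) (hm : 1 ≤ m) (hs : 1 ≤ s) (h : 3 * (m + s) + e ≤ w) :
    (s + 1) / 2 + ∑ ν ∈ Finset.Ioc (nt e m) (nt e m + (s + 1) / 2), padicValNat 2 (2 * q - ν) ≤
      ∑ u ∈ Finset.Ioc (w - m - s - 1) (w - m - s - 1 + 2 * s), padicValNat 2 u + 1 +
        Sd q a (nt e m) (nt e m + (s + 1) / 2) := by
  have hnt : nt e m = m + e - 1 := rfl
  have h1 := Finset.sum_Ioc_consecutive (fun u => padicValNat 2 u)
    (show w - m - s - 1 ≤ 4 * q - nt e m - 1 by omega)
    (show 4 * q - nt e m - 1 ≤ w - m - s - 1 + 2 * s by omega)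
  have h2 : ∑ u ∈ Finset.Ioc (w - m - s - 1) (4 * q - nt e m - 1), padicValNat 2 u =
      ∑ x ∈ Finset.Ioc (nt e m) (nt e m + s + e), padicValNat 2 (4 * q - x) := by
    refine Finset.sum_nbij' (fun u => 4 * q - u) (fun x => 4 * q - x) ?_ ?_ ?_ ?_ ?_
    · intro u hu
      simp only [Finset.mem_Ioc] at hu ⊢
      omega
    · intro u hu
      simp only [Finset.mem_Ioc] at hu ⊢
      omega
    · intro u hu
      simp only [Finset.mem_Ioc] at hu ⊢
      omega
    · intro u hu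
      simp only [Finset.mem_Ioc] at hu ⊢
      omega
    · intro u hu
      simp only [Finset.mem_Ioc] at hu
      have : 4 * q - (4 * q - u) = u := by omega
      rw [this]
  have h3 := DL_half (4 * q - nt e m - 1) (s - e)
  have h4 : 4 * q - nt e m - 1 + (s - e) = w - m - s - 1 + 2 * s := by omega
  rw [h4] at h3
  have h5 := num_ge (q := q) (a := a) (x0 := nt e m) (x1 := nt e m) (x2 := nt e m + (s + 1) / 2)
    (x3 := nt e m + s + e) (fun x => padicValNat 2 (4 * q - x)) le_rfl (by omega) (by omega)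
    (fun x _ hx2 hx3 => by
      obtain ⟨y, hy⟩ := hx3
      apply one_le_padicValNat_of_dvd (by omega)
      exact ⟨2 * q - y, by omega⟩)
    (fun ν hν1 hν2 => val_ge4 ha (by omega) (by omega))
  rw [← h1, h2]
  split_ifs at h5 <;> omega

theorem LE_bd {e q a w m s : ℕ} (he : e ≤ 1) (hw : w + 2 * e = 4 * q + 1) (ha : 2 ^ a ∣ q)
    (hm : 1 ≤ m) (h : 3 * (m + s) + e ≤ w) :
    padicNorm 2 (LE e w (m + s) m) ≤ (2 : ℚ) ^ (2 * (s : ℤ) - bL e q a m s) := by
  refine (LE_vc he hm h).trans ?_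
  apply zpow_le_zpow_right₀ (by norm_num)
  rcases Nat.eq_zero_or_pos s with h0 | h0
  · subst h0
    simp [vc_zero, bL]
  · have h1 := DL_main he hw ha hm h0 h
    have h2 := vc_sum (w - m - s - 1) (2 * s)
    have h3 := fac_two s
    have h4 := den_L he hw hm h
    have hb : bL e q a m s = (s : ℤ) - 1 - Sd q a (nt e m) (nt e m + (s + 1) / 2) := by
      unfold bL
      rw [if_neg (by omega)]
    rw [hb]
    omega

end MT2
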