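import Pool.Agent.Lib_MP_bfd926_dd.DNum
import Pool.Agent.Lib_MP_bfd926_sq.SQU
import Pool.Agent.Lib_MP_bfd926_sq.SQLU

/-!
# The entries of the upper triangular factor

`UE_vc`: in the proof of `UE_norm` (SQU, please copy): `UE e w m (m + s) * odd * C(w - 2 m - 1, s) =
± odd * C(m + s, 2 s) * integer` for both `e`; `s ≤ m`, otherwise `UE e w m (m + s) = 0` (`C(m + s, 2 s) = 0`).
`UE_bd`: `v₂(C(m + s, 2 s)) = vc (m - s) (2 s)` (`s ≤ m`), `vc_sum`: the sum of `v₂(x)` over `m - s < x ≤ m + s`,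
`num_ge` with `g = v₂`, `x1 = mt`, `x2 = mt + (s + 1) / 2`, `val_ge`, `mt = nt e m`. The remaining numbers:
`x1 - x0 = mt - (m - s)`, `x3 - x2 = m + s - mt - (s + 1) / 2`: `s - 1`, `s / 2 + 1` (`e = 0`), `s`, `s / 2` (`e = 1`);
at least half (rounded down) of the numbers of an interval are even:
`s / 2 + (s / 2 + s / 2 / 2) ≥ s - 1`. Then `fac_two`, `den_L`. Everything checked by computer.
-/

namespace MT2

private theorem dU_ch2 (a k : ℕ) :
    (Nat.choose (a + 1) (k + 1) : ℚ) * ((k : ℚ) + 1) = ((a : ℚ) + 1) * (Nat.choose a k : ℚ) := by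
  have h1 := congrArg (Nat.cast : ℕ → ℚ) (Nat.add_one_mul_choose_eq a k)
  push_cast at h1
  exact h1.symm

private theorem dU_wne2 {w i : ℕ} (h : 3 * i + 1 ≤ w) : 2 * (w : ℚ) - 3 * i ≠ 0 := by
  have : (3 * (i : ℚ) + 1) ≤ w := by exact_mod_cast h
  intro h'
  have h2 : (0 : ℚ) ≤ i := Nat.cast_nonneg i
  linarith

private theorem dU_odd (f : ℕ → ℤ) (hf : ∀ m, ∃ k, f m = 2 * k + 1) (t : ℕ) :
    ∃ k : ℤ, ∏ m ∈ Finset.range t, f m = 2 * k + 1 := by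
  induction t with
  | zero => exact ⟨0, by simp⟩
  | succ t ih =>
    obtain ⟨a, ha⟩ := ih
    obtain ⟨b, hb⟩ := hf t
    refine ⟨2 * a * b + a + b, ?_⟩
    rw [Finset.prod_range_succ, ha, hb]
    ring

private theorem dU_norm_odd {z : ℤ} (h : ∃ k : ℤ, z = 2 * k + 1) : padicNorm 2 (z : ℚ) = 1 := by
  rw [padicNorm.int_eq_one_iff]
  obtain ⟨k, rfl⟩ := h
  push_cast
  omega

private theorem dU_norm_nat {c : ℕ} (hc : c ≠ 0) :
    padicNorm 2 (c : ℚ) = (2 : ℚ) ^ (-(padicValNat 2 c : ℤ)) := by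
  rw [padicNorm.eq_zpow_of_nonzero (by exact_mod_cast hc), padicValRat.of_nat]
  norm_num

private theorem dU_bound {x : ℚ} {a p z : ℤ} {c s k : ℕ} (hc : c ≠ 0)
    (ha : ∃ k : ℤ, a = 2 * k + 1) (hp : ∃ k : ℤ, p = 2 * k + 1) (hz : (2 : ℤ) ^ k ∣ z)
    (h : x * (a : ℚ) * (c : ℚ) = (-1) ^ s * (p : ℚ) * (z : ℚ)) :
    padicNorm 2 x ≤ (2 : ℚ) ^ ((padicValNat 2 c : ℤ) - k) := by
  have h1 := congrArg (padicNorm 2) h
  rw [padicNorm.mul, padicNorm.mul, padicNorm.mul, padicNorm.mul, dU_norm_odd ha, dU_norm_odd hp,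
    dU_norm_nat hc] at h1
  have h2 : padicNorm 2 ((-1 : ℚ) ^ s) = 1 := by
    rcases neg_one_pow_eq_or ℚ s with h3 | h3 <;> rw [h3]
    · simp
    · rw [padicNorm.neg]
      simp
  rw [h2] at h1
  have h3 : padicNorm 2 (z : ℚ) ≤ (2 : ℚ) ^ (-(k : ℤ)) := by
    have := (padicNorm.dvd_iff_norm_le (p := 2) (n := k) (z := z)).1 (by exact_mod_cast hz)
    exact_mod_cast this
  have h4 : padicNorm 2 x = padicNorm 2 (z : ℚ) * (2 : ℚ) ^ ((padicValNat 2 c : ℤ)) := by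
    have h5 : (2 : ℚ) ^ (-(padicValNat 2 c : ℤ)) * (2 : ℚ) ^ ((padicValNat 2 c : ℤ)) = 1 := by
      rw [← zpow_add₀ (by norm_num)]
      simp
    calc padicNorm 2 x = padicNorm 2 x * 1 * ((2 : ℚ) ^ (-(padicValNat 2 c : ℤ)) *
          (2 : ℚ) ^ ((padicValNat 2 c : ℤ))) := by rw [h5]; ring
      _ = (padicNorm 2 x * 1 * (2 : ℚ) ^ (-(padicValNat 2 c : ℤ))) *
          (2 : ℚ) ^ ((padicValNat 2 c : ℤ)) := by ring
      _ = _ := by rw [h1]; ring
  rw [h4]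
  calc padicNorm 2 (z : ℚ) * (2 : ℚ) ^ ((padicValNat 2 c : ℤ))
      ≤ (2 : ℚ) ^ (-(k : ℤ)) * (2 : ℚ) ^ ((padicValNat 2 c : ℤ)) :=
        mul_le_mul_of_nonneg_right h3 (by positivity)
    _ = (2 : ℚ) ^ ((padicValNat 2 c : ℤ) - k) := by
        rw [← zpow_add₀ (by norm_num)]
        congr 1
        ring

private theorem dU_P1 (w n t : ℕ) :
    ∃ a : ℤ, (∃ k : ℤ, a = 2 * k + 1) ∧
      (∏ m ∈ Finset.range t, (2 * (w : ℚ) - 2 * n - 1 - 2 * m)) = (a : ℚ) := by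
  refine ⟨∏ m ∈ Finset.range t, (2 * (w : ℤ) - 2 * n - 1 - 2 * m), ?_, ?_⟩
  · exact dU_odd (fun m => 2 * (w : ℤ) - 2 * n - 1 - 2 * m)
      (fun m => ⟨(w : ℤ) - n - 1 - m, by ring⟩) t
  · push_cast
    rfl

private theorem dU_P2 (t : ℕ) :
    ∃ a : ℤ, (∃ k : ℤ, a = 2 * k + 1) ∧
      (∏ m ∈ Finset.range t, (2 * (m : ℚ) + 1)) = (a : ℚ) := by
  refine ⟨∏ m ∈ Finset.range t, (2 * (m : ℤ) + 1), ?_, ?_⟩
  · exact dU_odd (fun m => 2 * (m : ℤ) + 1) (fun m => ⟨(m : ℤ), rfl⟩) t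
  · push_cast
    rfl

private theorem dU_num {e w m s : ℕ} (he : e ≤ 1) (hm : 1 ≤ m) (hs : 1 ≤ s)
    (h : 3 * (m + s) + e ≤ w) :
    UE e w m (m + s) * (∏ j ∈ Finset.range s, (2 * (w : ℚ) - 2 * m - 1 - 2 * j)) *
        (Nat.choose (w - 2 * m - 1) s : ℚ) =
      (-1) ^ s * (∏ j ∈ Finset.range s, (2 * (j : ℚ) + 1)) *
        (((Nat.choose (m + s) (2 * s) : ℤ) *
          (if e = 0 then (Nat.choose (2 * w - 3 * m) s : ℤ) -
            3 * (Nat.choose (2 * w - 3 * m - 1) (s - 1) : ℤ)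
            else (Nat.choose (2 * w - 3 * m) s : ℤ)) : ℤ) : ℚ) := by
  have hc := U_closed (w := w) hm hs (by omega)
  interval_cases e
  · simp only [if_true]
    push_cast
    linear_combination hc
  · rw [UE_one hm (by omega) (by omega) h]
    simp only [one_ne_zero, if_false]
    obtain ⟨r, rfl⟩ : ∃ r, s = r + 1 := ⟨s - 1, by omega⟩
    have hM : 2 * w - 3 * m - 1 + 1 = 2 * w - 3 * m := by omega
    have e2 := dU_ch2 (2 * w - 3 * m - 1) r
    rw [hM] at e2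
    have cM : ((2 * w - 3 * m - 1 : ℕ) : ℚ) = 2 * (w : ℚ) - 3 * m - 1 := by
      rw [Nat.cast_sub (by omega), Nat.cast_sub (by omega)]
      push_cast
      ring
    rw [cM] at e2
    have h2 : 2 * (w : ℚ) - 3 * ((m + (r + 1) : ℕ) : ℚ) ≠ 0 := dU_wne2 h
    rw [Nat.add_sub_cancel] at hc
    set V := UE 0 w m (m + (r + 1))
    set P1 := ∏ j ∈ Finset.range (r + 1), (2 * (w : ℚ) - 2 * m - 1 - 2 * j)
    set P2 := ∏ j ∈ Finset.range (r + 1), (2 * (j : ℚ) + 1)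
    set c1 := (Nat.choose (w - 2 * m - 1) (r + 1) : ℚ)
    set B0 := (Nat.choose (2 * w - 3 * m - 1) r : ℚ)
    push_cast at h2 e2 ⊢
    set BM := (Nat.choose (2 * w - 3 * m) (r + 1) : ℚ)
    set c2 := (Nat.choose (m + (r + 1)) (2 * (r + 1)) : ℚ)
    rw [div_mul_eq_mul_div, div_mul_eq_mul_div, div_mul_eq_mul_div, div_eq_iff h2]
    linear_combination (2 * (w : ℚ) - 3 * m) * hc +
      3 * ((-1) ^ (r + 1) * P2 * c2) * e2

private theorem dU_pos {w m s : ℕ} (hs : 1 ≤ s) (h : 3 * (m + s) ≤ w) :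
    Nat.choose (w - 2 * m - 1) s ≠ 0 := (Nat.choose_pos (by omega)).ne'

theorem UE_vc {e w m s : ℕ} (he : e ≤ 1) (hm : 1 ≤ m) (hs : s ≤ m) (h : 3 * (m + s) + e ≤ w) :
    padicNorm 2 (UE e w m (m + s)) ≤
      (2 : ℚ) ^ ((vc (w - 2 * m - 1 - s) s : ℤ) - vc (m - s) (2 * s)) := by
  rcases Nat.eq_zero_or_pos s with rfl | hs1
  · rw [add_zero, UE_self he hm (by omega)]
    simp [vc_zero]
  · have hn := dU_num he hm hs1 h
    obtain ⟨a, ha, hA⟩ := dU_P1 w m s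
    obtain ⟨p, hp, hP⟩ := dU_P2 s
    rw [hA, hP] at hn
    have hc : Nat.choose (w - 2 * m - 1) s ≠ 0 := dU_pos hs1 (by omega)
    have hvc : vc (w - 2 * m - 1 - s) s = padicValNat 2 (Nat.choose (w - 2 * m - 1) s) := by
      unfold vc
      rw [Nat.sub_add_cancel (by omega)]
    have hvc2 : vc (m - s) (2 * s) = padicValNat 2 (Nat.choose (m + s) (2 * s)) := by
      unfold vc
      rw [show m - s + 2 * s = m + s by omega]
    rw [hvc]
    refine dU_bound (k := vc (m - s) (2 * s)) hc ha hp ?_ hn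
    refine Dvd.dvd.mul_right ?_ _
    rw [hvc2]
    have hd : (2 : ℕ) ^ (padicValNat 2 (Nat.choose (m + s) (2 * s))) ∣ Nat.choose (m + s) (2 * s) :=
      pow_padicValNat_dvd
    exact_mod_cast hd

theorem UE_big {e w m s : ℕ} (he : e ≤ 1) (hm : 1 ≤ m) (hs : m < s) (h : 3 * (m + s) + e ≤ w) :
    UE e w m (m + s) = 0 := by
  have hn := dU_num he hm (by omega) h
  obtain ⟨a, ha, hA⟩ := dU_P1 w m s
  rw [hA, Nat.choose_eq_zero_of_lt (by omega : m + s < 2 * s)] at hn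
  have hc : (Nat.choose (w - 2 * m - 1) s : ℚ) ≠ 0 := by
    exact_mod_cast dU_pos (by omega : 1 ≤ s) (by omega : 3 * (m + s) ≤ w)
  have ha0 : (a : ℚ) ≠ 0 := by
    obtain ⟨k, rfl⟩ := ha
    have : (2 * k + 1 : ℤ) ≠ 0 := by omega
    exact_mod_cast this
  simp only [Nat.cast_zero, zero_mul, Int.cast_zero, mul_zero] at hn
  rcases mul_eq_zero.1 hn with h1 | h1
  · rcases mul_eq_zero.1 h1 with h2 | h2
    · exact h2
    · exact absurd h2 ha0
  · exact absurd h1 hc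

private theorem dU_even {x : ℕ} (h0 : 0 < x) (h : Even x) : 1 ≤ padicValNat 2 x := by
  rw [← padicValNat_dvd_iff_le (by omega), pow_one]
  exact h.two_dvd

theorem UE_bd {e q a w m s : ℕ} (he : e ≤ 1) (hw : w + 2 * e = 4 * q + 1) (ha : 2 ^ a ∣ q)
    (hm : 1 ≤ m) (h : 3 * (m + s) + e ≤ w) :
    padicNorm 2 (UE e w m (m + s)) ≤ (2 : ℚ) ^ (2 * (s : ℤ) - bL e q a m s) := by
  rcases Nat.eq_zero_or_pos s with rfl | hs1
  · rw [add_zero, UE_self he hm (by omega)]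
    simp [bL]
  rcases lt_or_ge m s with hms | hms
  · rw [UE_big he hm hms h, padicNorm.zero]
    positivity
  refine (UE_vc he hm hms h).trans ?_
  refine zpow_le_zpow_right₀ (by norm_num) ?_
  have h1 := den_L (m := m) (s := s) he hw hm h
  have h2 := vc_sum (m - s) (2 * s)
  rw [fac_two, show m - s + 2 * s = m + s by omega] at h2
  have h3 := num_ge (q := q) (a := a) (x0 := m - s) (x1 := nt e m) (x2 := nt e m + (s + 1) / 2)
    (x3 := m + s) (padicValNat 2) (by unfold nt; omega) (by omega) (by unfold nt; omega)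
    (fun x hx _ hxe => dU_even (by omega) hxe)
    (fun ν hν hν2 => val_ge ha (by omega) (by unfold nt at hν2; omega))
  unfold bL
  rw [if_neg (by omega)]
  have hnt : nt e m = m + e - 1 := rfl
  rw [hnt] at h1 h3 ⊢
  split_ifs at h3 <;> omega

end MT2
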