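import Pool.Agent.Lib_MP_bfd926_dd.DNum
import Pool.Agent.Lib_MP_bfd926_sq.SQY

/-!
# The entries of the left vectors

`YE_vc`: in the proof of `YE_norm` (SQY, please copy): `YE e w n (n - t) * odd * C(w - 2 n + t, t) =
± odd * C(w - n + t, 2 t) * integer` for both `e`.
`YE_bd`: `v₂(C(w - n + t, 2 t)) = vc (w - n - t) (2 t)`, `vc_sum`: the sum of `v₂(u)` over
`w - n - t < u ≤ w - n + t`. Substitute `u = 4 q - x`: `w - n = 4 q - nt` (`e = 0`), `w - n = 4 q - nt - 1`
(`e = 1`), so `nt - t - 1 < x ≤ nt + t - 1` (`e = 0`), `nt - t < x ≤ nt + t` (`e = 1`) (`Finset.sum_bij`, or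
`Finset.sum_nbij'` with `u ↦ 4 q - u`). For `e = 0` and `t = nt` the lower bound is `x ≥ 0`: use the sum over
`x ∈ Ioc (nt - t) (nt + t - 1)` plus the term `x = nt - t`, or treat the terms directly; the first interval
`[nt - t, nt - (t + 1) / 2]` has `t / 2 + 1` elements. Then `num_ge` with `g x = v₂(4 q - x)` (even `x`: `4 q - x` is even
and positive), `val_ge4`, `fac_two`, `den_X`.
`e = 0`: the counts are as for `XE`, `e = 1`: `t / 2 + 1` and `t - 1`; `e = 1`: `t / 2` and `t`. See `DX`.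
Everything checked by computer.
-/

namespace MT2

private theorem dy_half {n : ℕ} (hn : 1 ≤ n) : ((n : ℚ) - 1 / 2) ≠ 0 := by
  have : (1 : ℚ) ≤ n := by exact_mod_cast hn
  intro h
  linarith

private theorem dy_norm_odd (z : ℤ) (hz : z % 2 = 1) : padicNorm 2 (z : ℚ) = 1 := by
  have h1 : ¬ ((2 : ℕ) : ℤ) ∣ z := by
    intro h
    have : (2 : ℤ) ∣ z := by exact_mod_cast h
    omega
  exact padicNorm.int_eq_one_iff z |>.2 h1

private theorem dy_norm_choose (a t : ℕ) :
    padicNorm 2 (Nat.choose (a + t) t : ℚ) = (2 : ℚ) ^ (-(vc a t : ℤ)) := by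
  have h0 : (Nat.choose (a + t) t : ℚ) ≠ 0 := by
    exact_mod_cast (Nat.choose_pos (by omega : t ≤ a + t)).ne'
  rw [padicNorm.eq_zpow_of_nonzero h0, padicValRat.of_nat]
  rfl

private theorem dy_choose (v u : ℕ) :
    (v : ℚ) * ((Nat.choose (v + (u + 1)) (u + 1) : ℚ) + 2 * (Nat.choose (v + u) u : ℚ)) =
      (v + 3 * (u + 1)) * (Nat.choose (v + u) (u + 1) : ℚ) := by
  have h1 := Nat.choose_succ_right_eq (v + u) u
  rw [Nat.add_sub_cancel] at h1
  have h1' : (Nat.choose (v + u) (u + 1) : ℚ) * (u + 1) = (Nat.choose (v + u) u : ℚ) * v := by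
    exact_mod_cast h1
  have h2 : (Nat.choose (v + (u + 1)) (u + 1) : ℚ) =
      (Nat.choose (v + u) u : ℚ) + (Nat.choose (v + u) (u + 1) : ℚ) := by
    have := Nat.choose_succ_succ (v + u) u
    exact_mod_cast this
  rw [h2]
  linear_combination -3 * h1'

/-- the quotient formula -/
private theorem dy_quot {e w n t : ℕ} (he : e ≤ 1) (h1 : 1 ≤ t) (ht : t < n) (h : 3 * n + e ≤ w) :
    ∃ Z O : ℤ, O % 2 = 1 ∧
      YE e w n (n - t) = ((Z : ℚ) * (Nat.choose (w - n + t) (2 * t) : ℚ)) /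
        ((O : ℚ) * (Nat.choose (w - 2 * n + t) t : ℚ)) := by
  have hn : 3 * n ≤ w := by omega
  have hcl := lv_closed hn h1 ht
  have hhalf := dy_half (n := n) (by omega)
  obtain ⟨O, hO, hOodd⟩ : ∃ O : ℤ, (O : ℚ) = ∏ m ∈ Finset.range t, (2 * (n : ℚ) - 1 - 2 * m) ∧
      O % 2 = 1 := by
    refine ⟨∏ m ∈ Finset.range t, (2 * (n : ℤ) - 1 - 2 * m), by push_cast; rfl, ?_⟩
    refine Finset.prod_induction (fun m : ℕ => (2 * (n : ℤ) - 1 - 2 * m)) (fun z : ℤ => z % 2 = 1)
      (fun a b ha hb => by rw [Int.mul_emod, ha, hb]; rfl) (by norm_num) (fun m _ => by omega)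
  have hB0 : (Nat.choose (w - 2 * n + t) t : ℚ) ≠ 0 := by
    exact_mod_cast (Nat.choose_pos (by omega : t ≤ w - 2 * n + t)).ne'
  have hO0 : (O : ℚ) ≠ 0 := by
    intro h0
    have : O = 0 := by exact_mod_cast h0
    omega
  rw [← hO] at hcl
  have hq : lv w n (n - t) / lv w n n = ((-1) ^ t * (∏ m ∈ Finset.range t, (2 * (m : ℚ) + 1)) *
        (Nat.choose (w - n + t) (2 * t) : ℚ) *
        ((Nat.choose (w - 3 * n + t) t : ℚ) + 2 * (Nat.choose (w - 3 * n + t - 1) (t - 1) : ℚ))) /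
        ((O : ℚ) * (Nat.choose (w - 2 * n + t) t : ℚ)) := by
    rw [lv_self, div_eq_div_iff hhalf (mul_ne_zero hO0 hB0), ← mul_assoc, hcl]
    ring
  rcases Nat.eq_zero_or_pos e with h0 | h0
  · refine ⟨(-1) ^ t * (∏ m ∈ Finset.range t, (2 * (m : ℤ) + 1)) *
        ((Nat.choose (w - 3 * n + t) t : ℤ) + 2 * (Nat.choose (w - 3 * n + t - 1) (t - 1) : ℤ)), O,
        hOodd, ?_⟩
    unfold YE
    rw [if_pos h0, hq]
    push_cast
    congr 1
    ring
  · have he1 : e = 1 := by omega
    subst he1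
    obtain ⟨u, rfl⟩ : ∃ u, t = u + 1 := ⟨t - 1, by omega⟩
    have hc := dy_choose (w - 3 * n) u
    refine ⟨(-1) ^ (u + 1) * (∏ m ∈ Finset.range (u + 1), (2 * (m : ℤ) + 1)) *
        (Nat.choose (w - 3 * n + u) (u + 1) : ℤ), O, hOodd, ?_⟩
    unfold YE
    rw [if_neg (by norm_num), hq]
    have hv : ((w - 3 * n : ℕ) : ℚ) = (w : ℚ) - 3 * n := by
      rw [Nat.cast_sub hn]
      push_cast
      ring
    have hnt : ((n - (u + 1) : ℕ) : ℚ) = (n : ℚ) - (u + 1) := by
      rw [Nat.cast_sub (by omega)]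
      push_cast
      ring
    have hd : (w : ℚ) - 3 * ((n - (u + 1) : ℕ) : ℚ) ≠ 0 := by
      rw [hnt]
      have h3 : (3 * (n : ℚ)) ≤ w := by exact_mod_cast hn
      have h4 : (0 : ℚ) ≤ u := Nat.cast_nonneg u
      intro h5
      linarith
    rw [hv] at hc
    rw [show w - 3 * n + (u + 1) - 1 = w - 3 * n + u by omega, Nat.add_sub_cancel]
    rw [div_mul_div_comm, div_eq_div_iff (mul_ne_zero hd (mul_ne_zero hO0 hB0))
      (mul_ne_zero hO0 hB0), hnt]
    push_cast
    linear_combination ((-1) ^ (u + 1) * (∏ m ∈ Finset.range (u + 1), (2 * (m : ℚ) + 1)) *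
      (Nat.choose (w - n + (u + 1)) (2 * (u + 1)) : ℚ)) *
      ((O : ℚ) * (Nat.choose (w - 2 * n + (u + 1)) (u + 1) : ℚ)) * hc

theorem YE_vc {e w n t : ℕ} (he : e ≤ 1) (ht : t < n) (h : 3 * n + e ≤ w) :
    padicNorm 2 (YE e w n (n - t)) ≤
      (2 : ℚ) ^ ((vc (w - 2 * n) t : ℤ) - vc (w - n - t) (2 * t)) := by
  rcases Nat.eq_zero_or_pos t with h0 | h0
  · subst h0
    rw [Nat.sub_zero, YE_self he (by omega) h]
    simp [vc_zero]
  · obtain ⟨Z, O, hO, hY⟩ := dy_quot he h0 ht h
    have h5 : w - n + t = (w - n - t) + 2 * t := by omega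
    rw [hY, padicNorm.div, padicNorm.mul, padicNorm.mul, dy_norm_odd O hO, one_mul, dy_norm_choose,
      h5, dy_norm_choose, zpow_neg, zpow_neg, div_inv_eq_mul, zpow_sub₀ (by norm_num)]
    have h4 : padicNorm 2 (Z : ℚ) ≤ 1 := padicNorm.of_int Z
    have h6 : (0 : ℚ) ≤ ((2 : ℚ) ^ (vc (w - n - t) (2 * t) : ℤ))⁻¹ *
      (2 : ℚ) ^ (vc (w - 2 * n) t : ℤ) := by positivity
    calc padicNorm 2 (Z : ℚ) * ((2 : ℚ) ^ (vc (w - n - t) (2 * t) : ℤ))⁻¹ *
          (2 : ℚ) ^ (vc (w - 2 * n) t : ℤ)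
        = padicNorm 2 (Z : ℚ) * (((2 : ℚ) ^ (vc (w - n - t) (2 * t) : ℤ))⁻¹ *
          (2 : ℚ) ^ (vc (w - 2 * n) t : ℤ)) := by ring
      _ ≤ 1 * (((2 : ℚ) ^ (vc (w - n - t) (2 * t) : ℤ))⁻¹ *
          (2 : ℚ) ^ (vc (w - 2 * n) t : ℤ)) := mul_le_mul_of_nonneg_right h4 h6
      _ = _ := by rw [one_mul, div_eq_mul_inv, mul_comm]

/-- The key inequality of natural numbers. -/
private theorem dy_main {e q a w n t : ℕ} (he : e ≤ 1) (hw : w + 2 * e = 4 * q + 1)
    (ha : 2 ^ a ∣ q) (h0 : 1 ≤ t) (ht : t < n) (h : 3 * n + e ≤ w) :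
    (t + 1) / 2 + ∑ ν ∈ Finset.Ioc (nt e n - (t + 1) / 2) (nt e n), padicValNat 2 (2 * q - ν) ≤
      ∑ u ∈ Finset.Ioc (w - n - t) (w - n - t + 2 * t), padicValNat 2 u +
        (if Even (nt e n) then 1 else 0) + Sd q a (nt e n - (t + 1) / 2) (nt e n) := by
  have hev : ∀ x, x < 4 * q → Even x → 1 ≤ padicValNat 2 (4 * q - x) := by
    intro x hx hx2
    obtain ⟨y, hy⟩ := hx2
    apply one_le_padicValNat_of_dvd (by omega)
    exact ⟨2 * q - y, by omega⟩
  rcases Nat.eq_zero_or_pos e with h1 | h1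
  · subst h1
    have hnt : nt 0 n = n - 1 := rfl
    rw [hnt]
    rcases Nat.lt_or_ge t (n - 1) with h2 | h2
    · have hs : ∑ u ∈ Finset.Ioc (w - n - t) (w - n - t + 2 * t), padicValNat 2 u =
          ∑ x ∈ Finset.Ioc (n - 1 - t - 1) (n - 1 + t - 1), padicValNat 2 (4 * q - x) := by
        refine Finset.sum_nbij' (fun u => 4 * q - u) (fun x => 4 * q - x) ?_ ?_ ?_ ?_ ?_
        · intro u hu
          simp only [Finset.mem_Ioc] at hu ⊢
          omega
        · intro u hu
          simp only [Finset.mem_Ioc] at hu ⊢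
          omega
        · intro u hu
          simp only [Finset.mem_Ioc] at hu ⊢
          omega
        · intro u hu
          simp only [Finset.mem_Ioc] at hu ⊢
          omega
        · intro u hu
          simp only [Finset.mem_Ioc] at hu
          have : 4 * q - (4 * q - u) = u := by omega
          rw [this]
      have hm := num_ge (q := q) (a := a) (x0 := n - 1 - t - 1) (x1 := n - 1 - (t + 1) / 2)
        (x2 := n - 1) (x3 := n - 1 + t - 1) (fun x => padicValNat 2 (4 * q - x)) (by omega)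
        (by omega) (by omega) (fun x _ hx2 hx3 => hev x (by omega) hx3)
        (fun ν hν1 hν2 => val_ge4 ha (by omega) (by omega))
      rw [hs]
      have e1 : Even (n - 1) ↔ (n - 1) % 2 = 0 := Nat.even_iff
      have e2 : Even (n - 1 - t - 1) ↔ (n - 1 - t - 1) % 2 = 0 := Nat.even_iff
      simp only [e1, e2] at hm ⊢
      split_ifs at hm ⊢ <;> omega
    · have h3 : t = n - 1 := by omega
      have hs : ∑ u ∈ Finset.Ioc (w - n - t) (w - n - t + 2 * t), padicValNat 2 u =
          padicValNat 2 (4 * q) +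
          ∑ x ∈ Finset.Ioc 0 (n - 1 + t - 1), padicValNat 2 (4 * q - x) := by
        have h4 : Finset.Ioc (w - n - t) (w - n - t + 2 * t) =
            insert (4 * q) (Finset.Ioc (w - n - t) (4 * q - 1)) := by
          ext u
          simp only [Finset.mem_Ioc, Finset.mem_insert]
          omega
        rw [h4, Finset.sum_insert (by simp only [Finset.mem_Ioc]; omega)]
        congr 1
        refine Finset.sum_nbij' (fun u => 4 * q - u) (fun x => 4 * q - x) ?_ ?_ ?_ ?_ ?_
        · intro u hu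
          simp only [Finset.mem_Ioc] at hu ⊢
          omega
        · intro u hu
          simp only [Finset.mem_Ioc] at hu ⊢
          omega
        · intro u hu
          simp only [Finset.mem_Ioc] at hu ⊢
          omega
        · intro u hu
          simp only [Finset.mem_Ioc] at hu ⊢
          omega
        · intro u hu
          simp only [Finset.mem_Ioc] at hu
          have : 4 * q - (4 * q - u) = u := by omega
          rw [this]
      have hm := num_ge (q := q) (a := a) (x0 := 0) (x1 := n - 1 - (t + 1) / 2)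
        (x2 := n - 1) (x3 := n - 1 + t - 1) (fun x => padicValNat 2 (4 * q - x)) (by omega)
        (by omega) (by omega) (fun x _ hx2 hx3 => hev x (by omega) hx3)
        (fun ν hν1 hν2 => val_ge4 ha (by omega) (by omega))
      have hq4 : 1 ≤ padicValNat 2 (4 * q) := by
        have := hev 0 (by omega) (by simp)
        simpa using this
      rw [hs]
      have e1 : Even (n - 1) ↔ (n - 1) % 2 = 0 := Nat.even_iff
      simp only [e1, Even.zero, if_true] at hm ⊢
      split_ifs at hm ⊢ <;> omega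
  · have he1 : e = 1 := by omega
    subst he1
    have hnt : nt 1 n = n := rfl
    rw [hnt]
    have hs : ∑ u ∈ Finset.Ioc (w - n - t) (w - n - t + 2 * t), padicValNat 2 u =
        ∑ x ∈ Finset.Ioc (n - t) (n + t), padicValNat 2 (4 * q - x) := by
      refine Finset.sum_nbij' (fun u => 4 * q - u) (fun x => 4 * q - x) ?_ ?_ ?_ ?_ ?_
      · intro u hu
        simp only [Finset.mem_Ioc] at hu ⊢
        omega
      · intro u hu
        simp only [Finset.mem_Ioc] at hu ⊢
        omega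
      · intro u hu
        simp only [Finset.mem_Ioc] at hu ⊢
        omega
      · intro u hu
        simp only [Finset.mem_Ioc] at hu ⊢
        omega
      · intro u hu
        simp only [Finset.mem_Ioc] at hu
        have : 4 * q - (4 * q - u) = u := by omega
        rw [this]
    have hm := num_ge (q := q) (a := a) (x0 := n - t) (x1 := n - (t + 1) / 2)
      (x2 := n) (x3 := n + t) (fun x => padicValNat 2 (4 * q - x)) (by omega)
      (by omega) (by omega) (fun x _ hx2 hx3 => hev x (by omega) hx3)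
      (fun ν hν1 hν2 => val_ge4 ha (by omega) (by omega))
    rw [hs]
    have e1 : Even n ↔ n % 2 = 0 := Nat.even_iff
    have e2 : Even (n - t) ↔ (n - t) % 2 = 0 := Nat.even_iff
    simp only [e1, e2] at hm ⊢
    split_ifs at hm ⊢ <;> omega

theorem YE_bd {e q a w n t : ℕ} (he : e ≤ 1) (hw : w + 2 * e = 4 * q + 1) (ha : 2 ^ a ∣ q)
    (ht : t < n) (h : 3 * n + e ≤ w) :
    padicNorm 2 (YE e w n (n - t)) ≤ (2 : ℚ) ^ (2 * (t : ℤ) - bX e q a n t) := by
  refine (YE_vc he ht h).trans ?_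
  apply zpow_le_zpow_right₀ (by norm_num)
  rcases Nat.eq_zero_or_pos t with h0 | h0
  · subst h0
    simp [vc_zero, bX]
  · have h1 := dy_main he hw ha h0 ht h
    have h2 := vc_sum (w - n - t) (2 * t)
    have h3 := fac_two t
    have h4 := den_X he hw ht h
    have hb : bX e q a n t = (t : ℤ) - (if Even (nt e n) then 1 else 0) -
        Sd q a (nt e n - (t + 1) / 2) (nt e n) := by
      unfold bX
      rw [if_neg (by omega)]
    rw [hb]
    split_ifs at h1 ⊢ <;> omega

end MT2
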