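import Pool.Agent.Lib_MP_bfd926_dd.DX
import Pool.Agent.Lib_MP_bfd926_dd.DY
import Pool.Agent.Lib_MP_bfd926_dd.DL
import Pool.Agent.Lib_MP_bfd926_dd.DU
import Pool.Agent.Lib_MP_bfd926_dd.DIneq
import Pool.Agent.Lib_MP_bfd926_sq.SQCutQ
import Pool.Agent.Lib_MP_bfd926_sq.SInv

/-!
# The blocks at a pair, over the rational numbers

Please copy the proof of `cutQ` (SQCutQ) with `XE_bd`, `YE_bd`, `LE_bd`, `UE_bd` instead of `XE_norm`, … and `I1`–`I4`
instead of `CutOK`; `M = ph e w B`. `Pi i j = Pn e w B (i + 1) (j + 1)`.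
* `blk_A`: `Pn_one`. `blk_EE`: as in `cutQ` (`inv_NE`).
* `blk_Pn`: the entries of the scaled inverse: the terms of `Pn`, `i ≤ B`, `t = i - j`, `t' = i - n`, have the norm at
  most `2 ^ (2 t - bX i t + 2 t' - bX i t' - 4 i + ph i)`, so the scaled terms
  (`2 ^ (ph B) * (4 ^ j)⁻¹ * … * (4 ^ n)⁻¹`) at most `2 ^ (-(ph B - ph i + bX i t + bX i t'))`, `I1`.
* `blk_C`: rows `m ≥ B + 2`: `Pn_P`, `LE_bd`, `YE_bd`, `I2`; the row `m = B + 1`: `Pn_P'`, `YE_bd`, `I3`.
* `blk_B`: the same with `Pn_Q`, `UE_bd`, `XE_bd`, `Pn_Q'`.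
* `blk_S`: `Pn_S`, `LE_bd`, `UE_bd`, `DE_norm`, `I4`.
-/

open Matrix

namespace MT2

private theorem DBlk_sum (b : ℕ) (f : ℕ → ℚ) :
    ∑ i : Fin b, f ((i : ℕ) + 1) = ∑ i ∈ Finset.Icc 1 b, f i := by
  rw [Fin.sum_univ_eq_sum_range (fun i => f (i + 1)) b]
  induction b with
  | zero => simp
  | succ b ih =>
    rw [Finset.sum_range_succ, ih, Finset.sum_Icc_succ_top (by omega)]

private theorem DBlk_mul {x y : ℚ} {a b c : ℤ} (hx : padicNorm 2 x ≤ (2 : ℚ) ^ a)
    (hy : padicNorm 2 y ≤ (2 : ℚ) ^ b) (h : a + b ≤ c) :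
    padicNorm 2 (x * y) ≤ (2 : ℚ) ^ c := by
  rw [padicNorm.mul]
  calc _ ≤ (2 : ℚ) ^ a * (2 : ℚ) ^ b :=
        mul_le_mul hx hy (padicNorm.nonneg _) (by positivity)
    _ = (2 : ℚ) ^ (a + b) := (zpow_add₀ (by norm_num) _ _).symm
    _ ≤ _ := zpow_le_zpow_right₀ (by norm_num) h

private theorem DBlk_div {x y : ℚ} {a b c : ℤ} (hx : padicNorm 2 x ≤ (2 : ℚ) ^ a)
    (hy : padicNorm 2 y = (2 : ℚ) ^ b) (h : a - b ≤ c) :
    padicNorm 2 (x / y) ≤ (2 : ℚ) ^ c := by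
  rw [padicNorm.div, hy]
  calc _ ≤ (2 : ℚ) ^ a / (2 : ℚ) ^ b :=
        div_le_div_of_nonneg_right hx (by positivity)
    _ = (2 : ℚ) ^ (a - b) := (zpow_sub₀ (by norm_num) _ _).symm
    _ ≤ _ := zpow_le_zpow_right₀ (by norm_num) h

private theorem DBlk_zero {x : ℚ} (h : x = 0) (c : ℤ) : padicNorm 2 x ≤ (2 : ℚ) ^ c := by
  rw [h, padicNorm.zero]
  positivity

theorem blk_Pn {e q a w d c B D j n : ℕ} (he : e ≤ 1) (hw : w + 2 * e = 4 * q + 1)
    (ha : 2 ^ a ∣ q) (hd : 3 * d + e ≤ w) (hD : d + e = D + 1) (hB : B + e = c + 1)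
    (hBd : B ≤ d) (hg : Good q a D c) (hj : 1 ≤ j) (hjB : j ≤ B) (hn : 1 ≤ n) (hnB : n ≤ B) :
    padicNorm 2 (Pn e w B j n) ≤ (2 : ℚ) ^ (ph e w B - 2 * (j : ℤ) - 2 * (n : ℤ)) := by
  unfold Pn
  refine padicNorm.sum_le' (fun i hi => ?_) (by positivity)
  rw [Finset.mem_Icc] at hi
  rcases lt_or_ge i j with h1 | h1
  · exact DBlk_zero (by rw [XE_gt h1, zero_mul, zero_div]) _
  rcases lt_or_ge i n with h2 | h2
  · exact DBlk_zero (by rw [YE_gt h2, mul_zero, zero_div]) _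
  obtain ⟨t, rfl⟩ := Nat.exists_eq_add_of_le h1
  obtain ⟨t', ht'⟩ := Nat.exists_eq_add_of_le h2
  have hx := XE_bd (e := e) (q := q) (a := a) (w := w) (n := j + t) (t := t) he hw ha
    (by omega) (by omega)
  have hy := YE_bd (e := e) (q := q) (a := a) (w := w) (n := j + t) (t := t') he hw ha
    (by omega) (by omega)
  rw [show j + t - t = j by omega] at hx
  rw [show j + t - t' = n by omega] at hy
  have hde := DE_norm (e := e) (w := w) (n := j + t) he hi.1 (by omega)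
  refine DBlk_div (DBlk_mul hx hy le_rfl) hde ?_
  have m1 := (I1 (n := j + t) (t := t) (t' := t') he hw ha hd hD hB hBd hg hi.1 hi.2 (by omega)
    (by omega)).1
  have e1 : ((j : ℤ) + t) = n + t' := by exact_mod_cast ht'
  push_cast at m1 ⊢
  linarith

theorem blk_C {e q a w d c B D m n : ℕ} (he : e ≤ 1) (hw : w + 2 * e = 4 * q + 1)
    (ha : 2 ^ a ∣ q) (hd : 3 * d + e ≤ w) (hD : d + e = D + 1) (hB : B + e = c + 1)
    (hg : Good q a D c) (hm : B < m) (hmd : m ≤ d) (hn : 1 ≤ n) (hnB : n ≤ B) :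
    padicNorm 2 (∑ j ∈ Finset.Icc 1 B, (NE e w m j : ℚ) * Pn e w B j n) ≤
      (2 : ℚ) ^ (2 * ((m : ℤ) - n) - 1) := by
  rcases Nat.lt_or_ge (B + 1) m with h1 | h1
  · rw [Pn_P he (by omega) hn hnB (by omega) (by omega)]
    refine padicNorm.sum_le' (fun k hk => ?_) (by positivity)
    rw [Finset.mem_Icc] at hk
    rcases lt_or_ge k n with h2 | h2
    · exact DBlk_zero (by rw [YE_gt h2, mul_zero]) _
    obtain ⟨t, rfl⟩ := Nat.exists_eq_add_of_le h2
    obtain ⟨s, rfl⟩ := Nat.exists_eq_add_of_le (show n + t ≤ m by omega)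
    have hl := LE_bd (e := e) (q := q) (a := a) (w := w) (m := n + t) (s := s) he hw ha hk.1
      (by omega)
    have hy := YE_bd (e := e) (q := q) (a := a) (w := w) (n := n + t) (t := t) he hw ha
      (by omega) (by omega)
    rw [show n + t - t = n by omega] at hy
    have h3 := I2 (n := n + t) (t := t) (s := s) he hw ha hd hD hB (by omega) hg hk.1 hk.2
      (by omega) (by omega) (by omega)
    refine DBlk_mul hl hy ?_
    push_cast
    linarith
  · have h2 : m = B + 1 := by omega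
    subst h2
    rw [Pn_P' he hn hnB (by omega), padicNorm.neg]
    obtain ⟨t, ht⟩ := Nat.exists_eq_add_of_le hnB
    have hy := YE_bd (e := e) (q := q) (a := a) (w := w) (n := B + 1) (t := t + 1) he hw ha
      (by omega) (by omega)
    rw [show B + 1 - (t + 1) = n by omega] at hy
    have h3 := I3 (t := t + 1) he hw ha hd hD hB (by omega) hg (by omega) (by omega)
    refine hy.trans (zpow_le_zpow_right₀ (by norm_num) ?_)
    have e1 : (B : ℤ) = n + t := by exact_mod_cast ht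
    push_cast
    linarith

theorem blk_B {e q a w d c B D m n : ℕ} (he : e ≤ 1) (hw : w + 2 * e = 4 * q + 1)
    (ha : 2 ^ a ∣ q) (hd : 3 * d + e ≤ w) (hD : d + e = D + 1) (hB : B + e = c + 1)
    (hg : Good q a D c) (hm : B < m) (hmd : m ≤ d) (hn : 1 ≤ n) (hnB : n ≤ B) :
    padicNorm 2 (∑ j ∈ Finset.Icc 1 B, Pn e w B n j * (NE e w j m : ℚ)) ≤
      (2 : ℚ) ^ (2 * ((m : ℤ) - n) - 1) := by
  rcases Nat.lt_or_ge (B + 1) m with h1 | h1
  · rw [Pn_Q he (by omega) hn hnB (by omega) (by omega)]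
    refine padicNorm.sum_le' (fun k hk => ?_) (by positivity)
    rw [Finset.mem_Icc] at hk
    rcases lt_or_ge k n with h2 | h2
    · exact DBlk_zero (by rw [XE_gt h2, zero_mul]) _
    obtain ⟨t, rfl⟩ := Nat.exists_eq_add_of_le h2
    obtain ⟨s, rfl⟩ := Nat.exists_eq_add_of_le (show n + t ≤ m by omega)
    have hl := UE_bd (e := e) (q := q) (a := a) (w := w) (m := n + t) (s := s) he hw ha hk.1
      (by omega)
    have hy := XE_bd (e := e) (q := q) (a := a) (w := w) (n := n + t) (t := t) he hw ha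
      (by omega) (by omega)
    rw [show n + t - t = n by omega] at hy
    have h3 := I2 (n := n + t) (t := t) (s := s) he hw ha hd hD hB (by omega) hg hk.1 hk.2
      (by omega) (by omega) (by omega)
    refine DBlk_mul hy hl ?_
    push_cast
    linarith
  · have h2 : m = B + 1 := by omega
    subst h2
    rw [Pn_Q' he hn hnB (by omega), padicNorm.neg]
    obtain ⟨t, ht⟩ := Nat.exists_eq_add_of_le hnB
    have hy := XE_bd (e := e) (q := q) (a := a) (w := w) (n := B + 1) (t := t + 1) he hw ha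
      (by omega) (by omega)
    rw [show B + 1 - (t + 1) = n by omega] at hy
    have h3 := I3 (t := t + 1) he hw ha hd hD hB (by omega) hg (by omega) (by omega)
    refine hy.trans (zpow_le_zpow_right₀ (by norm_num) ?_)
    have e1 : (B : ℤ) = n + t := by exact_mod_cast ht
    push_cast
    linarith

theorem blk_S {e q a w d c B D m n : ℕ} (he : e ≤ 1) (hw : w + 2 * e = 4 * q + 1)
    (ha : 2 ^ a ∣ q) (hd : 3 * d + e ≤ w) (hD : d + e = D + 1) (hB : B + e = c + 1)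
    (hg : Good q a D c) (hm : B < m) (hmd : m ≤ d) (hn : B < n) (hnd : n ≤ d) :
    padicNorm 2 ((NE e w m n : ℚ) - ∑ i ∈ Finset.Icc 1 B, (∑ j ∈ Finset.Icc 1 B,
        (NE e w m j : ℚ) * Pn e w B j i) * (NE e w i n : ℚ)) ≤
      (2 : ℚ) ^ (2 * (m : ℤ) + 2 * (n : ℤ) - ph e w B - 1) := by
  rw [Pn_S he hm hn hmd hnd hd]
  refine padicNorm.sum_le' (fun k hk => ?_) (by positivity)
  rw [Finset.mem_Ioc] at hk
  rcases lt_or_ge m k with h1 | h1
  · exact DBlk_zero (by rw [LE_lt he (by omega) h1 (by omega), zero_mul, zero_mul]) _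
  rcases lt_or_ge n k with h2 | h2
  · exact DBlk_zero (by rw [UE_lt he (by omega) h2 (by omega), mul_zero]) _
  obtain ⟨s, rfl⟩ := Nat.exists_eq_add_of_le h1
  obtain ⟨s', rfl⟩ := Nat.exists_eq_add_of_le h2
  have hl := LE_bd (e := e) (q := q) (a := a) (w := w) (m := k) (s := s) he hw ha (by omega)
    (by omega)
  have hu := UE_bd (e := e) (q := q) (a := a) (w := w) (m := k) (s := s') he hw ha (by omega)
    (by omega)
  have hde := DE_norm (e := e) (w := w) (n := k) he (by omega) (by omega)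
  have m1 := I4 (i := k) (s := s) (s' := s') he hw ha hd hD hB hg hk.1 hmd hnd
  refine DBlk_mul (DBlk_mul hl hde.le le_rfl) hu ?_
  push_cast
  linarith

theorem blkQ {e q a w c B C D : ℕ} (he : e ≤ 1) (hw : w + 2 * e = 4 * q + 1)
    (ha : 2 ^ a ∣ q) (hd : 3 * (B + C) + e ≤ w) (hD : B + C + e = D + 1) (hB : B + e = c + 1)
    (hC : 1 ≤ C) (hg : Good q a D c) :
    ∃ Pi : Matrix (Fin B) (Fin B) ℚ, blkA ℚ e w B * Pi = 1 ∧
      (∀ i j, Pi i j = Pn e w B ((i : ℕ) + 1) ((j : ℕ) + 1)) ∧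
      (∀ i j, padicNorm 2 (Pi i j) ≤ (2 : ℚ) ^ (EE w : ℤ)) ∧
      (∀ (i : Fin C) (j : Fin B), padicNorm 2 ((blkC ℚ e w B C * Pi) i j) ≤
        (2 : ℚ) ^ (2 * ((B : ℤ) + i - j) - 1)) ∧
      (∀ (i : Fin B) (j : Fin C), padicNorm 2 ((Pi * blkB ℚ e w B C) i j) ≤
        (2 : ℚ) ^ (2 * ((B : ℤ) + j - i) - 1)) ∧
      (∀ i j : Fin C, padicNorm 2 ((blkE ℚ e w B C - blkC ℚ e w B C * Pi * blkB ℚ e w B C) i j) ≤
        (2 : ℚ) ^ (2 * ((B : ℤ) + i + 1) + 2 * ((B : ℤ) + j + 1) - ph e w B - 1)) := by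
  obtain ⟨Pi, hPi⟩ : ∃ Pi : Matrix (Fin B) (Fin B) ℚ,
      Pi = Matrix.of fun i j : Fin B => Pn e w B ((i : ℕ) + 1) ((j : ℕ) + 1) := ⟨_, rfl⟩
  have hinv : blkA ℚ e w B * Pi = 1 := by
    ext i j
    rw [Matrix.mul_apply, Matrix.one_apply]
    have h1 := Pn_one (e := e) (w := w) (b := B) (m := (i : ℕ) + 1) (n := (j : ℕ) + 1) he
      (by omega) (by omega) (by have := i.2; omega) (by have := j.2; omega) (by omega)
    rw [← DBlk_sum B (fun k => (NE e w ((i : ℕ) + 1 : ℕ) k : ℚ) *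
      Pn e w B k ((j : ℕ) + 1))] at h1
    have h2 : ((i : ℕ) + 1 = (j : ℕ) + 1) ↔ i = j := by
      rw [Nat.add_right_cancel_iff, Fin.ext_iff]
    rw [if_congr h2 rfl rfl] at h1
    rw [← h1]
    refine Finset.sum_congr rfl (fun k _ => ?_)
    rw [hPi]
    simp only [blkA, Matrix.of_apply]
    push_cast
    rfl
  have hCP : ∀ (i : Fin C) (j : Fin B), (blkC ℚ e w B C * Pi) i j =
      ∑ k ∈ Finset.Icc 1 B, (NE e w (B + (i : ℕ) + 1 : ℕ) k : ℚ) *
        Pn e w B k ((j : ℕ) + 1) := by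
    intro i j
    rw [Matrix.mul_apply, ← DBlk_sum B (fun k => (NE e w (B + (i : ℕ) + 1 : ℕ) k : ℚ) *
      Pn e w B k ((j : ℕ) + 1))]
    refine Finset.sum_congr rfl (fun k _ => ?_)
    rw [hPi]
    simp only [blkC, Matrix.of_apply]
    push_cast
    rfl
  have hPB : ∀ (i : Fin B) (j : Fin C), (Pi * blkB ℚ e w B C) i j =
      ∑ k ∈ Finset.Icc 1 B, Pn e w B ((i : ℕ) + 1) k *
        (NE e w k (B + (j : ℕ) + 1 : ℕ) : ℚ) := by
    intro i j
    rw [Matrix.mul_apply, ← DBlk_sum B (fun k => Pn e w B ((i : ℕ) + 1) k *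
        (NE e w k (B + (j : ℕ) + 1 : ℕ) : ℚ))]
    refine Finset.sum_congr rfl (fun k _ => ?_)
    rw [hPi]
    simp only [blkB, Matrix.of_apply]
    push_cast
    rfl
  refine ⟨Pi, hinv, ?_, ?_, ?_, ?_, ?_⟩
  · intro i j
    rw [hPi]
    rfl
  · obtain ⟨P, hP, hPn⟩ := inv_NE (e := e) (w := w) (b := B) he (by omega)
    have h1 : P * blkA ℚ e w B = 1 := hP
    have h2 : P = Pi := by
      calc P = P * (blkA ℚ e w B * Pi) := by rw [hinv, mul_one]
        _ = Pi := by rw [← Matrix.mul_assoc, h1, Matrix.one_mul]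
    intro i j
    rw [← h2, zpow_natCast]
    exact hPn i j
  · intro i j
    rw [hCP]
    have h1 := blk_C he hw ha hd hD hB hg (m := B + (i : ℕ) + 1) (n := (j : ℕ) + 1) (by omega)
      (by have := i.2; omega) (by omega) (by have := j.2; omega)
    refine h1.trans (le_of_eq ?_)
    congr 1
    push_cast
    ring
  · intro i j
    rw [hPB]
    have h1 := blk_B he hw ha hd hD hB hg (m := B + (j : ℕ) + 1) (n := (i : ℕ) + 1) (by omega)
      (by have := j.2; omega) (by omega) (by have := i.2; omega)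
    refine h1.trans (le_of_eq ?_)
    congr 1
    push_cast
    ring
  · intro i j
    have h1 := blk_S he hw ha hd hD hB hg (m := B + (i : ℕ) + 1) (n := B + (j : ℕ) + 1) (by omega)
      (by have := i.2; omega) (by omega) (by have := j.2; omega)
    rw [← DBlk_sum B (fun l => (∑ k ∈ Finset.Icc 1 B, (NE e w (B + (i : ℕ) + 1 : ℕ) k : ℚ) *
        Pn e w B k l) * (NE e w l (B + (j : ℕ) + 1 : ℕ) : ℚ))] at h1
    have h2 : (blkE ℚ e w B C - blkC ℚ e w B C * Pi * blkB ℚ e w B C) i j =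
        (NE e w (B + (i : ℕ) + 1 : ℕ) (B + (j : ℕ) + 1 : ℕ) : ℚ) -
          ∑ l : Fin B, (∑ k ∈ Finset.Icc 1 B, (NE e w (B + (i : ℕ) + 1 : ℕ) k : ℚ) *
            Pn e w B k ((l : ℕ) + 1)) * (NE e w ((l : ℕ) + 1 : ℕ) (B + (j : ℕ) + 1 : ℕ) : ℚ) := by
      rw [Matrix.sub_apply, Matrix.mul_apply]
      congr 1
      refine Finset.sum_congr rfl (fun l _ => ?_)
      rw [hCP]
      simp only [blkB, Matrix.of_apply]
      push_cast
      rfl
    rw [h2]
    refine h1.trans (le_of_eq ?_)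
    push_cast
    rfl

end MT2
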