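import Pool.Agent.Lib_MP_bfd926_ab.ARoot

/-!
# Eigenvalues of a block matrix whose corner dominates

`M = fromBlocks A B C' E`, `A * Ai = 1`, `π * Ai` is congruent to the integral matrix `G0` modulo the maximal
ideal, `Ai * B` and `C' * Ai` are small, and the Schur complement is smaller than `π`. Then the eigenvalues `r`
of `M` with `r / π` a unit are, modulo the maximal ideal, the roots of `det (X * G0 - 1)`.
-/

open Polynomial Matrix

namespace MT2

/-- the residue vanishes iff the valuation is less than one -/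
private theorem db_res {K Γ : Type} [Field K] [LinearOrderedCommGroupWithZero Γ] (v : Valuation K Γ)
    (a : v.valuationSubring) (h : v (a : K) < 1) :
    IsLocalRing.residue v.valuationSubring a = 0 := by
  rw [IsLocalRing.residue_eq_zero_iff, IsLocalRing.mem_maximalIdeal, mem_nonunits_iff]
  intro hu
  obtain ⟨u, hu⟩ := hu
  have h1 : ((u : v.valuationSubring) : K) * ((u⁻¹ : (v.valuationSubring)ˣ) : v.valuationSubring) = 1 := by
    have := congrArg (fun z : v.valuationSubring => (z : K)) u.mul_inv
    exact this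
  have h2 := congrArg v h1
  rw [map_mul, map_one, hu] at h2
  have h3 : v ((((u⁻¹ : (v.valuationSubring)ˣ) : v.valuationSubring)) : K) ≤ 1 :=
    (Valuation.mem_valuationSubring_iff v _).mp ((u⁻¹ : (v.valuationSubring)ˣ) : v.valuationSubring).2
  have h4 : v (a : K) * v ((((u⁻¹ : (v.valuationSubring)ˣ) : v.valuationSubring)) : K) < 1 :=
    calc _ ≤ v (a : K) * 1 := mul_le_mul' le_rfl h3
      _ = v (a : K) := mul_one _
      _ < 1 := h
  exact absurd h2 h4.ne

private theorem db_int {K Γ : Type} [Field K] [LinearOrderedCommGroupWithZero Γ] (v : Valuation K Γ) (m : ℤ) :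
    v (m : K) ≤ 1 := by
  have h : ((m : ℤ) : K) ∈ v.valuationSubring := intCast_mem _ m
  exact (Valuation.mem_valuationSubring_iff v _).mp h

private theorem db_mem {K Γ : Type} [Field K] [LinearOrderedCommGroupWithZero Γ] (v : Valuation K Γ) {a : K} {m : ℤ}
    (h : v (a - m) < 1) : a ∈ v.valuationSubring := by
  rw [Valuation.mem_valuationSubring_iff]
  have h1 : a = (a - m) + m := by ring
  rw [h1]
  exact (v.map_add _ _).trans (max_le h.le (db_int v m))

private theorem pencil_map {ι R S : Type} [Fintype ι] [DecidableEq ι] [CommRing R] [CommRing S] (f : R →+* S)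
    (W V : Matrix ι ι R) :
    ((X : Polynomial R) • W.map C - V.map C : Matrix ι ι (Polynomial R)).det.map f =
      ((X : Polynomial S) • (W.map f).map C - (V.map f).map C : Matrix ι ι (Polynomial S)).det := by
  rw [← Polynomial.coe_mapRingHom, RingHom.map_det]
  congr 1
  ext1 i j
  simp only [RingHom.mapMatrix_apply, Matrix.map_apply, Matrix.sub_apply, Matrix.smul_apply,
    smul_eq_mul, Polynomial.coe_mapRingHom, Polynomial.map_sub, Polynomial.map_mul,
    Polynomial.map_X, Polynomial.map_C]

open Classical in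
/-- the reduction of a linear pencil -/
theorem pencil_res {ι : Type} [Fintype ι] [DecidableEq ι] {K Γ : Type} [Field K] [IsAlgClosed K]
    [LinearOrderedCommGroupWithZero Γ] (v : Valuation K Γ) (W V : Matrix ι ι K) (W0 V0 : Matrix ι ι ℤ)
    (hW : ∀ i j, v (W i j - (W0 i j : K)) < 1) (hV : ∀ i j, v (V i j - (V0 i j : K)) < 1)
    (P : Polynomial K) (hP0 : P ≠ 0)
    (hP : ((X : Polynomial K) • W.map C - V.map C : Matrix ι ι (Polynomial K)).det = P)
    (hR : ((X : Polynomial (IsLocalRing.ResidueField v.valuationSubring)) •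
        (W0.map (Int.cast : ℤ → IsLocalRing.ResidueField v.valuationSubring)).map C -
      (V0.map (Int.cast : ℤ → IsLocalRing.ResidueField v.valuationSubring)).map C :
        Matrix ι ι (Polynomial (IsLocalRing.ResidueField v.valuationSubring))).det ≠ 0)
    (x : IsLocalRing.ResidueField v.valuationSubring) :
    ((X : Polynomial (IsLocalRing.ResidueField v.valuationSubring)) •
        (W0.map (Int.cast : ℤ → IsLocalRing.ResidueField v.valuationSubring)).map C -
      (V0.map (Int.cast : ℤ → IsLocalRing.ResidueField v.valuationSubring)).map C :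
        Matrix ι ι (Polynomial (IsLocalRing.ResidueField v.valuationSubring))).det.rootMultiplicity x =
    Multiset.card (P.roots.filter fun r => ∃ h : r ∈ v.valuationSubring,
      IsLocalRing.residue v.valuationSubring ⟨r, h⟩ = x) := by
  obtain ⟨WA, hWA⟩ : ∃ WA : Matrix ι ι v.valuationSubring,
      ∀ i j, ((WA i j : v.valuationSubring) : K) = W i j :=
    ⟨Matrix.of fun i j => ⟨W i j, db_mem v (hW i j)⟩, fun i j => rfl⟩
  obtain ⟨VA, hVA⟩ : ∃ VA : Matrix ι ι v.valuationSubring,
      ∀ i j, ((VA i j : v.valuationSubring) : K) = V i j :=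
    ⟨Matrix.of fun i j => ⟨V i j, db_mem v (hV i j)⟩, fun i j => rfl⟩
  have key : ∀ (Z : Matrix ι ι K) (Z0 : Matrix ι ι ℤ) (ZA : Matrix ι ι v.valuationSubring),
      (∀ i j, v (Z i j - (Z0 i j : K)) < 1) → (∀ i j, ((ZA i j : v.valuationSubring) : K) = Z i j) →
      ZA.map (IsLocalRing.residue v.valuationSubring) =
        Z0.map (Int.cast : ℤ → IsLocalRing.ResidueField v.valuationSubring) := by
    intro Z Z0 ZA hZ hZA
    ext1 i j
    rw [Matrix.map_apply, Matrix.map_apply]
    have h1 : IsLocalRing.residue v.valuationSubring (ZA i j - (Z0 i j : v.valuationSubring)) = 0 := by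
      apply db_res
      have h2 : ((ZA i j - (Z0 i j : v.valuationSubring) : v.valuationSubring) : K) =
          Z i j - (Z0 i j : K) := by
        push_cast
        rw [hZA]
      rw [h2]
      exact hZ i j
    rw [map_sub, map_intCast] at h1
    exact sub_eq_zero.mp h1
  have hWr := key W W0 WA hW hWA
  have hVr := key V V0 VA hV hVA
  have hWK : WA.map (algebraMap v.valuationSubring K) = W := by
    ext1 i j
    rw [Matrix.map_apply]
    exact hWA i j
  have hVK : VA.map (algebraMap v.valuationSubring K) = V := by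
    ext1 i j
    rw [Matrix.map_apply]
    exact hVA i j
  have hRK := pencil_map (algebraMap v.valuationSubring K) WA VA
  rw [hWK, hVK, hP] at hRK
  have hRk := pencil_map (IsLocalRing.residue v.valuationSubring) WA VA
  rw [hWr, hVr] at hRk
  rw [← hRk]
  exact root_red v.valuationSubring P hP0 _ hRK (by rw [hRk]; exact hR) x

private theorem db_val_one {K Γ : Type} [Field K] [LinearOrderedCommGroupWithZero Γ] (v : Valuation K Γ) {m n l : Type}
    [Fintype n] (A : Matrix m n K) (B : Matrix n l K)
    (hA : ∀ i j, v (A i j) ≤ 1) (hB : ∀ i j, v (B i j) < 1) (i : m) (j : l) : v ((A * B) i j) < 1 := by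
  rw [Matrix.mul_apply]
  refine Valuation.map_sum_lt v one_ne_zero fun k _ => ?_
  rw [map_mul]
  exact (mul_le_mul' (hA i k) le_rfl).trans_lt (by rw [one_mul]; exact hB k j)

private theorem db_red {m n k : Type} [Fintype m] [DecidableEq m] [Fintype n] [DecidableEq n] [Field k]
    (G0 : Matrix m m ℤ) :
    ((X : Polynomial k) • ((fromBlocks G0 0 0 1 : Matrix (m ⊕ n) (m ⊕ n) ℤ).map (Int.cast : ℤ → k)).map C -
      ((fromBlocks 1 0 0 0 : Matrix (m ⊕ n) (m ⊕ n) ℤ).map (Int.cast : ℤ → k)).map C :
        Matrix (m ⊕ n) (m ⊕ n) (Polynomial k)).det =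
      ((X : Polynomial k) • (G0.map (Int.cast : ℤ → k)).map C - 1 : Matrix m m (Polynomial k)).det *
        X ^ Fintype.card n := by
  have h1 : ((X : Polynomial k) • ((fromBlocks G0 0 0 1 : Matrix (m ⊕ n) (m ⊕ n) ℤ).map
      (Int.cast : ℤ → k)).map C -
      ((fromBlocks 1 0 0 0 : Matrix (m ⊕ n) (m ⊕ n) ℤ).map (Int.cast : ℤ → k)).map C :
        Matrix (m ⊕ n) (m ⊕ n) (Polynomial k)) =
      fromBlocks ((X : Polynomial k) • (G0.map (Int.cast : ℤ → k)).map C - 1) 0 0
        ((X : Polynomial k) • (1 : Matrix n n (Polynomial k))) := by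
    ext1 i j
    rcases i with i | i <;> rcases j with j | j
    · simp only [Matrix.sub_apply, Matrix.smul_apply, Matrix.map_apply, fromBlocks_apply₁₁,
        smul_eq_mul, Matrix.one_apply]
      split <;> simp
    · simp
    · simp
    · simp only [Matrix.sub_apply, Matrix.smul_apply, Matrix.map_apply, fromBlocks_apply₂₂,
        smul_eq_mul, Matrix.one_apply]
      split <;> simp
  rw [h1, det_fromBlocks_zero₂₁, det_smul, det_one, mul_one]

private theorem db_red0 {m k : Type} [Fintype m] [DecidableEq m] [Field k] (G0 : Matrix m m ℤ) :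
    ((X : Polynomial k) • (G0.map (Int.cast : ℤ → k)).map C - 1 : Matrix m m (Polynomial k)).det ≠ 0 := by
  intro h
  have h1 := congrArg (Polynomial.evalRingHom (0 : k)) h
  rw [RingHom.map_det, map_zero] at h1
  have h2 : (Polynomial.evalRingHom (0 : k)).mapMatrix
      ((X : Polynomial k) • (G0.map (Int.cast : ℤ → k)).map C - 1 : Matrix m m (Polynomial k)) = -1 := by
    ext1 i j
    simp only [RingHom.mapMatrix_apply, Matrix.map_apply, Matrix.sub_apply, Matrix.smul_apply,
      smul_eq_mul, Polynomial.coe_evalRingHom, eval_sub, eval_mul, eval_X, zero_mul, zero_sub,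
      Matrix.neg_apply, Matrix.one_apply]
    split <;> simp
  rw [h2, det_neg, det_one, mul_one] at h1
  exact (pow_ne_zero _ (neg_ne_zero.mpr one_ne_zero)) h1

open Classical in
/-- the case `π = 1` -/
theorem block_res_one {m n : Type} [Fintype m] [DecidableEq m] [Fintype n] [DecidableEq n] {K Γ : Type}
    [Field K] [IsAlgClosed K] [LinearOrderedCommGroupWithZero Γ] (v : Valuation K Γ)
    (A Ai : Matrix m m K) (B : Matrix m n K) (C' : Matrix n m K) (E : Matrix n n K) (G0 : Matrix m m ℤ)
    (hA : A * Ai = 1) (hG : ∀ i j, v (Ai i j - (G0 i j : K)) < 1)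
    (hB : ∀ i j, v ((Ai * B) i j) < 1) (hC : ∀ i j, v ((C' * Ai) i j) < 1)
    (hE : ∀ i j, v ((E - C' * Ai * B) i j) < 1)
    (x : IsLocalRing.ResidueField v.valuationSubring) (hx : x ≠ 0) :
    Multiset.card ((fromBlocks A B C' E).charpoly.roots.filter
      fun r => ∃ h : r ∈ v.valuationSubring, IsLocalRing.residue v.valuationSubring ⟨r, h⟩ = x) =
    ((X : Polynomial (IsLocalRing.ResidueField v.valuationSubring)) •
      (G0.map (Int.cast : ℤ → IsLocalRing.ResidueField v.valuationSubring)).map C - 1 :
      Matrix m m (Polynomial (IsLocalRing.ResidueField v.valuationSubring))).det.rootMultiplicity x := by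
  have hA' : Ai * A = 1 := mul_eq_one_comm.mp hA
  have hGi : ∀ i j, v (Ai i j) ≤ 1 := fun i j =>
    (Valuation.mem_valuationSubring_iff v _).mp (db_mem v (hG i j))
  set P : Matrix n m K := C' * Ai with hPd
  set Q : Matrix m n K := Ai * B with hQd
  set S : Matrix n n K := E - C' * Ai * B with hSd
  set W : Matrix (m ⊕ n) (m ⊕ n) K := fromBlocks Ai (-(Ai * Q)) (-P) (1 + P * Q) with hW
  set V : Matrix (m ⊕ n) (m ⊕ n) K := fromBlocks 1 0 0 S with hV
  -- the basic identity
  set L : Matrix (m ⊕ n) (m ⊕ n) K := fromBlocks 1 0 (-P) 1 with hL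
  set U : Matrix (m ⊕ n) (m ⊕ n) K := fromBlocks 1 (-Q) 0 1 with hU
  set F : Matrix (m ⊕ n) (m ⊕ n) K := fromBlocks Ai 0 0 1 with hF
  set M : Matrix (m ⊕ n) (m ⊕ n) K := fromBlocks A B C' E with hM
  have hFLU : F * L * U = W := by
    rw [hF, hL, hU, hW, fromBlocks_multiply, fromBlocks_multiply]
    simp only [Matrix.mul_one, Matrix.zero_mul, Matrix.mul_zero, add_zero, Matrix.one_mul, zero_add,
      Matrix.mul_neg, Matrix.neg_mul, neg_neg, neg_zero]
    rw [add_comm (P * Q) 1]
  have hFLMU : F * L * M * U = V := by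
    rw [hF, hL, hU, hM, hV, fromBlocks_multiply, fromBlocks_multiply, fromBlocks_multiply]
    simp only [Matrix.mul_one, Matrix.zero_mul, Matrix.mul_zero, add_zero, Matrix.one_mul, zero_add]
    have e1 : Ai * A = 1 := hA'
    have e2 : -P * A + C' = 0 := by
      rw [hPd, Matrix.neg_mul, Matrix.mul_assoc, hA', Matrix.mul_one, neg_add_cancel]
    have e3 : Ai * A * -Q + Ai * B = 0 := by
      rw [hA', Matrix.one_mul, neg_add_cancel]
    have e4 : (-P * A + C') * -Q + (-P * B + E) = S := by
      rw [e2, Matrix.zero_mul, zero_add, hSd, hPd, Matrix.neg_mul, neg_add_eq_sub]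
    rw [e2] at e4
    rw [e1, e2, e4]
    rw [hA'] at e3
    rw [e3]
  have hdet : ((X : Polynomial K) • W.map C - V.map C : Matrix (m ⊕ n) (m ⊕ n) (Polynomial K)).det =
      C Ai.det * M.charpoly := by
    have h1 : ((X : Polynomial K) • W.map C - V.map C : Matrix (m ⊕ n) (m ⊕ n) (Polynomial K)) =
        C.mapMatrix F * C.mapMatrix L * M.charmatrix * C.mapMatrix U := by
      rw [Matrix.charmatrix, ← hFLU, ← hFLMU, Matrix.mul_sub, Matrix.sub_mul]
      congr 1
      · have h2 : (C.mapMatrix F * C.mapMatrix L : Matrix (m ⊕ n) (m ⊕ n) (Polynomial K)) *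
            Matrix.scalar (m ⊕ n) X = (X : Polynomial K) • (C.mapMatrix F * C.mapMatrix L) := by
          ext1 i j
          simp [Matrix.scalar_apply, Matrix.mul_diagonal, mul_comm]
        rw [h2, Matrix.smul_mul, ← map_mul, ← map_mul]
        rfl
      · rw [← map_mul, ← map_mul, ← map_mul]
        rfl
    rw [h1, Matrix.det_mul, Matrix.det_mul, Matrix.det_mul, ← RingHom.map_det, ← RingHom.map_det,
      ← RingHom.map_det, hF, hL, hU, det_fromBlocks_zero₁₂, det_fromBlocks_zero₁₂,
      det_fromBlocks_zero₂₁, det_one, det_one]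
    simp only [mul_one, map_one]
    rfl
  have hdet0 : C Ai.det ≠ (0 : Polynomial K) := by
    have h1 : Ai.det ≠ 0 := by
      intro h
      have h2 := congrArg Matrix.det hA
      rw [Matrix.det_mul, h, mul_zero, det_one] at h2
      exact zero_ne_one h2
    rw [Ne, C_eq_zero]
    exact h1
  have hP0 : C Ai.det * M.charpoly ≠ 0 := mul_ne_zero hdet0 (charpoly_monic M).ne_zero
  -- the reduction
  have hred := db_red (n := n) G0 (k := IsLocalRing.ResidueField v.valuationSubring)
  have hr0 := db_red0 G0 (k := IsLocalRing.ResidueField v.valuationSubring)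
  have hPv : ∀ i j, v (P i j) < 1 := hC
  have hQv : ∀ i j, v (Q i j) < 1 := hB
  have main := pencil_res v W V (fromBlocks G0 0 0 1) (fromBlocks 1 0 0 0) (by
      intro i j
      rw [hW]
      rcases i with i | i <;> rcases j with j | j
      · simpa using hG i j
      · simp only [fromBlocks_apply₁₂, Matrix.zero_apply, Int.cast_zero, sub_zero, Matrix.neg_apply,
          Valuation.map_neg]
        exact db_val_one v _ _ hGi hQv i j
      · simp only [fromBlocks_apply₂₁, Matrix.zero_apply, Int.cast_zero, sub_zero, Matrix.neg_apply,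
          Valuation.map_neg]
        exact hPv i j
      · simp only [fromBlocks_apply₂₂, Matrix.add_apply]
        have h1 : (((1 : Matrix n n ℤ) i j : ℤ) : K) = (1 : Matrix n n K) i j := by
          simp only [Matrix.one_apply]
          split <;> simp
        rw [h1, add_sub_cancel_left]
        exact db_val_one v _ _ (fun i j => (hPv i j).le) hQv i j) (by
      intro i j
      rw [hV]
      rcases i with i | i <;> rcases j with j | j
      · simp only [fromBlocks_apply₁₁]
        have h1 : (((1 : Matrix m m ℤ) i j : ℤ) : K) = (1 : Matrix m m K) i j := by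
          simp only [Matrix.one_apply]
          split <;> simp
        rw [h1, sub_self, map_zero]
        exact zero_lt_one
      · simp
      · simp
      · simpa using hE i j) _ hP0 hdet (by
      rw [hred]
      exact mul_ne_zero hr0 (pow_ne_zero _ X_ne_zero)) x
  rw [hred, roots_C_mul _ (by rw [Ne, ← C_eq_zero]; exact hdet0)] at main
  rw [← main, rootMultiplicity_mul (mul_ne_zero hr0 (pow_ne_zero _ X_ne_zero))]
  have h5 : rootMultiplicity x ((X : Polynomial (IsLocalRing.ResidueField v.valuationSubring)) ^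
      Fintype.card n) = 0 := by
    rw [rootMultiplicity_eq_zero_iff]
    intro h
    rw [IsRoot.def, eval_pow, eval_X] at h
    exact absurd h (pow_ne_zero _ hx)
  rw [h5, add_zero]

/-- scaling a matrix -/
theorem charpoly_scale {ι K : Type} [Fintype ι] [DecidableEq ι] [Field K] (M : Matrix ι ι K) (π : K)
    (hπ : π ≠ 0) : (π⁻¹ • M).charpoly.roots = M.charpoly.roots.map (fun r => r / π) := by
  have h1 : M.charpoly.comp (C π * X + C 0) = C (π ^ Fintype.card ι) * (π⁻¹ • M).charpoly := by
    rw [C_0, add_zero, Matrix.charpoly, Matrix.charpoly, ← Polynomial.coe_compRingHom_apply,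
      RingHom.map_det, C_pow, ← Matrix.det_smul]
    congr 1
    ext1 i j
    rw [RingHom.mapMatrix_apply, Matrix.map_apply, Matrix.smul_apply, smul_eq_mul,
      Matrix.charmatrix_apply, Matrix.charmatrix_apply, Matrix.smul_apply, smul_eq_mul,
      Polynomial.coe_compRingHom_apply]
    have h2 : (C π * C π⁻¹ : Polynomial K) = 1 := by
      rw [← C_mul, mul_inv_cancel₀ hπ, C_1]
    rw [C_mul]
    by_cases h : i = j
    · subst h
      simp only [Matrix.diagonal_apply_eq, sub_comp, X_comp, C_comp]
      linear_combination (C (M i i)) * h2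
    · simp only [Matrix.diagonal_apply_ne _ h, sub_comp, zero_comp, C_comp]
      linear_combination (C (M i j)) * h2
  have h3 := map_roots_comp_C_mul_X_add_C M.charpoly π 0 (IsUnit.mk0 π hπ)
  rw [h1, roots_C_mul _ (pow_ne_zero _ hπ)] at h3
  rw [← h3, Multiset.map_map]
  conv_lhs => rw [← Multiset.map_id ((π⁻¹ • M).charpoly.roots)]
  apply Multiset.map_congr rfl
  intro a _
  simp only [Function.comp_apply, id_eq, add_zero]
  field_simp

open Classical in
/-- the eigenvalues of the size of `π` -/
theorem block_res0 {m n : Type} [Fintype m] [DecidableEq m] [Fintype n] [DecidableEq n] {K Γ : Type}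
    [Field K] [IsAlgClosed K] [LinearOrderedCommGroupWithZero Γ] (v : Valuation K Γ) (π : K) (hπ : π ≠ 0)
    (A Ai : Matrix m m K) (B : Matrix m n K) (C' : Matrix n m K) (E : Matrix n n K) (G0 : Matrix m m ℤ)
    (hA : A * Ai = 1) (hG : ∀ i j, v (π * Ai i j - (G0 i j : K)) < 1)
    (hB : ∀ i j, v ((Ai * B) i j) < 1) (hC : ∀ i j, v ((C' * Ai) i j) < 1)
    (hE : ∀ i j, v ((E - C' * Ai * B) i j) < v π)
    (x : IsLocalRing.ResidueField v.valuationSubring) (hx : x ≠ 0) :
    Multiset.card ((fromBlocks A B C' E).charpoly.roots.filter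
      fun r => ∃ h : r / π ∈ v.valuationSubring,
        IsLocalRing.residue v.valuationSubring ⟨r / π, h⟩ = x) =
    ((X : Polynomial (IsLocalRing.ResidueField v.valuationSubring)) •
      (G0.map (Int.cast : ℤ → IsLocalRing.ResidueField v.valuationSubring)).map C - 1 :
      Matrix m m (Polynomial (IsLocalRing.ResidueField v.valuationSubring))).det.rootMultiplicity x := by
  have e1 : (π⁻¹ • A) * (π • Ai) = 1 := by
    rw [Matrix.smul_mul, Matrix.mul_smul, smul_smul, inv_mul_cancel₀ hπ, one_smul, hA]
  have e2 : (π • Ai) * (π⁻¹ • B) = Ai * B := by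
    rw [Matrix.smul_mul, Matrix.mul_smul, smul_smul, mul_inv_cancel₀ hπ, one_smul]
  have e3 : (π⁻¹ • C') * (π • Ai) = C' * Ai := by
    rw [Matrix.smul_mul, Matrix.mul_smul, smul_smul, inv_mul_cancel₀ hπ, one_smul]
  have e4 : π⁻¹ • E - (π⁻¹ • C') * (π • Ai) * (π⁻¹ • B) = π⁻¹ • (E - C' * Ai * B) := by
    rw [e3, Matrix.mul_smul, smul_sub]
  have h := block_res_one v (π⁻¹ • A) (π • Ai) (π⁻¹ • B) (π⁻¹ • C') (π⁻¹ • E) G0 e1
    (fun i j => hG i j) (fun i j => by rw [e2]; exact hB i j) (fun i j => by rw [e3]; exact hC i j)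
    (fun i j => by
      rw [e4, Matrix.smul_apply, smul_eq_mul, map_mul, map_inv₀]
      have hv : v π ≠ 0 := (Valuation.ne_zero_iff v).2 hπ
      have h1 := hE i j
      calc (v π)⁻¹ * v ((E - C' * Ai * B) i j) < (v π)⁻¹ * v π :=
            mul_lt_mul_of_pos_left h1 (by
              rw [zero_lt_iff]
              exact inv_ne_zero hv)
        _ = 1 := inv_mul_cancel₀ hv) x hx
  rw [← h, ← fromBlocks_smul, charpoly_scale _ π hπ, Multiset.filter_map, Multiset.card_map]
  rfl

end MT2
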