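import Pool.Agent.Lib_MP_bfd926_dd.DDefs
import Pool.Agent.Lib_MP_bfd926_dd.DBlock0

/-!
# The roots at a block

`block_res0` (helper40) in terms of `nres` and `resPoly`.
-/

open Matrix

namespace MT2

theorem block_res {m n : Type} [Fintype m] [DecidableEq m] [Fintype n] [DecidableEq n]
    {K Γ : Type} [Field K] [IsAlgClosed K] [LinearOrderedCommGroupWithZero Γ]
    (v : Valuation K Γ) (π : K) (hπ : π ≠ 0) (A Ai : Matrix m m K) (B : Matrix m n K)
    (C' : Matrix n m K) (E : Matrix n n K) (G0 : Matrix m m ℤ) (hA : A * Ai = 1)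
    (hG : ∀ i j, v (π * Ai i j - (G0 i j : K)) < 1) (hB : ∀ i j, v ((Ai * B) i j) < 1)
    (hC : ∀ i j, v ((C' * Ai) i j) < 1) (hE : ∀ i j, v ((E - C' * Ai * B) i j) < v π)
    (x : IsLocalRing.ResidueField v.valuationSubring) (hx : x ≠ 0) :
    nres v (fromBlocks A B C' E).charpoly.roots π x =
      (resPoly (IsLocalRing.ResidueField v.valuationSubring) G0).rootMultiplicity x := by
  classical
  have h := block_res0 v π hπ A Ai B C' E G0 hA hG hB hC hE x hx
  have e : resPoly (IsLocalRing.ResidueField v.valuationSubring) G0 =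
      ((Polynomial.X : Polynomial (IsLocalRing.ResidueField v.valuationSubring)) •
        (G0.map (Int.cast : ℤ → IsLocalRing.ResidueField v.valuationSubring)).map Polynomial.C - 1 :
        Matrix m m (Polynomial (IsLocalRing.ResidueField v.valuationSubring))).det := by
    unfold resPoly
    congr 1
  rw [e, ← h]
  unfold nres
  rfl

end MT2
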