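import Pool.Agent.Lib_MP_bfd926_dd.DDefs

/-!
# Sums of the excesses, and comparison of valuations

`val_ge`: `v₂(2 q - ν) ≤ v₂(ν) + dl ν`: if `v₂(2 q - ν) ≤ a + 1` then, as `2 ^ (a + 1) ∣ 2 * q`, the power
`2 ^ v₂(2 q - ν)` divides `ν`; otherwise `2 ^ (a + 1)` divides `2 * q - ν` and `2 * q`, so `ν`. The same for
`4 q - ν` (`val_ge4`), `4 q - 3 ν` (`val_ge43`), `8 q - 3 ν` (`val_ge83`).
`val_eq…`: equality if `2 ^ (a + 1)` does not divide `ν`.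
Useful: `padicValNat_dvd_iff_le`, `Nat.dvd_sub`, `padicValNat.pow_dvd…`.
-/

namespace MT2

private theorem DSd_ge {q a ν B : ℕ} (ha : 2 ^ a ∣ q) (h2 : ν < 2 * q) (hB : B ≠ 0)
    (h : ∀ m, m ∣ 2 * q → m ∣ ν → m ∣ B) :
    padicValNat 2 (2 * q - ν) ≤ padicValNat 2 B + dl q a ν := by
  haveI : Fact (Nat.Prime 2) := ⟨Nat.prime_two⟩
  have hA : 2 * q - ν ≠ 0 := by omega
  have h3 : 2 ^ (a + 1) ∣ 2 * q := by
    rw [pow_succ, mul_comm]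
    exact Nat.mul_dvd_mul_left 2 ha
  have h4 : 2 ^ min (padicValNat 2 (2 * q - ν)) (a + 1) ∣ B := by
    have h5 : 2 ^ min (padicValNat 2 (2 * q - ν)) (a + 1) ∣ 2 * q :=
      (pow_dvd_pow 2 (min_le_right _ _)).trans h3
    have h6 : 2 ^ min (padicValNat 2 (2 * q - ν)) (a + 1) ∣ 2 * q - ν :=
      (padicValNat_dvd_iff_le hA).2 (min_le_left _ _)
    refine h _ h5 ?_
    have h7 := Nat.dvd_sub h5 h6
    have h8 : 2 * q - (2 * q - ν) = ν := by omega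
    rwa [h8] at h7
  have h9 := (padicValNat_dvd_iff_le hB).1 h4
  unfold dl
  omega

private theorem DSd_eq {q a ν B : ℕ} (ha : 2 ^ a ∣ q) (hν : ν ≠ 0) (hB : B ≠ 0)
    (h3 : ¬ 2 ^ (a + 1) ∣ ν) (h : ∀ m, m ∣ 2 * q → m ∣ ν → m ∣ B)
    (h' : ∀ k, 2 ^ k ∣ 2 * q → 2 ^ k ∣ B → 2 ^ k ∣ ν) :
    padicValNat 2 B = padicValNat 2 ν := by
  haveI : Fact (Nat.Prime 2) := ⟨Nat.prime_two⟩
  have h4 : 2 ^ (a + 1) ∣ 2 * q := by
    rw [pow_succ, mul_comm]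
    exact Nat.mul_dvd_mul_left 2 ha
  have h5 : padicValNat 2 ν < a + 1 := by
    by_contra hcon
    exact h3 ((padicValNat_dvd_iff_le hν).2 (by omega))
  refine le_antisymm ?_ ?_
  · by_contra hcon
    have h6 : 2 ^ (padicValNat 2 ν + 1) ∣ B := (padicValNat_dvd_iff_le hB).2 (by omega)
    have h7 : 2 ^ (padicValNat 2 ν + 1) ∣ 2 * q := (pow_dvd_pow 2 (by omega)).trans h4
    have h8 := (padicValNat_dvd_iff_le hν).1 (h' _ h7 h6)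
    omega
  · have h6 : 2 ^ (padicValNat 2 ν) ∣ ν := (padicValNat_dvd_iff_le hν).2 le_rfl
    have h7 : 2 ^ (padicValNat 2 ν) ∣ 2 * q := (pow_dvd_pow 2 (by omega)).trans h4
    exact (padicValNat_dvd_iff_le hB).1 (h _ h7 h6)

private theorem DSd_three {k n : ℕ} (h : 2 ^ k ∣ 3 * n) : 2 ^ k ∣ n := by
  have h1 : Nat.Coprime (2 ^ k) 3 := Nat.Coprime.pow_left k (by norm_num)
  exact h1.dvd_of_dvd_mul_left h

theorem dl_odd {q a ν : ℕ} (hν : ν < 2 * q) (h : ¬ Even ν) : dl q a ν = 0 := by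
  have h1 : ¬ 2 ∣ (2 * q - ν) := by
    rw [Nat.even_iff] at h
    omega
  unfold dl
  rw [padicValNat.eq_zero_of_not_dvd h1]
  omega

theorem Sd_self (q a x : ℕ) : Sd q a x x = 0 := by
  simp [Sd]

theorem Sd_add {q a x y z : ℕ} (h1 : x ≤ y) (h2 : y ≤ z) :
    Sd q a x y + Sd q a y z = Sd q a x z := by
  unfold Sd
  exact Finset.sum_Ioc_consecutive _ h1 h2

theorem Sd_succ {q a x y : ℕ} (h : x ≤ y) : Sd q a x (y + 1) = Sd q a x y + dl q a (y + 1) := by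
  unfold Sd
  exact Finset.sum_Ioc_succ_top h _

theorem Sd_mono {q a x y x' y' : ℕ} (h1 : x' ≤ x) (h2 : y ≤ y') : Sd q a x y ≤ Sd q a x' y' := by
  unfold Sd
  exact Finset.sum_le_sum_of_subset (Finset.Ioc_subset_Ioc h1 h2)

/-- The even `ν = 2 * μ`. -/
theorem dl_two {q a μ : ℕ} (h : μ < q) : dl q a (2 * μ) = padicValNat 2 (q - μ) - a := by
  haveI : Fact (Nat.Prime 2) := ⟨Nat.prime_two⟩
  have h1 : 2 * q - 2 * μ = 2 * (q - μ) := by omega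
  have h2 : q - μ ≠ 0 := by omega
  unfold dl
  rw [h1, padicValNat.mul two_ne_zero h2, padicValNat.self (by norm_num)]
  omega

theorem Sd_half {q a x y : ℕ} (hy : y < 2 * q) :
    Sd q a x y = ∑ μ ∈ Finset.Ioc (x / 2) (y / 2), dl q a (2 * μ) := by
  unfold Sd
  have h1 : ∑ μ ∈ Finset.Ioc (x / 2) (y / 2), dl q a (2 * μ) =
      ∑ ν ∈ (Finset.Ioc (x / 2) (y / 2)).image (fun μ => 2 * μ), dl q a ν := by
    rw [Finset.sum_image]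
    intro i _ j _ hij
    have hij' : 2 * i = 2 * j := hij
    omega
  rw [h1]
  symm
  refine Finset.sum_subset ?_ ?_
  · intro ν hν
    rw [Finset.mem_image] at hν
    obtain ⟨μ, hμ, rfl⟩ := hν
    rw [Finset.mem_Ioc] at hμ ⊢
    omega
  · intro ν hν hn
    rw [Finset.mem_Ioc] at hν
    refine dl_odd (by omega) ?_
    intro he
    apply hn
    rw [Nat.even_iff] at he
    rw [Finset.mem_image]
    refine ⟨ν / 2, ?_, by omega⟩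
    rw [Finset.mem_Ioc]
    omega

theorem val_ge {q a ν : ℕ} (ha : 2 ^ a ∣ q) (h1 : 1 ≤ ν) (h2 : ν < 2 * q) :
    padicValNat 2 (2 * q - ν) ≤ padicValNat 2 ν + dl q a ν :=
  DSd_ge ha h2 (by omega) fun _ _ h => h

theorem val_ge4 {q a ν : ℕ} (ha : 2 ^ a ∣ q) (h1 : 1 ≤ ν) (h2 : ν < 2 * q) :
    padicValNat 2 (2 * q - ν) ≤ padicValNat 2 (4 * q - ν) + dl q a ν := by
  refine DSd_ge ha h2 (by omega) fun m hm1 hm2 => ?_
  have h3 : 4 * q = 2 * (2 * q) := by ring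
  rw [h3]
  exact Nat.dvd_sub (Dvd.dvd.mul_left hm1 2) hm2

theorem val_ge43 {q a ν : ℕ} (ha : 2 ^ a ∣ q) (h1 : 1 ≤ ν) (h2 : 3 * ν < 4 * q) :
    padicValNat 2 (2 * q - ν) ≤ padicValNat 2 (4 * q - 3 * ν) + dl q a ν := by
  refine DSd_ge ha (by omega) (by omega) fun m hm1 hm2 => ?_
  have h3 : 4 * q = 2 * (2 * q) := by ring
  rw [h3]
  exact Nat.dvd_sub (Dvd.dvd.mul_left hm1 2) (Dvd.dvd.mul_left hm2 3)

theorem val_ge83 {q a ν : ℕ} (ha : 2 ^ a ∣ q) (h1 : 1 ≤ ν) (h2 : 3 * ν < 4 * q) :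
    padicValNat 2 (2 * q - ν) ≤ padicValNat 2 (8 * q - 3 * ν) + dl q a ν := by
  refine DSd_ge ha (by omega) (by omega) fun m hm1 hm2 => ?_
  have h3 : 8 * q = 4 * (2 * q) := by ring
  rw [h3]
  exact Nat.dvd_sub (Dvd.dvd.mul_left hm1 4) (Dvd.dvd.mul_left hm2 3)

theorem val_eq {q a ν : ℕ} (ha : 2 ^ a ∣ q) (h1 : 1 ≤ ν) (h2 : ν < 2 * q)
    (h3 : ¬ 2 ^ (a + 1) ∣ ν) : padicValNat 2 (2 * q - ν) = padicValNat 2 ν := by
  refine DSd_eq ha (by omega) (by omega) h3 (fun m hm1 hm2 => Nat.dvd_sub hm1 hm2) ?_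
  intro k hk1 hk2
  have h4 := Nat.dvd_sub hk1 hk2
  have h5 : 2 * q - (2 * q - ν) = ν := by omega
  rwa [h5] at h4

theorem val_eq4 {q a ν : ℕ} (ha : 2 ^ a ∣ q) (h1 : 1 ≤ ν) (h2 : ν < 2 * q)
    (h3 : ¬ 2 ^ (a + 1) ∣ ν) : padicValNat 2 (4 * q - ν) = padicValNat 2 ν := by
  have h6 : ∀ m, m ∣ 2 * q → m ∣ 4 * q := fun m hm => by
    have h7 : 4 * q = 2 * (2 * q) := by ring
    rw [h7]
    exact Dvd.dvd.mul_left hm 2
  refine DSd_eq ha (by omega) (by omega) h3 (fun m hm1 hm2 => Nat.dvd_sub (h6 m hm1) hm2) ?_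
  intro k hk1 hk2
  have h4 := Nat.dvd_sub (h6 _ hk1) hk2
  have h5 : 4 * q - (4 * q - ν) = ν := by omega
  rwa [h5] at h4

theorem val_eq43 {q a ν : ℕ} (ha : 2 ^ a ∣ q) (h1 : 1 ≤ ν) (h2 : 3 * ν < 4 * q)
    (h3 : ¬ 2 ^ (a + 1) ∣ ν) : padicValNat 2 (4 * q - 3 * ν) = padicValNat 2 ν := by
  have h6 : ∀ m, m ∣ 2 * q → m ∣ 4 * q := fun m hm => by
    have h7 : 4 * q = 2 * (2 * q) := by ring
    rw [h7]
    exact Dvd.dvd.mul_left hm 2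
  refine DSd_eq ha (by omega) (by omega) h3
    (fun m hm1 hm2 => Nat.dvd_sub (h6 m hm1) (Dvd.dvd.mul_left hm2 3)) ?_
  intro k hk1 hk2
  have h4 := Nat.dvd_sub (h6 _ hk1) hk2
  have h5 : 4 * q - (4 * q - 3 * ν) = 3 * ν := by omega
  rw [h5] at h4
  exact DSd_three h4

theorem val_eq83 {q a ν : ℕ} (ha : 2 ^ a ∣ q) (h1 : 1 ≤ ν) (h2 : 3 * ν < 4 * q)
    (h3 : ¬ 2 ^ (a + 1) ∣ ν) : padicValNat 2 (8 * q - 3 * ν) = padicValNat 2 ν := by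
  have h6 : ∀ m, m ∣ 2 * q → m ∣ 8 * q := fun m hm => by
    have h7 : 8 * q = 4 * (2 * q) := by ring
    rw [h7]
    exact Dvd.dvd.mul_left hm 4
  refine DSd_eq ha (by omega) (by omega) h3
    (fun m hm1 hm2 => Nat.dvd_sub (h6 m hm1) (Dvd.dvd.mul_left hm2 3)) ?_
  intro k hk1 hk2
  have h4 := Nat.dvd_sub (h6 _ hk1) hk2
  have h5 : 8 * q - (8 * q - 3 * ν) = 3 * ν := by omega
  rw [h5] at h4
  exact DSd_three h4

end MT2
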