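import Pool.Agent.Lib_MP_bfd926_dd.DRise
import Pool.Agent.Lib_MP_bfd926_dd.DSd

/-!
# The number of the good `c`

Let `δ μ = dl q a (2 μ) = v₂(q - μ) - a` (`dl_two`), `N' = N / 2`, `D' = D / 2 < q`; `c = 2 c'`, `1 ≤ c' ≤ N'`. If `2 c'` is not
good then one of the following holds:
(i) `2 ^ a ∣ c'`, `δ c' = 0`: then `2 ^ a ∣ q - c'`, not `2 ^ (a + 1)`: `card_exact` (at most `N' / 2 ^ (a + 1) + 1`);
(ii) `Good.left` fails for some `x < c` (or `2 ^ a ∣ c'`, `δ c' ≥ 1`: take `x = c - 1`): by `Sd_half` with `u = c' - x / 2 ≥ 1`,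
`c - x ≥ 2 u - 1`: `∑ μ ∈ Ioc (c' - u) c', δ μ ≥ 2 u - 1 ≥ 1`, so `∑ (δ μ + (if δ μ = 0 then 0 else 1)) ≥ 2 u`: `rise_left`;
(iii) `Good.right` fails for some `y`: `u = y / 2 - c' ≥ 1`, `∑ μ ∈ Ioc c' (y / 2), δ μ ≥ y - c ≥ 2 u`: `rise_right` with `D'`.
`#{μ | δ μ ≠ 0} = #{μ | 2 ^ (a + 1) ∣ q - μ}`: `card_dvd`. `sum_excess`. So
`2 #bad ≤ 2 (D' / 2 ^ (a + 1) + 1) + (D' / 2 ^ a + L) + (D' / 2 ^ (a + 1) + 1) + (D' / 2 ^ a + L)`, i. e.
`2 ^ (a + 2) #bad ≤ 7 D' + 2 ^ (a + 1) (2 L + 3)`, and `#good ≥ N' - #bad`, `2 N' ≥ N - 1`.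
-/

namespace MT2

/-- The weight of `rise_left`. -/
private def DCount_f (q a μ : ℕ) : ℕ := dl q a (2 * μ) + (if dl q a (2 * μ) = 0 then 0 else 1)

/-- The sum of the excesses of the even numbers. -/
private theorem DCount_sum {q a M : ℕ} (hM : M < q) :
    2 ^ a * ∑ μ ∈ Finset.Icc 1 M, dl q a (2 * μ) ≤ M + 2 ^ a * Nat.log 2 q := by
  have h1 : ∑ μ ∈ Finset.Icc 1 M, dl q a (2 * μ) =
      ∑ μ ∈ Finset.Icc 1 M, (padicValNat 2 (q - μ) - a) := by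
    refine Finset.sum_congr rfl fun μ hμ => ?_
    rw [Finset.mem_Icc] at hμ
    exact dl_two (by omega)
  rw [h1]
  exact sum_excess hM

/-- The number of the nonzero excesses. -/
private theorem DCount_ne {q a M : ℕ} (hM : M < q) :
    ∑ μ ∈ Finset.Icc 1 M, (if dl q a (2 * μ) = 0 then 0 else 1) ≤ M / 2 ^ (a + 1) + 1 := by
  classical
  haveI : Fact (Nat.Prime 2) := ⟨Nat.prime_two⟩
  have h1 : ∑ μ ∈ Finset.Icc 1 M, (if dl q a (2 * μ) = 0 then 0 else 1) ≤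
      ∑ μ ∈ Finset.Icc 1 M, (if 2 ^ (a + 1) ∣ q - μ then 1 else 0) := by
    refine Finset.sum_le_sum fun μ hμ => ?_
    rw [Finset.mem_Icc] at hμ
    by_cases h : dl q a (2 * μ) = 0
    · rw [if_pos h]
      exact Nat.zero_le _
    · rw [if_neg h, if_pos]
      rw [dl_two (by omega)] at h
      refine (padicValNat_dvd_iff_le (by omega)).2 ?_
      omega
  refine h1.trans ?_
  rw [← Finset.card_filter]
  exact card_dvd hM

private theorem DCount_fsum {q a M : ℕ} (hM : M < q) :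
    2 ^ (a + 1) * ∑ μ ∈ Finset.Icc 1 M, DCount_f q a μ ≤
      3 * M + 2 ^ (a + 1) * (Nat.log 2 q + 1) := by
  have h1 := DCount_sum (a := a) hM
  have h2 := DCount_ne (a := a) hM
  have h3 : ∑ μ ∈ Finset.Icc 1 M, DCount_f q a μ = ∑ μ ∈ Finset.Icc 1 M, dl q a (2 * μ) +
      ∑ μ ∈ Finset.Icc 1 M, (if dl q a (2 * μ) = 0 then 0 else 1) := by
    rw [← Finset.sum_add_distrib]
    rfl
  have h4 : 2 ^ (a + 1) * (M / 2 ^ (a + 1)) ≤ M := Nat.mul_div_le _ _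
  rw [h3]
  generalize ∑ μ ∈ Finset.Icc 1 M, dl q a (2 * μ) = S at h1 ⊢
  generalize ∑ μ ∈ Finset.Icc 1 M, (if dl q a (2 * μ) = 0 then 0 else 1) = T at h2 ⊢
  have h5 : 2 ^ (a + 1) * T ≤ 2 ^ (a + 1) * (M / 2 ^ (a + 1) + 1) := Nat.mul_le_mul_left _ h2
  have h6 : 2 ^ (a + 1) = 2 * 2 ^ a := by rw [pow_succ]; ring
  have h7 : 2 ^ (a + 1) * S = 2 * (2 ^ a * S) := by rw [h6]; ring
  calc 2 ^ (a + 1) * (S + T) = 2 * (2 ^ a * S) + 2 ^ (a + 1) * T := by rw [mul_add, h7]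
    _ ≤ 2 * (M + 2 ^ a * Nat.log 2 q) + (2 ^ (a + 1) * (M / 2 ^ (a + 1)) + 2 ^ (a + 1)) := by
        refine Nat.add_le_add (Nat.mul_le_mul_left 2 h1) (h5.trans (le_of_eq ?_))
        ring
    _ ≤ 2 * (M + 2 ^ a * Nat.log 2 q) + (M + 2 ^ (a + 1)) := by omega
    _ = 3 * M + 2 ^ (a + 1) * (Nat.log 2 q + 1) := by rw [h6]; ring

/-- A failure on the left. -/
private theorem DCount_left {q a c x : ℕ} (hc : 2 * c < 2 * q) (hx : x < 2 * c)
    (h : 2 * c - x ≤ Sd q a x (2 * c)) : ∃ u, 1 ≤ u ∧ u ≤ c ∧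
      2 * u ≤ ∑ μ ∈ Finset.Ioc (c - u) c, DCount_f q a μ := by
  refine ⟨c - x / 2, by omega, by omega, ?_⟩
  rw [Sd_half hc] at h
  have h1 : 2 * c / 2 = c := by omega
  rw [h1] at h
  have h2 : c - (c - x / 2) = x / 2 := by omega
  rw [h2]
  have h3 : ∑ μ ∈ Finset.Ioc (x / 2) c, DCount_f q a μ =
      ∑ μ ∈ Finset.Ioc (x / 2) c, dl q a (2 * μ) +
      ∑ μ ∈ Finset.Ioc (x / 2) c, (if dl q a (2 * μ) = 0 then 0 else 1) := by
    rw [← Finset.sum_add_distrib]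
    rfl
  have h4 : 1 ≤ ∑ μ ∈ Finset.Ioc (x / 2) c, (if dl q a (2 * μ) = 0 then 0 else 1) := by
    by_contra hcon
    have h5 : ∑ μ ∈ Finset.Ioc (x / 2) c, (if dl q a (2 * μ) = 0 then 0 else 1) = 0 := by omega
    rw [Finset.sum_eq_zero_iff] at h5
    have h6 : ∑ μ ∈ Finset.Ioc (x / 2) c, dl q a (2 * μ) = 0 := by
      refine Finset.sum_eq_zero fun μ hμ => ?_
      by_contra hne
      have h7 := h5 μ hμ
      rw [if_neg hne] at h7
      exact one_ne_zero h7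
    omega
  omega

/-- A failure on the right. -/
private theorem DCount_right {q a c y D : ℕ} (hD : D < 2 * q) (hy : 2 * c < y) (hyD : y ≤ D)
    (h : y - 2 * c ≤ Sd q a (2 * c) y) : ∃ z, c < z ∧ z ≤ D / 2 ∧
      2 * (z - c) ≤ ∑ μ ∈ Finset.Ioc c z, dl q a (2 * μ) := by
  rw [Sd_half (by omega)] at h
  have h1 : 2 * c / 2 = c := by omega
  rw [h1] at h
  refine ⟨y / 2, ?_, by omega, by omega⟩
  by_contra hcon
  rw [Finset.Ioc_eq_empty_of_le (by omega), Finset.sum_empty] at h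
  omega

open Classical in
private theorem DCount_bad {q a D M : ℕ} (ha : 2 ^ a ∣ q) (hD : D < 2 * q) (hM : M ≤ D / 2) :
    2 ^ (a + 2) * ((Finset.Icc 1 M).filter fun c => ¬ Good q a D (2 * c)).card ≤
      7 * (D / 2) + 2 ^ (a + 1) * (2 * Nat.log 2 q + 3) := by
  haveI : Fact (Nat.Prime 2) := ⟨Nat.prime_two⟩
  have hMq : M < q := by omega
  have hDq : D / 2 < q := by omega
  set A := (Finset.Icc 1 M).filter fun μ => 2 ^ a ∣ q - μ ∧ ¬ 2 ^ (a + 1) ∣ q - μ with hA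
  set B := (Finset.Icc 1 M).filter fun c => ∃ u, 1 ≤ u ∧ u ≤ c ∧
      2 * u ≤ ∑ μ ∈ Finset.Ioc (c - u) c, DCount_f q a μ with hB
  set C := (Finset.Icc 1 (D / 2)).filter fun c => ∃ y, c < y ∧ y ≤ D / 2 ∧
      2 * (y - c) ≤ ∑ μ ∈ Finset.Ioc c y, dl q a (2 * μ) with hC
  have hsub : ((Finset.Icc 1 M).filter fun c => ¬ Good q a D (2 * c)) ⊆ (A ∪ B) ∪ C := by
    intro c hc
    rw [Finset.mem_filter, Finset.mem_Icc] at hc
    obtain ⟨⟨hc1, hc2⟩, hbad⟩ := hc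
    rw [Finset.mem_union, Finset.mem_union]
    by_cases hl : ∃ x, x < 2 * c ∧ 2 * c - x ≤ Sd q a x (2 * c)
    · obtain ⟨x, hx1, hx2⟩ := hl
      refine Or.inl (Or.inr ?_)
      rw [hB, Finset.mem_filter, Finset.mem_Icc]
      exact ⟨⟨hc1, hc2⟩, DCount_left (by omega) hx1 hx2⟩
    by_cases hr : ∃ y, 2 * c < y ∧ y ≤ D ∧ y - 2 * c ≤ Sd q a (2 * c) y
    · obtain ⟨y, hy1, hy2, hy3⟩ := hr
      refine Or.inr ?_
      rw [hC, Finset.mem_filter, Finset.mem_Icc]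
      exact ⟨⟨hc1, by omega⟩, DCount_right hD hy1 hy2 hy3⟩
    by_cases hd : 2 ^ (a + 1) ∣ 2 * c
    · have hd' : 2 ^ a ∣ c := by
        rw [pow_succ, mul_comm] at hd
        exact Nat.dvd_of_mul_dvd_mul_left (by norm_num) hd
      have hd2 : 2 ^ a ∣ q - c := Nat.dvd_sub ha hd'
      by_cases he : 2 ^ (a + 1) ∣ q - c
      · exfalso
        apply hl
        refine ⟨2 * c - 1, by omega, ?_⟩
        rw [Sd_half (by omega)]
        have h1 : 2 * c / 2 = c := by omega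
        have h2 : (2 * c - 1) / 2 = c - 1 := by omega
        have h3 : Finset.Ioc (c - 1) c = {c} := by
          ext z
          rw [Finset.mem_Ioc, Finset.mem_singleton]
          omega
        rw [h1, h2, h3, Finset.sum_singleton, dl_two (by omega)]
        have h4 := (padicValNat_dvd_iff_le (p := 2) (a := q - c) (by omega)).1 he
        omega
      · refine Or.inl (Or.inl ?_)
        rw [hA, Finset.mem_filter, Finset.mem_Icc]
        exact ⟨⟨hc1, hc2⟩, hd2, he⟩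
    · exfalso
      apply hbad
      refine ⟨even_two_mul c, by omega, hd, ?_, ?_⟩
      · intro x hx
        by_contra hcon
        exact hl ⟨x, hx, by omega⟩
      · intro y hy1 hy2
        by_contra hcon
        exact hr ⟨y, hy1, hy2, by omega⟩
  have hcard : ((Finset.Icc 1 M).filter fun c => ¬ Good q a D (2 * c)).card ≤
      A.card + B.card + C.card := by
    refine (Finset.card_le_card hsub).trans ((Finset.card_union_le _ _).trans ?_)
    exact Nat.add_le_add_right (Finset.card_union_le _ _) _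
  have h1 : A.card ≤ M / 2 ^ (a + 1) + 1 := card_exact hMq
  have h2 : 2 * B.card ≤ ∑ μ ∈ Finset.Icc 1 M, DCount_f q a μ := rise_left _ M
  have h3 : 2 * C.card ≤ ∑ μ ∈ Finset.Icc 1 (D / 2), dl q a (2 * μ) := rise_right _ (D / 2)
  have h4 := DCount_fsum (a := a) hMq
  have h5 := DCount_sum (a := a) hDq
  have h6 : 2 ^ (a + 1) * (M / 2 ^ (a + 1)) ≤ M := Nat.mul_div_le _ _
  have e1 : 2 ^ (a + 1) = 2 * 2 ^ a := by rw [pow_succ]; ring
  have e2 : 2 ^ (a + 2) = 2 * 2 ^ (a + 1) := by rw [pow_succ]; ring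
  have g1 : 2 ^ (a + 2) * A.card ≤ 2 * M + 2 * 2 ^ (a + 1) := by
    calc 2 ^ (a + 2) * A.card ≤ 2 ^ (a + 2) * (M / 2 ^ (a + 1) + 1) := Nat.mul_le_mul_left _ h1
      _ = 2 * (2 ^ (a + 1) * (M / 2 ^ (a + 1))) + 2 * 2 ^ (a + 1) := by rw [e2]; ring
      _ ≤ 2 * M + 2 * 2 ^ (a + 1) := by omega
  have g2 : 2 ^ (a + 2) * B.card ≤ 3 * M + 2 ^ (a + 1) * (Nat.log 2 q + 1) := by
    calc 2 ^ (a + 2) * B.card = 2 ^ (a + 1) * (2 * B.card) := by rw [e2]; ring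
      _ ≤ 2 ^ (a + 1) * ∑ μ ∈ Finset.Icc 1 M, DCount_f q a μ := Nat.mul_le_mul_left _ h2
      _ ≤ _ := h4
  have g3 : 2 ^ (a + 2) * C.card ≤ 2 * (D / 2) + 2 ^ (a + 1) * Nat.log 2 q := by
    calc 2 ^ (a + 2) * C.card = 2 * (2 ^ a * (2 * C.card)) := by rw [e2, e1]; ring
      _ ≤ 2 * (2 ^ a * ∑ μ ∈ Finset.Icc 1 (D / 2), dl q a (2 * μ)) :=
          Nat.mul_le_mul_left 2 (Nat.mul_le_mul_left _ h3)
      _ ≤ 2 * (D / 2 + 2 ^ a * Nat.log 2 q) := Nat.mul_le_mul_left 2 h5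
      _ = 2 * (D / 2) + 2 ^ (a + 1) * Nat.log 2 q := by rw [e1]; ring
  calc 2 ^ (a + 2) * ((Finset.Icc 1 M).filter fun c => ¬ Good q a D (2 * c)).card
      ≤ 2 ^ (a + 2) * (A.card + B.card + C.card) := Nat.mul_le_mul_left _ hcard
    _ = 2 ^ (a + 2) * A.card + 2 ^ (a + 2) * B.card + 2 ^ (a + 2) * C.card := by ring
    _ ≤ (2 * M + 2 * 2 ^ (a + 1)) + (3 * M + 2 ^ (a + 1) * (Nat.log 2 q + 1)) +
        (2 * (D / 2) + 2 ^ (a + 1) * Nat.log 2 q) := Nat.add_le_add (Nat.add_le_add g1 g2) g3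
    _ = (5 * M + 2 * (D / 2)) + 2 ^ (a + 1) * (2 * Nat.log 2 q + 3) := by ring
    _ ≤ 7 * (D / 2) + 2 ^ (a + 1) * (2 * Nat.log 2 q + 3) := by omega

open Classical in
theorem count_goodD {q a D N : ℕ} (ha : 2 ^ a ∣ q) (hD : D < 2 * q) (hN : N ≤ D) :
    2 ^ (a + 2) * N ≤ 2 ^ (a + 3) * ((Finset.Icc 1 N).filter (Good q a D)).card + 7 * D +
      2 ^ (a + 2) * (2 * Nat.log 2 q + 4) := by
  have h1 := DCount_bad (M := N / 2) ha hD (by omega)
  have h2 : ((Finset.Icc 1 (N / 2)).filter fun c => Good q a D (2 * c)).card +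
      ((Finset.Icc 1 (N / 2)).filter fun c => ¬ Good q a D (2 * c)).card = N / 2 := by
    rw [Finset.card_filter_add_card_filter_not]
    simp
  have h3 : ((Finset.Icc 1 (N / 2)).filter fun c => Good q a D (2 * c)).card ≤
      ((Finset.Icc 1 N).filter (Good q a D)).card := by
    refine Finset.card_le_card_of_injOn (fun c => 2 * c) ?_ ?_
    · intro c hc
      have hc' := Finset.mem_coe.1 hc
      rw [Finset.mem_filter, Finset.mem_Icc] at hc'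
      refine Finset.mem_coe.2 (Finset.mem_filter.2 ⟨Finset.mem_Icc.2 ⟨?_, ?_⟩, hc'.2⟩)
      · show 1 ≤ 2 * c
        omega
      · show 2 * c ≤ N
        omega
    · intro c _ d _ h
      have h' : 2 * c = 2 * d := h
      omega
  generalize ((Finset.Icc 1 N).filter (Good q a D)).card = G at h3 ⊢
  generalize ((Finset.Icc 1 (N / 2)).filter fun c => Good q a D (2 * c)).card = G' at h2 h3
  generalize ((Finset.Icc 1 (N / 2)).filter fun c => ¬ Good q a D (2 * c)).card = B at h1 h2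
  have e1 : 2 ^ (a + 2) = 2 * 2 ^ (a + 1) := by rw [pow_succ]; ring
  have e2 : 2 ^ (a + 3) = 2 * 2 ^ (a + 2) := by rw [pow_succ]; ring
  have h4 : N ≤ 2 * G + 2 * B + 1 := by omega
  calc 2 ^ (a + 2) * N ≤ 2 ^ (a + 2) * (2 * G + 2 * B + 1) := Nat.mul_le_mul_left _ h4
    _ = 2 ^ (a + 3) * G + 2 * (2 ^ (a + 2) * B) + 2 ^ (a + 2) := by rw [e2]; ring
    _ ≤ 2 ^ (a + 3) * G + 2 * (7 * (D / 2) + 2 ^ (a + 1) * (2 * Nat.log 2 q + 3)) +
        2 ^ (a + 2) := by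
        exact Nat.add_le_add_right (Nat.add_le_add_left (Nat.mul_le_mul_left 2 h1) _) _
    _ = 2 ^ (a + 3) * G + 7 * (2 * (D / 2)) + 2 ^ (a + 2) * (2 * Nat.log 2 q + 4) := by
        rw [e1]; ring
    _ ≤ 2 ^ (a + 3) * G + 7 * D + 2 ^ (a + 2) * (2 * Nat.log 2 q + 4) := by
        have h5 : 2 * (D / 2) ≤ D := Nat.mul_div_le _ _
        exact Nat.add_le_add_right (Nat.add_le_add_left (Nat.mul_le_mul_left 7 h5) _) _

end MT2
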