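import Pool.Agent.Lib_MP_bfd926_dd.DBlock
import Pool.Agent.Lib_MP_bfd926_sq.SQInv

/-!
# The perturbation of the blocks at a pair

Please copy the proof of `pert` (SQPert; the notation there: `Pi' = W * Pi`, `Δ = (W - 1) * Pi`,
`v (Δ i j) ≤ v 2 ^ (4 c + 2 - 8 L)`). The only changes: `π = 2 ^ M` (an integer exponent), the bounds for the scaled
`Pi` are replaced by `hG` (the scaled `Δ` has entries `≥ M - 4 b + 4 c + 2 - 8 L ≥ 1`), and `block_res` (DBlock) is used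
instead of `block_count`. Note that `hPi2` of `pert` follows from `hG` (`v (G0 i j) ≤ 1`).
-/

open Matrix

namespace MT2

private theorem DPert_mono {Γ : Type} [LinearOrderedCommGroupWithZero Γ] {t : Γ} (h0 : t ≠ 0)
    (h1 : t < 1) {a b : ℤ} (h : a ≤ b) : t ^ b ≤ t ^ a :=
  zpow_le_zpow_right_of_le_one₀ (zero_lt_iff.mpr h0) h1.le h

private theorem DPert_mono' {Γ : Type} [LinearOrderedCommGroupWithZero Γ] {t : Γ} (h0 : t ≠ 0)
    (h1 : t < 1) {a b : ℤ} (h : a < b) : t ^ b < t ^ a :=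
  zpow_lt_zpow_right_of_lt_one₀ (zero_lt_iff.mpr h0) h1 h

private theorem DPert_mul {K Γ : Type} [Field K] [LinearOrderedCommGroupWithZero Γ]
    (v : Valuation K Γ) {t : Γ} (h0 : t ≠ 0) {x y : K} {a b : ℤ} (hx : v x ≤ t ^ a)
    (hy : v y ≤ t ^ b) : v (x * y) ≤ t ^ (a + b) := by
  rw [map_mul, zpow_add₀ h0]
  exact mul_le_mul' hx hy

private theorem DPert_mat {K Γ l m n : Type} [Field K] [LinearOrderedCommGroupWithZero Γ]
    [Fintype m] (v : Valuation K Γ) {t : Γ} (h0 : t ≠ 0) (M : Matrix l m K) (N : Matrix m n K)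
    {a b : ℤ} (i : l) (j : n) (hM : ∀ k, v (M i k) ≤ t ^ a) (hN : ∀ k, v (N k j) ≤ t ^ b) :
    v ((M * N) i j) ≤ t ^ (a + b) := by
  rw [Matrix.mul_apply]
  apply Valuation.map_sum_le
  intro k _
  exact DPert_mul v h0 (hM k) (hN k)

private theorem DPert_four {K Γ : Type} [Field K] [LinearOrderedCommGroupWithZero Γ]
    (v : Valuation K Γ) (n : ℕ) : v ((4 : K) ^ n) = v 2 ^ (2 * n : ℤ) := by
  have h4 : (4 : K) ^ n = 2 ^ (2 * n) := by
    rw [pow_mul]
    norm_num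
  rw [h4, map_pow, ← zpow_natCast]
  push_cast
  rfl

/-- The abstract form. -/
private theorem DPert_aux {K Γ m n : Type} [Field K] [IsAlgClosed K]
    [LinearOrderedCommGroupWithZero Γ] [Fintype m] [Fintype n] [DecidableEq m] [DecidableEq n]
    (v : Valuation K Γ) {t : Γ} (h0 : t ≠ 0) (h1 : t < 1) (M : ℤ) (x : K) (hx0 : x ≠ 0)
    (hx : v x = t) (A Pi : Matrix m m K) (B : Matrix m n K) (C : Matrix n m K)
    (E : Matrix n n K) (G0 : Matrix m m ℤ) (d1 : m → K) (d2 : n → K) (a1 : m → ℤ) (a2 : n → ℤ)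
    (hd1 : ∀ i, v (d1 i) = t ^ a1 i) (hd2 : ∀ i, v (d2 i) = t ^ a2 i)
    (hA : A * Pi = 1)
    (hG : ∀ i j, v (x ^ M * (d1 i)⁻¹ * Pi i j * (d1 j)⁻¹ - (G0 i j : K)) < 1)
    (hP : ∀ i j, v ((C * Pi) i j) ≤ t ^ (1 - (a2 i - a1 j)))
    (hQ : ∀ i j, v ((Pi * B) i j) ≤ t ^ (1 - (a2 j - a1 i)))
    (hS : ∀ i j, v ((E - C * Pi * B) i j) ≤ t ^ (M + 1 - a2 i - a2 j))
    (y : IsLocalRing.ResidueField v.valuationSubring) (hy : y ≠ 0) :
    nres v (fromBlocks (diagonal d1 * A * diagonal d1) (diagonal d1 * B * diagonal d2)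
        (diagonal d2 * C * diagonal d1) (diagonal d2 * E * diagonal d2)).charpoly.roots
        (x ^ M) y =
      (resPoly (IsLocalRing.ResidueField v.valuationSubring) G0).rootMultiplicity y := by
  have n1 : ∀ i, d1 i ≠ 0 := by
    intro i h
    have := hd1 i
    rw [h, map_zero] at this
    exact zpow_ne_zero _ h0 this.symm
  obtain ⟨e1, he1⟩ : ∃ e1 : m → K, e1 = fun i => (d1 i)⁻¹ := ⟨_, rfl⟩
  have ve1 : ∀ i, v (e1 i) = t ^ (-a1 i) := by
    intro i
    rw [he1]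
    dsimp only
    rw [map_inv₀, hd1, _root_.zpow_neg]
  have hde : diagonal d1 * diagonal e1 = 1 := by
    rw [diagonal_mul_diagonal, ← diagonal_one]
    congr 1
    funext i
    rw [he1]
    exact mul_inv_cancel₀ (n1 i)
  have hed : diagonal e1 * diagonal d1 = 1 := mul_eq_one_comm.mp hde
  have s1 : ∀ (k : Type) (Z : Matrix k m K), Z * diagonal d1 * diagonal e1 = Z := by
    intro k Z
    rw [Matrix.mul_assoc, hde, Matrix.mul_one]
  have s2 : ∀ (k : Type) (Z : Matrix k m K), Z * diagonal e1 * diagonal d1 = Z := by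
    intro k Z
    rw [Matrix.mul_assoc, hed, Matrix.mul_one]
  have s3 : ∀ (k : Type) (Z : Matrix k m K), Z * A * Pi = Z := by
    intro k Z
    rw [Matrix.mul_assoc, hA, Matrix.mul_one]
  have eP : diagonal d2 * C * diagonal d1 * (diagonal e1 * Pi * diagonal e1) =
      diagonal d2 * (C * Pi) * diagonal e1 := by
    rw [← Matrix.mul_assoc, ← Matrix.mul_assoc, s1, ← Matrix.mul_assoc]
  have eQ : diagonal e1 * Pi * diagonal e1 * (diagonal d1 * B * diagonal d2) =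
      diagonal e1 * (Pi * B) * diagonal d2 := by
    rw [← Matrix.mul_assoc, ← Matrix.mul_assoc, s2, ← Matrix.mul_assoc]
  have eS : diagonal d2 * E * diagonal d2 - diagonal d2 * C * diagonal d1 *
      (diagonal e1 * Pi * diagonal e1) * (diagonal d1 * B * diagonal d2) =
      diagonal d2 * (E - C * Pi * B) * diagonal d2 := by
    have e5 : diagonal d2 * (C * Pi) * diagonal e1 * (diagonal d1 * B * diagonal d2) =
        diagonal d2 * (C * Pi * B) * diagonal d2 := by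
      calc _ = diagonal d2 * (C * Pi) * (diagonal e1 * diagonal d1) * B * diagonal d2 := by
            simp only [Matrix.mul_assoc]
        _ = _ := by
            rw [hed, Matrix.mul_one]
            simp only [Matrix.mul_assoc]
    rw [eP, e5, Matrix.mul_sub, Matrix.sub_mul]
  have vP : ∀ i j, v ((diagonal d2 * C * diagonal d1 *
      (diagonal e1 * Pi * diagonal e1)) i j) ≤ t ^ (1 : ℤ) := by
    intro i j
    rw [eP, Matrix.mul_diagonal, Matrix.diagonal_mul]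
    have h3 := DPert_mul v h0 (DPert_mul v h0 (hd2 i).le (hP i j)) (ve1 j).le
    refine h3.trans (le_of_eq ?_)
    congr 1
    ring
  have vQ : ∀ i j, v ((diagonal e1 * Pi * diagonal e1 *
      (diagonal d1 * B * diagonal d2)) i j) ≤ t ^ (1 : ℤ) := by
    intro i j
    rw [eQ, Matrix.mul_diagonal, Matrix.diagonal_mul]
    have h3 := DPert_mul v h0 (DPert_mul v h0 (ve1 i).le (hQ i j)) (hd2 j).le
    refine h3.trans (le_of_eq ?_)
    congr 1
    ring
  have t1 : t ^ (1 : ℤ) < 1 := by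
    rw [zpow_one]
    exact h1
  have hvπ : v (x ^ M) = t ^ M := by rw [map_zpow₀, hx]
  refine block_res v (x ^ M) (zpow_ne_zero _ hx0) _ (diagonal e1 * Pi * diagonal e1) _ _ _ G0
    ?_ ?_ ?_ ?_ ?_ y hy
  · rw [← Matrix.mul_assoc, ← Matrix.mul_assoc, s1, s3, hde]
  · intro i j
    rw [Matrix.mul_diagonal, Matrix.diagonal_mul]
    have h3 := hG i j
    have h4 : x ^ M * (e1 i * Pi i j * e1 j) = x ^ M * (d1 i)⁻¹ * Pi i j * (d1 j)⁻¹ := by
      rw [he1]
      ring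
    rw [h4]
    exact h3
  · intro i j
    exact (vQ i j).trans_lt t1
  · intro i j
    exact (vP i j).trans_lt t1
  · intro i j
    rw [eS, Matrix.mul_diagonal, Matrix.diagonal_mul, hvπ]
    have h3 := DPert_mul v h0 (DPert_mul v h0 (hd2 i).le (hS i j)) (hd2 j).le
    have h4 : a2 i + (M + 1 - a2 i - a2 j) + a2 j = M + 1 := by ring
    rw [h4] at h3
    exact lt_of_le_of_lt h3 (DPert_mono' h0 h1 (by omega))

theorem pertD {K Γ : Type} [Field K] [CharZero K] [IsAlgClosed K]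
    [LinearOrderedCommGroupWithZero Γ] (v : Valuation K Γ) (hv : v 2 < 1) {b c L : ℕ} {M : ℤ}
    (hb : 1 ≤ b) (hc : 3 * L + 2 ≤ c)
    (hM1 : (4 * b : ℤ) - 2 * L - 2 ≤ M) (hM2 : M ≤ 4 * b + 2 * L + 7)
    (A Pi A1 : Matrix (Fin b) (Fin b) K) (B B1 : Matrix (Fin b) (Fin c) K)
    (C C1 : Matrix (Fin c) (Fin b) K) (E E1 : Matrix (Fin c) (Fin c) K)
    (G0 : Matrix (Fin b) (Fin b) ℤ)
    (hA : A * Pi = 1) (hB : ∀ i j, v (B i j) ≤ 1) (hC : ∀ i j, v (C i j) ≤ 1)
    (hPi : ∀ i j, v (Pi i j) ≤ v 2 ^ (-(4 * L + 1) : ℤ))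
    (hG : ∀ i j : Fin b, v ((2 : K) ^ M * ((4 : K) ^ ((i : ℕ) + 1))⁻¹ * Pi i j *
      ((4 : K) ^ ((j : ℕ) + 1))⁻¹ - (G0 i j : K)) < 1)
    (hP : ∀ (i : Fin c) (j : Fin b), v ((C * Pi) i j) ≤ v 2 ^ (1 - 2 * ((b : ℤ) + i - j)))
    (hQ : ∀ (i : Fin b) (j : Fin c), v ((Pi * B) i j) ≤ v 2 ^ (1 - 2 * ((b : ℤ) + j - i)))
    (hS : ∀ i j : Fin c, v ((E - C * Pi * B) i j) ≤
      v 2 ^ (M + 1 - 2 * ((b : ℤ) + i + 1) - 2 * ((b : ℤ) + j + 1)))
    (hA1 : ∀ i j, v (A1 i j) ≤ v 2 ^ (4 * (b + c - (j : ℤ))))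
    (hB1 : ∀ (i : Fin b) (j : Fin c), v (B1 i j) ≤ v 2 ^ (4 * (c - (j : ℤ))))
    (hC1 : ∀ (i : Fin c) (j : Fin b), v (C1 i j) ≤ v 2 ^ (4 * (b + c - (j : ℤ))))
    (hE1 : ∀ i j : Fin c, v (E1 i j) ≤ v 2 ^ (4 * (c - (j : ℤ))))
    (x : IsLocalRing.ResidueField v.valuationSubring) (hx : x ≠ 0) :
    nres v (fromBlocks
        (Matrix.of fun i j : Fin b => (4 : K) ^ ((i : ℕ) + 1) * (A + A1) i j * 4 ^ ((j : ℕ) + 1))
        (Matrix.of fun (i : Fin b) (j : Fin c) =>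
          (4 : K) ^ ((i : ℕ) + 1) * (B + B1) i j * 4 ^ (b + (j : ℕ) + 1))
        (Matrix.of fun (i : Fin c) (j : Fin b) =>
          (4 : K) ^ (b + (i : ℕ) + 1) * (C + C1) i j * 4 ^ ((j : ℕ) + 1))
        (Matrix.of fun i j : Fin c =>
          (4 : K) ^ (b + (i : ℕ) + 1) * (E + E1) i j * 4 ^ (b + (j : ℕ) + 1))).charpoly.roots
        ((2 : K) ^ M) x =
    (resPoly (IsLocalRing.ResidueField v.valuationSubring) G0).rootMultiplicity x := by
  classical
  have h20 : (2 : K) ≠ 0 := two_ne_zero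
  obtain ⟨t, ht⟩ : ∃ t : Γ, t = v 2 := ⟨_, rfl⟩
  have h0 : t ≠ 0 := by
    rw [ht]
    exact (Valuation.ne_zero_iff v).mpr h20
  have h1 : t < 1 := by
    rw [ht]
    exact hv
  have h4 : ∀ n : ℕ, v ((4 : K) ^ n) = t ^ (2 * n : ℤ) := by
    intro n
    rw [ht]
    exact DPert_four v n
  rw [← ht] at hPi hP hQ hS hA1 hB1 hC1 hE1
  have z0 : (1 : Γ) = t ^ (0 : ℤ) := (zpow_zero t).symm
  rw [z0] at hB hC
  have hGa : ∀ i j : Fin b, v (A1 i j) ≤ t ^ (4 * ((c : ℤ) + 1)) := by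
    intro i j
    refine (hA1 i j).trans (DPert_mono h0 h1 ?_)
    have := j.2
    omega
  have hGc : ∀ (i : Fin c) (j : Fin b), v (C1 i j) ≤ t ^ (4 * ((c : ℤ) + 1)) := by
    intro i j
    refine (hC1 i j).trans (DPert_mono h0 h1 ?_)
    have := j.2
    omega
  obtain ⟨W, hW1, hW2, hW3⟩ := inv_one_add v (Pi * A1)
    (t ^ (-(4 * L + 1) + 4 * ((c : ℤ) + 1))) (by
      rw [z0]
      exact DPert_mono' h0 h1 (by omega)) (fun i j =>
        DPert_mat v h0 _ _ i j (fun k => hPi i k) (fun k => hGa k j))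
  obtain ⟨Δ, hΔ⟩ : ∃ Δ : Matrix (Fin b) (Fin b) K, Δ = (W - 1) * Pi := ⟨_, rfl⟩
  obtain ⟨G, hGd⟩ : ∃ G : ℤ, G = 4 * (c : ℤ) + 2 - 8 * L := ⟨_, rfl⟩
  have vΔ : ∀ i j, v (Δ i j) ≤ t ^ G := by
    intro i j
    rw [hΔ]
    refine (DPert_mat v h0 _ _ i j (fun k => hW3 i k) (fun k => hPi k j)).trans
      (DPert_mono h0 h1 ?_)
    omega
  have ePi : W * Pi = Pi + Δ := by
    rw [hΔ, Matrix.sub_mul, Matrix.one_mul, add_sub_cancel]
  have vPi' : ∀ i j, v ((Pi + Δ) i j) ≤ t ^ (-(4 * L + 1) : ℤ) := by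
    intro i j
    rw [Matrix.add_apply]
    refine Valuation.map_add_le v (hPi i j) ((vΔ i j).trans (DPert_mono h0 h1 ?_))
    omega
  have hAA : (A + A1) * (Pi + Δ) = 1 := by
    have h5 : A + A1 = A * (1 + Pi * A1) := by
      rw [Matrix.mul_add, Matrix.mul_one, ← Matrix.mul_assoc, hA, Matrix.one_mul]
    rw [h5, ← ePi, Matrix.mul_assoc, ← Matrix.mul_assoc (1 + Pi * A1), hW1, Matrix.one_mul, hA]
  have vBB : ∀ i j, v ((B + B1) i j) ≤ t ^ (0 : ℤ) := by
    intro i j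
    rw [Matrix.add_apply]
    refine Valuation.map_add_le v (hB i j) ((hB1 i j).trans (DPert_mono h0 h1 ?_))
    have := j.2
    omega
  have key := DPert_aux v h0 h1 M 2 h20 ht.symm (A + A1) (Pi + Δ) (B + B1) (C + C1) (E + E1) G0
    (fun i : Fin b => (4 : K) ^ ((i : ℕ) + 1)) (fun i : Fin c => (4 : K) ^ (b + (i : ℕ) + 1))
    (fun i : Fin b => 2 * ((i : ℤ) + 1)) (fun i : Fin c => 2 * ((b : ℤ) + i + 1))
    (by
      intro i
      rw [h4]
      congr 1) (by
      intro i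
      rw [h4]
      congr 1) hAA ?_ ?_ ?_ ?_ x hx
  · refine Eq.trans ?_ key
    congr 3
    congr 1
    · ext i j
      rw [Matrix.mul_diagonal, Matrix.diagonal_mul]
      rfl
    · ext i j
      rw [Matrix.mul_diagonal, Matrix.diagonal_mul]
      rfl
    · ext i j
      rw [Matrix.mul_diagonal, Matrix.diagonal_mul]
      rfl
    · ext i j
      rw [Matrix.mul_diagonal, Matrix.diagonal_mul]
      rfl
  · -- the inverse
    intro i j
    have e9 : (2 : K) ^ M * ((4 : K) ^ ((i : ℕ) + 1))⁻¹ * (Pi + Δ) i j *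
        ((4 : K) ^ ((j : ℕ) + 1))⁻¹ - (G0 i j : K) =
        ((2 : K) ^ M * ((4 : K) ^ ((i : ℕ) + 1))⁻¹ * Pi i j * ((4 : K) ^ ((j : ℕ) + 1))⁻¹ -
          (G0 i j : K)) + (2 : K) ^ M * ((4 : K) ^ ((i : ℕ) + 1))⁻¹ * Δ i j *
            ((4 : K) ^ ((j : ℕ) + 1))⁻¹ := by
      rw [Matrix.add_apply]
      ring
    rw [e9]
    refine Valuation.map_add_lt v (hG i j) ?_
    have v2M : v ((2 : K) ^ M) ≤ t ^ M := by rw [map_zpow₀, ht]
    have v4 : ∀ n : ℕ, v (((4 : K) ^ n)⁻¹) ≤ t ^ (-(2 * n : ℤ)) := by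
      intro n
      rw [map_inv₀, h4, _root_.zpow_neg]
    refine lt_of_le_of_lt (DPert_mul v h0 (DPert_mul v h0 (DPert_mul v h0 v2M (v4 _))
      (vΔ i j)) (v4 _)) ?_
    rw [z0]
    refine DPert_mono' h0 h1 ?_
    have := i.2
    have := j.2
    push_cast
    omega
  · -- P
    intro i j
    have e6 : (C + C1) * (Pi + Δ) = C * Pi + (C * Δ + C1 * (Pi + Δ)) := by
      rw [Matrix.add_mul, Matrix.mul_add, add_assoc]
    rw [e6, Matrix.add_apply, Matrix.add_apply]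
    have := j.2
    refine Valuation.map_add_le v ((hP i j).trans (le_of_eq ?_)) (Valuation.map_add_le v ?_ ?_)
    · congr 1
      ring
    · refine (DPert_mat v h0 _ _ i j (fun k => hC i k) (fun k => vΔ k j)).trans
        (DPert_mono h0 h1 ?_)
      omega
    · refine (DPert_mat v h0 _ _ i j (fun k => hGc i k) (fun k => vPi' k j)).trans
        (DPert_mono h0 h1 ?_)
      omega
  · -- Q
    intro i j
    have e6 : (Pi + Δ) * (B + B1) = Pi * B + (Δ * B + (Pi + Δ) * B1) := by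
      rw [Matrix.mul_add, Matrix.add_mul, add_assoc]
    rw [e6, Matrix.add_apply, Matrix.add_apply]
    have := i.2
    have := j.2
    refine Valuation.map_add_le v ((hQ i j).trans (le_of_eq ?_)) (Valuation.map_add_le v ?_ ?_)
    · congr 1
      ring
    · refine (DPert_mat v h0 _ _ i j (fun k => vΔ i k) (fun k => hB k j)).trans
        (DPert_mono h0 h1 ?_)
      omega
    · refine (DPert_mat v h0 _ _ i j (fun k => vPi' i k) (fun k => hB1 k j)).trans
        (DPert_mono h0 h1 ?_)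
      omega
  · -- S
    intro i j
    have e6 : E + E1 - (C + C1) * (Pi + Δ) * (B + B1) =
        (E - C * Pi * B) + (E1 - (C * (Δ * B) + (C * ((Pi + Δ) * B1) +
          C1 * ((Pi + Δ) * (B + B1))))) := by
      have e7 : (C + C1) * (Pi + Δ) * (B + B1) = C * Pi * B + (C * (Δ * B) +
          (C * ((Pi + Δ) * B1) + C1 * ((Pi + Δ) * (B + B1)))) := by
        simp only [Matrix.add_mul, Matrix.mul_add, Matrix.mul_assoc]
        abel
      rw [e7]
      abel
    have e8 : ∀ Y X0 X1 X2 X3 : Matrix (Fin c) (Fin c) K, (Y + (X0 - (X1 + (X2 + X3)))) i j =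
        Y i j + (X0 i j - (X1 i j + (X2 i j + X3 i j))) := fun _ _ _ _ _ => rfl
    rw [e6, e8]
    have := i.2
    have := j.2
    refine Valuation.map_add_le v ((hS i j).trans (le_of_eq ?_)) (Valuation.map_sub_le v ?_
      (Valuation.map_add_le v ?_ (Valuation.map_add_le v ?_ ?_)))
    · congr 1
    · refine (hE1 i j).trans (DPert_mono h0 h1 ?_)
      omega
    · refine (DPert_mat v h0 _ _ i j (fun k => hC i k) (fun k =>
        DPert_mat v h0 _ _ k j (fun l => vΔ k l) (fun l => hB l j))).trans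
        (DPert_mono h0 h1 ?_)
      omega
    · refine (DPert_mat v h0 _ _ i j (fun k => hC i k) (fun k =>
        DPert_mat v h0 _ _ k j (fun l => vPi' k l) (fun l => hB1 l j))).trans
        (DPert_mono h0 h1 ?_)
      omega
    · refine (DPert_mat v h0 _ _ i j (fun k => hGc i k) (fun k =>
        DPert_mat v h0 _ _ k j (fun l => vPi' k l) (fun l => vBB l j))).trans
        (DPert_mono h0 h1 ?_)
      omega

end MT2
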