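import Pool.Agent.Lib_MP_bfd926_dd.DNum
import Pool.Agent.Lib_MP_bfd926_sq.SQX
import Pool.Agent.Lib_MP_bfd926_sq.SQY

/-!
# The unit entries

`n` has the even shifted index `nt = nt e n`, `2 ^ (a + 1)` does not divide `nt`.
`XE_unit`: by the closed form with `t = 1` (see the proof of `XE_norm`, SQX):
`XE e w (n - 1) n * odd * (w - 2 n + 1) = odd * C(n, 2) * z`, `z = 2 w - 3 n` (`e = 0`: `w`, `n` odd, so `z` is odd),
`z = 2 w - 3 n + 3` (`e = 1`: `n` even, `z` is odd). `w - 2 n + 1 = 2 (2 q - nt)`, `C(n, 2) = n (n - 1) / 2` has the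
valuation `v₂(nt) - 1` (`nt = n - 1` or `n`, the other factor is odd), and `v₂(2 q - nt) = v₂(nt)` (`val_eq`).
So the valuation of `XE` is `v₂(nt) - 1 - 1 - v₂(nt) = -2`, the norm is 4.
`YE_unit`: `YE e w n (n - 1) * odd * (w - 2 n + 1) = ± odd * C(w - n + 1, 2) * z`, `z = (w - 3 n + 1) + 2`
(`e = 0`, odd), `z = w - 3 n` (`e = 1`, odd); `C(w - n + 1, 2) = (w - n + 1) (w - n) / 2` has the valuation
`v₂(4 q - nt) - 1` (`w - n = 4 q - nt` for `e = 0`, `w - n + 1 = 4 q - nt` for `e = 1`, the other factor is odd),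
`v₂(4 q - nt) = v₂(nt)` (`val_eq4`).
-/

namespace MT2

private theorem DUn_nat {m : ℕ} (h : m ≠ 0) :
    padicNorm 2 (m : ℚ) = (2 : ℚ) ^ (-(padicValNat 2 m : ℤ)) := by
  have h0 : (m : ℚ) ≠ 0 := by exact_mod_cast h
  rw [padicNorm.eq_zpow_of_nonzero h0, padicValRat.of_nat]
  rfl

private theorem DUn_odd {m : ℕ} (h : m % 2 = 1) : padicNorm 2 (m : ℚ) = 1 :=
  (padicNorm.nat_eq_one_iff _).2 (by omega)

private theorem DUn_core {X O1 O2 z : ℚ} {C D : ℕ} (hX : X * O1 * (D : ℚ) = O2 * (C : ℚ) * z)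
    (h1 : padicNorm 2 O1 = 1) (h2 : padicNorm 2 O2 = 1) (hz : padicNorm 2 z = 1)
    (hC : C ≠ 0) (hD : D ≠ 0) (hv : padicValNat 2 D = padicValNat 2 C + 2) :
    padicNorm 2 X = 4 := by
  have h := congrArg (padicNorm 2) hX
  rw [padicNorm.mul, padicNorm.mul, padicNorm.mul, padicNorm.mul, h1, h2, hz, mul_one, mul_one,
    one_mul, DUn_nat hC, DUn_nat hD, hv] at h
  have e : (2 : ℚ) ^ (-((padicValNat 2 C + 2 : ℕ) : ℤ)) =
      (2 : ℚ) ^ (-(padicValNat 2 C : ℤ)) * (1 / 4) := by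
    have e1 : (-((padicValNat 2 C + 2 : ℕ) : ℤ)) = -(padicValNat 2 C : ℤ) + (-2) := by
      push_cast
      ring
    rw [e1, zpow_add₀ (by norm_num)]
    norm_num
  rw [e] at h
  have hp : (2 : ℚ) ^ (-(padicValNat 2 C : ℤ)) ≠ 0 := by positivity
  have h3 : (2 : ℚ) ^ (-(padicValNat 2 C : ℤ)) * (padicNorm 2 X * (1 / 4)) =
      (2 : ℚ) ^ (-(padicValNat 2 C : ℤ)) * 1 := by
    rw [mul_one]
    linear_combination h
  have h4 := mul_left_cancel₀ hp h3
  linarith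

/-- `C(m, 2)`, the valuation. -/
private theorem DUn_choose {m A : ℕ} (hm : 2 ≤ m) (hA : A ≠ 0)
    (h : (A = m ∧ (m - 1) % 2 = 1) ∨ (A = m - 1 ∧ m % 2 = 1)) :
    padicValNat 2 A = padicValNat 2 (Nat.choose m 2) + 1 := by
  have hc : 2 * Nat.choose m 2 = m * (m - 1) := by
    rw [Nat.choose_two_right]
    exact Nat.two_mul_div_two_of_even (Nat.even_mul_pred_self m)
  have hc0 : Nat.choose m 2 ≠ 0 := (Nat.choose_pos hm).ne'
  have h2 : padicValNat 2 (2 * Nat.choose m 2) = 1 + padicValNat 2 (Nat.choose m 2) := by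
    rw [padicValNat.mul (by norm_num) hc0, padicValNat.self (by norm_num)]
  have h3 : padicValNat 2 (m * (m - 1)) = padicValNat 2 m + padicValNat 2 (m - 1) :=
    padicValNat.mul (by omega) (by omega)
  rw [hc, h3] at h2
  rcases h with ⟨rfl, h⟩ | ⟨rfl, h⟩
  · have h4 : padicValNat 2 (A - 1) = 0 := padicValNat.eq_zero_of_not_dvd (by omega)
    omega
  · have h4 : padicValNat 2 m = 0 := padicValNat.eq_zero_of_not_dvd (by omega)
    omega

private theorem DUn_den {e q a w n : ℕ} (he : e ≤ 1) (hw : w + 2 * e = 4 * q + 1)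
    (ha : 2 ^ a ∣ q) (hn : 2 ≤ n) (h : 3 * n + e ≤ w) (hnd : ¬ 2 ^ (a + 1) ∣ nt e n) :
    1 ≤ nt e n ∧ nt e n < 2 * q ∧ w - 2 * n + 1 = 2 * (2 * q - nt e n) ∧
      padicValNat 2 (w - 2 * n + 1) = padicValNat 2 (nt e n) + 1 := by
  have h1 : 1 ≤ nt e n := by
    unfold nt
    omega
  have h2 : nt e n < 2 * q := by
    unfold nt
    omega
  have h3 : w - 2 * n + 1 = 2 * (2 * q - nt e n) := by
    unfold nt
    omega
  refine ⟨h1, h2, h3, ?_⟩
  rw [h3, padicValNat.mul (by norm_num) (by omega), padicValNat.self (by norm_num),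
    val_eq ha h1 h2 hnd, add_comm]

theorem XE_unit {e q a w n : ℕ} (he : e ≤ 1) (hw : w + 2 * e = 4 * q + 1) (ha : 2 ^ a ∣ q)
    (hn : 2 ≤ n) (h : 3 * n + e ≤ w) (hev : Even (nt e n)) (hnd : ¬ 2 ^ (a + 1) ∣ nt e n) :
    padicNorm 2 (XE e w (n - 1) n) = 4 := by
  obtain ⟨h1, h2, h3, h4⟩ := DUn_den he hw ha hn h hnd
  have hn3 : 3 * n ≤ w := by omega
  have hcl := xv_closed hn3 (show 1 < n by omega)
  rw [Finset.prod_range_one, Finset.prod_range_one, Nat.choose_one_right,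
    show n + 1 - 1 = n by omega, show 2 * w - 3 * n + 1 - 1 = 2 * w - 3 * n by omega,
    Nat.choose_one_right] at hcl
  have hO : padicNorm 2 (2 * (w : ℚ) - 2 * n + 1 + 2 * ((0 : ℕ) : ℚ)) = 1 := by
    have e1 : (2 * (w : ℚ) - 2 * n + 1 + 2 * ((0 : ℕ) : ℚ)) = ((2 * (w - n) + 1 : ℕ) : ℚ) := by
      push_cast [Nat.cast_sub (show n ≤ w by omega)]
      ring
    rw [e1]
    exact DUn_odd (by omega)
  have hO2 : padicNorm 2 (2 * ((0 : ℕ) : ℚ) + 1) = 1 := by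
    have e1 : (2 * ((0 : ℕ) : ℚ) + 1) = ((1 : ℕ) : ℚ) := by
      push_cast
      ring
    rw [e1]
    exact DUn_odd (by omega)
  have hc0 : Nat.choose n 2 ≠ 0 := (Nat.choose_pos hn).ne'
  rcases Nat.eq_zero_or_pos e with he0 | he0
  · subst he0
    have hnt : nt 0 n = n - 1 := rfl
    rw [hnt] at hev h4 h1 h2 h3
    have hno : n % 2 = 1 := by
      obtain ⟨k, hk⟩ := hev
      omega
    have hv := DUn_choose (A := n - 1) hn (by omega) (Or.inr ⟨rfl, hno⟩)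
    refine DUn_core (z := ((2 * w - 3 * n : ℕ) : ℚ)) (C := Nat.choose n 2)
      (D := w - 2 * n + 1) ?_ hO hO2 (DUn_odd (by omega)) hc0 (by omega) (by omega)
    unfold XE
    rw [if_pos rfl]
    exact hcl
  · have he1 : e = 1 := by omega
    subst he1
    have hnt : nt 1 n = n := by
      unfold nt
      omega
    rw [hnt] at hev h4 h1 h2 h3
    have hno : n % 2 = 0 := by
      obtain ⟨k, hk⟩ := hev
      omega
    have hv := DUn_choose (A := n) hn (by omega) (Or.inl ⟨rfl, by omega⟩)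
    refine DUn_core (z := ((2 * w - 3 * n + 3 : ℕ) : ℚ)) (C := Nat.choose n 2)
      (D := w - 2 * n + 1) ?_ hO hO2 (DUn_odd (by omega)) hc0 (by omega) (by omega)
    have hq : (3 : ℚ) * n + 1 ≤ w := by exact_mod_cast h
    have hq0 : (0 : ℚ) ≤ n := Nat.cast_nonneg n
    have hM : (2 * (w : ℚ) - 3 * n) ≠ 0 := by
      have : (0 : ℚ) < 2 * (w : ℚ) - 3 * n := by linarith
      exact this.ne'
    have hn1 : ((n - 1 : ℕ) : ℚ) = (n : ℚ) - 1 := by
      rw [Nat.cast_sub (by omega)]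
      push_cast
      ring
    have hz : ((2 * w - 3 * n : ℕ) : ℚ) = 2 * (w : ℚ) - 3 * n := by
      rw [Nat.cast_sub (by omega)]
      push_cast
      ring
    have hz3 : ((2 * w - 3 * n + 3 : ℕ) : ℚ) = 2 * (w : ℚ) - 3 * n + 3 := by
      rw [Nat.cast_add, hz]
      push_cast
      ring
    have hX : XE 1 w (n - 1) n = (2 * w - 3 * n + 3) / (2 * w - 3 * n) * xv w n (n - 1) := by
      unfold XE
      rw [if_neg (by norm_num), hn1]
      congr 2
      ring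
    rw [hX, hz3]
    rw [hz] at hcl
    apply mul_left_cancel₀ hM
    generalize xv w n (n - 1) = X at *
    have e3 : (2 * (w : ℚ) - 3 * n) * ((2 * w - 3 * n + 3) / (2 * w - 3 * n) * X *
        (2 * (w : ℚ) - 2 * n + 1 + 2 * ((0 : ℕ) : ℚ)) * ((w - 2 * n + 1 : ℕ) : ℚ)) =
        (2 * w - 3 * n + 3) * (X * (2 * (w : ℚ) - 2 * n + 1 + 2 * ((0 : ℕ) : ℚ)) *
        ((w - 2 * n + 1 : ℕ) : ℚ)) := by
      field_simp
    rw [e3, hcl]
    ring

theorem YE_unit {e q a w n : ℕ} (he : e ≤ 1) (hw : w + 2 * e = 4 * q + 1) (ha : 2 ^ a ∣ q)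
    (hn : 2 ≤ n) (h : 3 * n + e ≤ w) (hev : Even (nt e n)) (hnd : ¬ 2 ^ (a + 1) ∣ nt e n) :
    padicNorm 2 (YE e w n (n - 1)) = 4 := by
  obtain ⟨h1, h2, h3, h4⟩ := DUn_den he hw ha hn h hnd
  have h5 := val_eq4 ha h1 h2 hnd
  have hn3 : 3 * n ≤ w := by omega
  have hcl := lv_closed hn3 (le_refl 1) (show 1 < n by omega)
  rw [Finset.prod_range_one, Finset.prod_range_one, Nat.choose_one_right, mul_one,
    Nat.choose_one_right, Nat.sub_self, Nat.choose_zero_right] at hcl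
  have hn1 : ((n - 1 : ℕ) : ℚ) = (n : ℚ) - 1 := by
    rw [Nat.cast_sub (by omega)]
    push_cast
    ring
  have hO : padicNorm 2 (2 * (n : ℚ) - 1) = 1 := by
    have e1 : (2 * (n : ℚ) - 1) = ((2 * n - 1 : ℕ) : ℚ) := by
      rw [Nat.cast_sub (by omega)]
      push_cast
      ring
    rw [e1]
    exact DUn_odd (by omega)
  have hO2 : padicNorm 2 (-1 : ℚ) = 1 := by
    rw [padicNorm.neg, padicNorm.one]
  have hhalf : ((n : ℚ) - 1 / 2) ≠ 0 := by
    have : (2 : ℚ) ≤ n := by exact_mod_cast hn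
    intro h
    linarith
  have hv3 : ((w - 3 * n : ℕ) : ℚ) = (w : ℚ) - 3 * n := by
    rw [Nat.cast_sub hn3]
    push_cast
    ring
  have hc2 : 2 ≤ w - n + 1 := by omega
  have hc0 : Nat.choose (w - n + 1) 2 ≠ 0 := (Nat.choose_pos hc2).ne'
  -- the quotient
  have hY0 : lv w n (n - 1) / lv w n n * (2 * (n : ℚ) - 1) * ((w - 2 * n + 1 : ℕ) : ℚ) =
      -1 * (Nat.choose (w - n + 1) 2 : ℚ) * ((w : ℚ) - 3 * n + 3) := by
    rw [lv_self]
    apply mul_left_cancel₀ hhalf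
    have e1 : ((n : ℚ) - 1 / 2) * (lv w n (n - 1) / ((n : ℚ) - 1 / 2) * (2 * (n : ℚ) - 1) *
        ((w - 2 * n + 1 : ℕ) : ℚ)) =
        lv w n (n - 1) * (2 * (n : ℚ) - 1) * ((w - 2 * n + 1 : ℕ) : ℚ) := by
      have e2 : ((n : ℚ) - 1 / 2) * (lv w n (n - 1) / ((n : ℚ) - 1 / 2)) = lv w n (n - 1) :=
        mul_div_cancel₀ _ hhalf
      rw [← mul_assoc, ← mul_assoc, e2]
    rw [e1]
    have hcl' := hcl
    rw [Nat.cast_zero, mul_zero, sub_zero, zero_add] at hcl'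
    rw [hcl']
    push_cast [hv3]
    ring
  rcases Nat.eq_zero_or_pos e with he0 | he0
  · subst he0
    have hnt : nt 0 n = n - 1 := rfl
    rw [hnt] at hev h4 h1 h2 h3 h5
    have hno : n % 2 = 1 := by
      obtain ⟨k, hk⟩ := hev
      omega
    have e4 : 4 * q - (n - 1) = w - n := by omega
    rw [e4] at h5
    have hv := DUn_choose (m := w - n + 1) (A := w - n) hc2 (by omega)
      (Or.inr ⟨by omega, by omega⟩)
    refine DUn_core (z := ((w - 3 * n + 3 : ℕ) : ℚ)) (C := Nat.choose (w - n + 1) 2)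
      (D := w - 2 * n + 1) ?_ hO hO2 (DUn_odd (by omega)) hc0 (by omega) (by omega)
    unfold YE
    rw [if_pos rfl, hY0]
    push_cast [hv3]
    ring
  · have he1 : e = 1 := by omega
    subst he1
    have hnt : nt 1 n = n := by
      unfold nt
      omega
    rw [hnt] at hev h4 h1 h2 h3 h5
    have hno : n % 2 = 0 := by
      obtain ⟨k, hk⟩ := hev
      omega
    have e4 : 4 * q - n = w - n + 1 := by omega
    rw [e4] at h5
    have hv := DUn_choose (m := w - n + 1) (A := w - n + 1) hc2 (by omega)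
      (Or.inl ⟨rfl, by omega⟩)
    refine DUn_core (z := ((w - 3 * n : ℕ) : ℚ)) (C := Nat.choose (w - n + 1) 2)
      (D := w - 2 * n + 1) ?_ hO hO2 (DUn_odd (by omega)) hc0 (by omega) (by omega)
    have hd : ((w : ℚ) - 3 * n + 3) ≠ 0 := by
      have h6 : (3 * (n : ℚ)) ≤ w := by exact_mod_cast hn3
      intro h7
      linarith
    have hd1 : (w : ℚ) - 3 * ((n - 1 : ℕ) : ℚ) = (w : ℚ) - 3 * n + 3 := by
      rw [hn1]
      ring
    unfold YE
    rw [if_neg (by norm_num), hd1, hv3]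
    have e5 : ((w : ℚ) - 3 * n) / ((w : ℚ) - 3 * n + 3) * (lv w n (n - 1) / lv w n n) *
        (2 * (n : ℚ) - 1) * ((w - 2 * n + 1 : ℕ) : ℚ) =
        ((w : ℚ) - 3 * n) / ((w : ℚ) - 3 * n + 3) * (lv w n (n - 1) / lv w n n *
        (2 * (n : ℚ) - 1) * ((w - 2 * n + 1 : ℕ) : ℚ)) := by ring
    rw [e5, hY0]
    have e6 : ((w : ℚ) - 3 * n) / ((w : ℚ) - 3 * n + 3) * ((w : ℚ) - 3 * n + 3) =
        (w : ℚ) - 3 * n := div_mul_cancel₀ _ hd
    linear_combination (-(Nat.choose (w - n + 1) 2 : ℚ)) * e6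

end MT2
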