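import Pool.Agent.Lib_MP_bfd926_dd.DX
import Pool.Agent.Lib_MP_bfd926_dd.DY
import Pool.Agent.Lib_MP_bfd926_dd.DUn
import Pool.Agent.Lib_MP_bfd926_dd.DIneq
import Pool.Agent.Lib_MP_bfd926_sq.SQLU

/-!
# The residue of the scaled inverse

`unit_odd`: a rational number of norm 1 is `a / b` with odd `a`, `b`, so `x - 1 = (a - b) / b` has norm `≤ 1 / 2`.
`gred`: `Pn e w B j n = ∑ i ∈ Icc 1 B, XE j i * YE i n / DE i`. The scaled term `i`
(`2 ^ (ph B) * (4 ^ j)⁻¹ * XE j i * YE i n / DE i * (4 ^ n)⁻¹`) is zero unless `j ≤ i`, `n ≤ i`, and with `t = i - j`, `t' = i - n` its norm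
is at most `2 ^ (-(ph B - ph i + bX i t + bX i t'))` (`XE_bd`, `YE_bd`, `DE_norm`), by `I1` at most `1 / 2` except for
`i = B`, `t, t' ≤ 1` and `i = B - 1`, `t = t' = 0`. In these cases the norm is 1: `ph B = ph (B - 1)` (`ph_eq`),
`XE B B = 1`, `XE_unit`, `YE_unit` (the scaled numbers `4 ^ (-1) …`: `(4 ^ (B - 1))⁻¹ XE (B - 1) B` against
`(4 ^ B)⁻¹`: a factor 4 of norm `1 / 4`), so they are `1` up to norm `1 / 2`. Hence modulo 2 the entry `(j, n)` is
`[j ≥ B - 1][n ≥ B - 1] + [j = n = B - 1]`, that is `1 + 1 = 0` for `j = n = B - 1` and `1` for the other three,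
which is `gD B` (with the indices from 0).
-/

namespace MT2

private theorem DRed_int {z : ℤ} (h : (2 : ℤ) ∣ z) : padicNorm 2 (z : ℚ) ≤ 1 / 2 := by
  have h1 : ((2 ^ 1 : ℕ) : ℤ) ∣ z := by simpa using h
  have h2 := padicNorm.dvd_iff_norm_le.1 h1
  have h3 : ((2 : ℕ) : ℚ) ^ (-((1 : ℕ) : ℤ)) = 1 / 2 := by
    norm_num
  rwa [h3] at h2

theorem unit_odd {x : ℚ} (h : padicNorm 2 x = 1) : padicNorm 2 (x - 1) ≤ 1 / 2 := by
  have hd : (x.den : ℚ) ≠ 0 := by exact_mod_cast x.den_nz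
  have hx : x * x.den = x.num := Rat.mul_den_eq_num x
  have hn : padicNorm 2 ((x.den : ℤ) : ℚ) = padicNorm 2 (x.num : ℚ) := by
    rw [← hx, padicNorm.mul, h, one_mul, Int.cast_natCast]
  have h1 : ¬ ((2 : ℤ) ∣ (x.den : ℤ)) := by
    intro h2
    have h3 : ¬ ((2 : ℤ) ∣ x.num) := by
      intro h4
      have h5 := x.reduced
      have h6 : 2 ∣ x.num.natAbs := by omega
      have h7 : 2 ∣ x.den := by omega
      have h8 : 2 ∣ Nat.gcd x.num.natAbs x.den := Nat.dvd_gcd h6 h7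
      rw [h5] at h8
      omega
    have h4 : padicNorm 2 (x.num : ℚ) = 1 := (padicNorm.int_eq_one_iff _).2 (by exact_mod_cast h3)
    have h5 := DRed_int h2
    rw [hn, h4] at h5
    norm_num at h5
  have h2 : padicNorm 2 ((x.den : ℤ) : ℚ) = 1 := (padicNorm.int_eq_one_iff _).2 (by exact_mod_cast h1)
  have h3 : ¬ ((2 : ℤ) ∣ x.num) := by
    have h4 : padicNorm 2 (x.num : ℚ) = 1 := by rw [← hn, h2]
    have h5 := (padicNorm.int_eq_one_iff _).1 h4
    exact_mod_cast h5
  have h4 : x - 1 = ((x.num - x.den : ℤ) : ℚ) / ((x.den : ℤ) : ℚ) := by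
    rw [Int.cast_natCast, eq_div_iff hd, sub_mul, hx]
    push_cast
    ring
  rw [h4, padicNorm.div, h2, div_one]
  exact DRed_int (by omega)

/-- the scaled term of the sum -/
private noncomputable def DRed_T (e w B j n i : ℕ) : ℚ :=
  (2 : ℚ) ^ (ph e w B) * ((4 : ℚ) ^ j)⁻¹ * (XE e w j i * YE e w i n / DE e w i) * ((4 : ℚ) ^ n)⁻¹

private theorem DRed_zpow (z : ℤ) : padicNorm 2 ((2 : ℚ) ^ z) = (2 : ℚ) ^ (-z) := by
  have h0 : (2 : ℚ) ^ z ≠ 0 := zpow_ne_zero _ (by norm_num)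
  have h1 : padicValRat 2 (2 : ℚ) = 1 := by
    have h2 := padicValRat.self (p := 2) (by norm_num)
    exact_mod_cast h2
  rw [padicNorm.eq_zpow_of_nonzero h0, padicValRat.zpow, h1, mul_one]
  norm_num

private theorem DRed_four (j : ℕ) : padicNorm 2 ((4 : ℚ) ^ j)⁻¹ = (2 : ℚ) ^ (2 * (j : ℤ)) := by
  have h1 : ((4 : ℚ) ^ j)⁻¹ = (2 : ℚ) ^ (-(2 * (j : ℤ))) := by
    rw [zpow_neg, zpow_mul, zpow_natCast]
    norm_num
  rw [h1, DRed_zpow, neg_neg]

private theorem DRed_norm {e w B j n i : ℕ} (he : e ≤ 1) (hi : 1 ≤ i) (h : 3 * i + e ≤ w) :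
    padicNorm 2 (DRed_T e w B j n i) =
      (2 : ℚ) ^ (ph e w i - ph e w B + 2 * j + 2 * n - 4 * i) *
        (padicNorm 2 (XE e w j i) * padicNorm 2 (YE e w i n)) := by
  unfold DRed_T
  rw [padicNorm.mul, padicNorm.mul, padicNorm.mul, padicNorm.div, padicNorm.mul, DRed_zpow,
    DRed_four, DRed_four, DE_norm he hi h]
  have h1 : (2 : ℚ) ^ (ph e w i - ph e w B + 2 * j + 2 * n - 4 * i) =
      (2 : ℚ) ^ (-ph e w B) * (2 : ℚ) ^ (2 * (j : ℤ)) * (2 : ℚ) ^ (2 * (n : ℤ)) /
        (2 : ℚ) ^ (4 * (i : ℤ) - ph e w i) := by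
    rw [← zpow_add₀ (by norm_num), ← zpow_add₀ (by norm_num), ← zpow_sub₀ (by norm_num)]
    congr 1
    ring
  rw [h1]
  ring

/-- the general bound -/
private theorem DRed_le {e q a w B j n i : ℕ} (he : e ≤ 1) (hw : w + 2 * e = 4 * q + 1)
    (ha : 2 ^ a ∣ q) (h : 3 * i + e ≤ w) (hj : 1 ≤ j) (hn : 1 ≤ n) (hji : j ≤ i) (hni : n ≤ i)
    (hb : 1 ≤ ph e w B - ph e w i + bX e q a i (i - j) + bX e q a i (i - n)) :
    padicNorm 2 (DRed_T e w B j n i) ≤ 1 / 2 := by
  have hX := XE_bd (t := i - j) he hw ha (by omega) h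
  have hY := YE_bd (t := i - n) he hw ha (by omega) h
  rw [show i - (i - j) = j by omega] at hX
  rw [show i - (i - n) = n by omega] at hY
  rw [DRed_norm he (by omega) h]
  have h1 : (2 : ℚ) ^ (ph e w i - ph e w B + 2 * j + 2 * n - 4 * i) *
        (padicNorm 2 (XE e w j i) * padicNorm 2 (YE e w i n)) ≤
      (2 : ℚ) ^ (ph e w i - ph e w B + 2 * j + 2 * n - 4 * i) *
        ((2 : ℚ) ^ (2 * ((i - j : ℕ) : ℤ) - bX e q a i (i - j)) *
          (2 : ℚ) ^ (2 * ((i - n : ℕ) : ℤ) - bX e q a i (i - n))) := by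
    refine mul_le_mul_of_nonneg_left ?_ (by positivity)
    exact mul_le_mul hX hY (padicNorm.nonneg _) (by positivity)
  refine h1.trans ?_
  rw [← zpow_add₀ (by norm_num), ← zpow_add₀ (by norm_num)]
  have h2 : (1 / 2 : ℚ) = (2 : ℚ) ^ (-1 : ℤ) := by norm_num
  rw [h2]
  apply zpow_le_zpow_right₀ (by norm_num)
  rw [Nat.cast_sub hji, Nat.cast_sub hni]
  linarith

/-- the exceptional terms -/
private theorem DRed_one {e w B j n i : ℕ} {x y : ℤ} (he : e ≤ 1) (hi : 1 ≤ i) (h : 3 * i + e ≤ w)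
    (hp : ph e w i = ph e w B) (hX : padicNorm 2 (XE e w j i) = (2 : ℚ) ^ x)
    (hY : padicNorm 2 (YE e w i n) = (2 : ℚ) ^ y) (hx : x = 2 * (i : ℤ) - 2 * j)
    (hy : y = 2 * (i : ℤ) - 2 * n) :
    padicNorm 2 (DRed_T e w B j n i - 1) ≤ 1 / 2 := by
  apply unit_odd
  rw [DRed_norm he hi h, hX, hY, hp, hx, hy, ← zpow_add₀ (by norm_num), ← zpow_add₀ (by norm_num)]
  have h1 : ph e w B - ph e w B + 2 * (j : ℤ) + 2 * (n : ℤ) - 4 * (i : ℤ) +
      (2 * (i : ℤ) - 2 * (j : ℤ) + (2 * (i : ℤ) - 2 * (n : ℤ))) = 0 := by ring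
  rw [h1, zpow_zero]

/-- the residues of the terms -/
private def DRed_E (B j n i : ℕ) : ℚ :=
  (if i = B then (if B ≤ j + 1 ∧ B ≤ n + 1 then 1 else 0) else 0) +
    (if i + 1 = B then (if j = i ∧ n = i then 1 else 0) else 0)

private theorem DRed_term {e q a w d c B D j n i : ℕ} (he : e ≤ 1) (hw : w + 2 * e = 4 * q + 1)
    (ha : 2 ^ a ∣ q) (hd : 3 * d + e ≤ w) (hD : d + e = D + 1) (hB : B + e = c + 1)
    (hBd : B ≤ d) (hg : Good q a D c) (hj : 1 ≤ j) (hjB : j ≤ B) (hn : 1 ≤ n) (hnB : n ≤ B)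
    (hi : 1 ≤ i) (hiB : i ≤ B) :
    padicNorm 2 (DRed_T e w B j n i - DRed_E B j n i) ≤ 1 / 2 := by
  have h0 : (0 : ℚ) ≤ 1 / 2 := by norm_num
  have hc2 := hg.two_le
  have hce := hg.even
  have hcd := hg.ndvd
  have hB2 : 2 ≤ B := by omega
  have hnt : nt e B = c := by
    unfold nt
    omega
  have hphe : ph e w B = ph e w (B - 1) := by
    have h1 := ph_eq (e := e) (q := q) (a := a) (w := w) (n := B - 1) he hw ha (by omega)
      (by omega) (by rw [show B - 1 + 1 = B by omega, hnt]; exact hce)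
      (by rw [show B - 1 + 1 = B by omega, hnt]; exact hcd)
    rwa [show B - 1 + 1 = B by omega] at h1
  have hnB' : 3 * B + e ≤ w := by omega
  by_cases hji : j ≤ i
  · by_cases hni : n ≤ i
    · by_cases hcB : i = B ∧ B ≤ j + 1 ∧ B ≤ n + 1
      · obtain ⟨rfl, hj1, hn1⟩ := hcB
        have hE : DRed_E i j n i = 1 := by
          unfold DRed_E
          rw [if_pos rfl, if_pos ⟨hj1, hn1⟩, if_neg (by omega), add_zero]
        rw [hE]
        have hXX : padicNorm 2 (XE e w j i) = (2 : ℚ) ^ (2 * (i : ℤ) - 2 * j) := by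
          rcases Nat.lt_or_ge j i with h1 | h1
          · have h2 : j = i - 1 := by omega
            have h3 := XE_unit (n := i) he hw ha hB2 hnB' (by rw [hnt]; exact hce)
              (by rw [hnt]; exact hcd)
            rw [← h2] at h3
            rw [h3]
            have h4 : 2 * (i : ℤ) - 2 * j = 2 := by omega
            rw [h4]
            norm_num
          · have h2 : j = i := by omega
            rw [h2, XE_self he hi hnB', sub_self, zpow_zero, padicNorm.one]
        have hYY : padicNorm 2 (YE e w i n) = (2 : ℚ) ^ (2 * (i : ℤ) - 2 * n) := by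
          rcases Nat.lt_or_ge n i with h1 | h1
          · have h2 : n = i - 1 := by omega
            have h3 := YE_unit (n := i) he hw ha hB2 hnB' (by rw [hnt]; exact hce)
              (by rw [hnt]; exact hcd)
            rw [← h2] at h3
            rw [h3]
            have h4 : 2 * (i : ℤ) - 2 * n = 2 := by omega
            rw [h4]
            norm_num
          · have h2 : n = i := by omega
            rw [h2, YE_self he hi hnB', sub_self, zpow_zero, padicNorm.one]
        exact DRed_one he hi hnB' rfl hXX hYY rfl rfl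
      · by_cases hcC : i + 1 = B ∧ j = i ∧ n = i
        · obtain ⟨h1, h2, h3⟩ := hcC
          subst h2
          subst h3
          have hE : DRed_E B n n n = 1 := by
            unfold DRed_E
            rw [if_neg (by omega), if_pos h1, if_pos ⟨rfl, rfl⟩, zero_add]
          rw [hE]
          have hj3 : 3 * n + e ≤ w := by omega
          refine DRed_one (x := 0) (y := 0) he hi hj3 ?_ ?_ ?_ (by ring) (by ring)
          · rw [hphe, show B - 1 = n by omega]
          · rw [XE_self he hi hj3, zpow_zero, padicNorm.one]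
          · rw [YE_self he hi hj3, zpow_zero, padicNorm.one]
        · have hE : DRed_E B j n i = 0 := by
            unfold DRed_E
            have hE1 : (if i = B then (if B ≤ j + 1 ∧ B ≤ n + 1 then (1 : ℚ) else 0) else 0) = 0 := by
              split_ifs with h1 h2
              · exact absurd ⟨h1, h2⟩ hcB
              · rfl
              · rfl
            have hE2 : (if i + 1 = B then (if j = i ∧ n = i then (1 : ℚ) else 0) else 0) = 0 := by
              split_ifs with h1 h2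
              · exact absurd ⟨h1, h2⟩ hcC
              · rfl
              · rfl
            rw [hE1, hE2, add_zero]
          rw [hE, sub_zero]
          have hI := I1 (t := i - j) (t' := i - n) he hw ha hd hD hB hBd hg hi hiB (by omega)
            (by omega)
          refine DRed_le he hw ha (by omega) hj hn hji hni (hI.2 ?_ ?_)
          · rintro ⟨h1, h2, h3⟩
            exact hcB ⟨h1, by omega, by omega⟩
          · rintro ⟨h1, h2, h3⟩
            exact hcC ⟨h1, by omega, by omega⟩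
    · have hT : DRed_T e w B j n i = 0 := by
        unfold DRed_T
        rw [YE_gt (by omega)]
        ring
      have hE : DRed_E B j n i = 0 := by
        unfold DRed_E
        rw [if_neg (by omega)]
        split_ifs with h1 h2
        · omega
        · norm_num
        · norm_num
      rw [hT, hE, sub_zero, padicNorm.zero]
      exact h0
  · have hT : DRed_T e w B j n i = 0 := by
      unfold DRed_T
      rw [XE_gt (by omega)]
      ring
    have hE : DRed_E B j n i = 0 := by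
      unfold DRed_E
      rw [if_neg (by omega)]
      split_ifs with h1 h2
      · omega
      · norm_num
      · norm_num
    rw [hT, hE, sub_zero, padicNorm.zero]
    exact h0

private theorem DRed_sumE {B j n : ℕ} (hB : 2 ≤ B) :
    ∑ i ∈ Finset.Icc 1 B, DRed_E B j n i =
      (if B ≤ j + 1 ∧ B ≤ n + 1 then 1 else 0) + (if j + 1 = B ∧ n + 1 = B then 1 else 0) := by
  unfold DRed_E
  rw [Finset.sum_add_distrib, Finset.sum_ite_eq', if_pos (Finset.mem_Icc.2 ⟨by omega, le_refl B⟩)]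
  congr 1
  rw [Finset.sum_eq_single (B - 1)]
  · rw [if_pos (by omega)]
    by_cases h : j = B - 1 ∧ n = B - 1
    · rw [if_pos h, if_pos (by omega)]
    · rw [if_neg h, if_neg (by omega)]
  · intro i _ h2
    rw [if_neg (by omega)]
  · intro h2
    exact absurd (Finset.mem_Icc.2 ⟨by omega, by omega⟩) h2

theorem gred {e q a w d c B D : ℕ} (he : e ≤ 1) (hw : w + 2 * e = 4 * q + 1)
    (ha : 2 ^ a ∣ q) (hd : 3 * d + e ≤ w) (hD : d + e = D + 1) (hB : B + e = c + 1)
    (hBd : B ≤ d) (hg : Good q a D c) (i j : Fin B) :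
    padicNorm 2 ((2 : ℚ) ^ (ph e w B) * ((4 : ℚ) ^ ((i : ℕ) + 1))⁻¹ *
        Pn e w B ((i : ℕ) + 1) ((j : ℕ) + 1) * ((4 : ℚ) ^ ((j : ℕ) + 1))⁻¹ - (gD B i j : ℚ)) ≤
      1 / 2 := by
  obtain ⟨J, hJ⟩ : ∃ J, J = (i : ℕ) + 1 := ⟨_, rfl⟩
  obtain ⟨N, hN⟩ : ∃ N, N = (j : ℕ) + 1 := ⟨_, rfl⟩
  have hi := i.isLt
  have hj := j.isLt
  have hc2 := hg.two_le
  have hB2 : 2 ≤ B := by omega
  rw [← hJ, ← hN]
  have h1 : (2 : ℚ) ^ (ph e w B) * ((4 : ℚ) ^ J)⁻¹ * Pn e w B J N * ((4 : ℚ) ^ N)⁻¹ =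
      ∑ k ∈ Finset.Icc 1 B, DRed_T e w B J N k := by
    unfold Pn DRed_T
    rw [Finset.mul_sum, Finset.sum_mul]
  have hgD : ∃ z : ℤ, (2 : ℤ) ∣ z ∧
      ∑ k ∈ Finset.Icc 1 B, DRed_E B J N k - (gD B i j : ℚ) = (z : ℚ) := by
    rw [DRed_sumE hB2]
    unfold gD
    rw [Matrix.of_apply]
    by_cases hA : B ≤ J + 1 ∧ B ≤ N + 1
    · rw [if_pos hA]
      by_cases hC : J + 1 = B ∧ N + 1 = B
      · rw [if_pos hC, if_neg (by omega)]
        exact ⟨2, by norm_num, by norm_num⟩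
      · rw [if_neg hC, if_pos (by omega)]
        exact ⟨0, by norm_num, by norm_num⟩
    · rw [if_neg hA, if_neg (by omega), if_neg (by omega)]
      exact ⟨0, by norm_num, by norm_num⟩
  obtain ⟨z, hz, hzE⟩ := hgD
  have h2 : (2 : ℚ) ^ (ph e w B) * ((4 : ℚ) ^ J)⁻¹ * Pn e w B J N * ((4 : ℚ) ^ N)⁻¹ -
      (gD B i j : ℚ) =
      ∑ k ∈ Finset.Icc 1 B, (DRed_T e w B J N k - DRed_E B J N k) + (z : ℚ) := by
    rw [h1, Finset.sum_sub_distrib, ← hzE]
    ring
  rw [h2]
  refine (padicNorm.nonarchimedean (p := 2)).trans (max_le ?_ (DRed_int hz))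
  refine padicNorm.sum_le' (fun k hk => ?_) (by norm_num)
  rw [Finset.mem_Icc] at hk
  exact DRed_term he hw ha hd hD hB hBd hg (by omega) (by omega) (by omega) (by omega) hk.1 hk.2

end MT2
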