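import Pool.Agent.Lib_MP_bfd926_dd.DDefs

/-!
# The residual polynomial of a pair

`gD b = U * V` with `U` the `b × 2` matrix with the columns `e_{b-2}`, `e_{b-2} + e_{b-1}` minus … precisely, modulo 2,
`gD b = e e^T + f f^T`, `e = e_{b-2}`, `f = e_{b-2} + e_{b-1}` (indices from 0): the entry `(b-2, b-2)` is `1 + 1 = 0`.
So `X • gD - 1 = -(1 - (X • U) * V)`, `U` the matrix with the columns `e`, `f`, `V = Uᵀ`; `Matrix.det_one_sub_mul_comm`:
`det (1 - (X • U) * V) = det (1 - V * (X • U))`, `V * U = !![1, 1; 1, 2] = !![1, 1; 1, 0]`, so the determinant is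
`(1 - X) * 1 - X * X = X ^ 2 + X + 1` up to sign in characteristic 2 (`CharTwo.neg_eq`, `CharTwo.sub_eq_add`).
`mult_two`: `X ^ 2 + X + 1 = (X - C x) * (X - C (x + 1))` in characteristic 2 and `x ≠ x + 1`; or the derivative is `1`.
-/

open Matrix

namespace MT2

/-- The matrix with the columns `e_{b-2}` and `e_{b-2} + e_{b-1}`. -/
private noncomputable def dtwoU (k : Type) [Field k] (c : ℕ) :
    Matrix (Fin (c + 2)) (Fin 2) (Polynomial k) :=
  Matrix.of fun i j => if j = 0 then (if (i : ℕ) = c then 1 else 0) else (if c ≤ (i : ℕ) then 1 else 0)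

private lemma dtwo_sum0 (R : Type) [CommRing R] (c : ℕ) :
    (∑ i : Fin (c + 2), if (i : ℕ) = c then (1 : R) else 0) = 1 := by
  rw [Finset.sum_eq_single (⟨c, by omega⟩ : Fin (c + 2))]
  · simp
  · intro i _ hi
    rw [if_neg]
    intro h
    exact hi (Fin.ext h)
  · intro h
    exact absurd (Finset.mem_univ _) h

private lemma dtwo_sum1 (R : Type) [CommRing R] (c : ℕ) :
    (∑ i : Fin (c + 2), if c ≤ (i : ℕ) then (1 : R) else 0) = 2 := by
  rw [Fin.sum_univ_castSucc, Fin.sum_univ_castSucc]
  have h : (∑ i : Fin c, if c ≤ ((Fin.castSucc (Fin.castSucc i) : Fin (c + 2)) : ℕ) then (1 : R) else 0)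
      = 0 := by
    apply Finset.sum_eq_zero
    intro i _
    rw [if_neg]
    have := i.isLt
    simp only [Fin.val_castSucc]
    omega
  rw [h, if_pos, if_pos]
  · norm_num
  · simp
  · simp

private lemma dtwo_VU (k : Type) [Field k] (c : ℕ) :
    (dtwoU k c)ᵀ * dtwoU k c = !![1, 1; 1, 2] := by
  ext i j : 1
  rw [Matrix.mul_apply]
  fin_cases i <;> fin_cases j
  · have : ∀ l : Fin (c + 2), (dtwoU k c)ᵀ 0 l * dtwoU k c l 0 = if (l : ℕ) = c then 1 else 0 := by
      intro l
      simp [dtwoU]
    refine (Finset.sum_congr rfl fun l _ => this l).trans ?_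
    rw [dtwo_sum0]
    simp
  · have : ∀ l : Fin (c + 2), (dtwoU k c)ᵀ 0 l * dtwoU k c l 1 = if (l : ℕ) = c then 1 else 0 := by
      intro l
      by_cases h : (l : ℕ) = c
      · simp [dtwoU, h]
      · simp [dtwoU, h]
    refine (Finset.sum_congr rfl fun l _ => this l).trans ?_
    rw [dtwo_sum0]
    simp
  · have : ∀ l : Fin (c + 2), (dtwoU k c)ᵀ 1 l * dtwoU k c l 0 = if (l : ℕ) = c then 1 else 0 := by
      intro l
      by_cases h : (l : ℕ) = c
      · simp [dtwoU, h]
      · simp [dtwoU, h]
    refine (Finset.sum_congr rfl fun l _ => this l).trans ?_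
    rw [dtwo_sum0]
    simp
  · have : ∀ l : Fin (c + 2), (dtwoU k c)ᵀ 1 l * dtwoU k c l 1 = if c ≤ (l : ℕ) then 1 else 0 := by
      intro l
      by_cases h : c ≤ (l : ℕ)
      · simp [dtwoU, h]
      · simp [dtwoU, h]
    refine (Finset.sum_congr rfl fun l _ => this l).trans ?_
    rw [dtwo_sum1]
    simp

theorem det_gD {k : Type} [Field k] [CharP k 2] (b : ℕ) (hb : 2 ≤ b) :
    resPoly k (gD b) = Polynomial.X ^ 2 + Polynomial.X + 1 := by
  obtain ⟨c, rfl⟩ : ∃ c, b = c + 2 := ⟨b - 2, by omega⟩
  have h2 : (2 : Polynomial k) = 0 := CharTwo.two_eq_zero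
  have hk2 : (2 : k) = 0 := CharTwo.two_eq_zero
  have hA : (Matrix.of fun i j : Fin (c + 2) =>
      Polynomial.X * Polynomial.C ((gD (c + 2) i j : ℤ) : k) - (if i = j then 1 else 0))
      = 1 - ((Polynomial.X : Polynomial k) • dtwoU k c) * (dtwoU k c)ᵀ := by
    ext i j : 1
    rw [Matrix.sub_apply, Matrix.smul_mul, Matrix.smul_apply, Matrix.mul_apply, Fin.sum_univ_two,
      Matrix.one_apply, Matrix.of_apply, CharTwo.sub_eq_add, CharTwo.sub_eq_add, add_comm]
    congr 1
    rw [smul_eq_mul]
    congr 1
    have hi := i.isLt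
    have hj := j.isLt
    by_cases h1 : c ≤ (i : ℕ)
    · by_cases h3 : c ≤ (j : ℕ)
      · by_cases h4 : (i : ℕ) = c
        · by_cases h5 : (j : ℕ) = c
          · have : gD (c + 2) i j = 0 := by
              simp only [gD, Matrix.of_apply]
              rw [if_neg]
              omega
            rw [this]
            simp [dtwoU, h4, h5, ← two_mul, h2]
            try norm_num [h2]
          · have : gD (c + 2) i j = 1 := by
              simp only [gD, Matrix.of_apply]
              rw [if_pos]
              omega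
            rw [this]
            simp [dtwoU, h4, h5, h3]
        · have : gD (c + 2) i j = 1 := by
            simp only [gD, Matrix.of_apply]
            rw [if_pos]
            omega
          rw [this]
          simp [dtwoU, h4, h1, h3]
      · have : gD (c + 2) i j = 0 := by
          simp only [gD, Matrix.of_apply]
          rw [if_neg]
          omega
        have h5 : (j : ℕ) ≠ c := by omega
        rw [this]
        simp [dtwoU, h5, h3]
    · have : gD (c + 2) i j = 0 := by
        simp only [gD, Matrix.of_apply]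
        rw [if_neg]
        omega
      have h5 : (i : ℕ) ≠ c := by omega
      rw [this]
      simp [dtwoU, h5, h1]
  rw [resPoly, hA, Matrix.det_one_sub_mul_comm, Matrix.mul_smul, dtwo_VU, Matrix.det_fin_two]
  simp only [Matrix.sub_apply, Matrix.smul_apply, Matrix.one_apply, smul_eq_mul, Matrix.of_apply,
    Matrix.cons_val', Matrix.cons_val_zero, Matrix.cons_val_one, Matrix.cons_val_fin_one,
    Fin.isValue, if_true, one_ne_zero, zero_ne_one, if_false]
  linear_combination (Polynomial.X ^ 2 - 2 * Polynomial.X) * h2 - Polynomial.X ^ 2 * h2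

theorem mult_two {k : Type} [Field k] [CharP k 2] (x : k) (hx : x ^ 2 + x + 1 = 0) :
    (Polynomial.X ^ 2 + Polynomial.X + 1 : Polynomial k).rootMultiplicity x = 1 := by
  have h2 : (2 : k) = 0 := CharTwo.two_eq_zero
  have h0 : (Polynomial.X ^ 2 + Polynomial.X + 1 : Polynomial k) ≠ 0 := by
    intro h
    have := congrArg (fun p => Polynomial.coeff p 2) h
    simp [Polynomial.coeff_X, Polynomial.coeff_one] at this
  have hroot : (Polynomial.X ^ 2 + Polynomial.X + 1 : Polynomial k).IsRoot x := by
    simp [Polynomial.IsRoot, hx]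
  have hge : 1 ≤ (Polynomial.X ^ 2 + Polynomial.X + 1 : Polynomial k).rootMultiplicity x :=
    (Polynomial.rootMultiplicity_pos h0).2 hroot
  apply le_antisymm _ hge
  by_contra hlt
  push Not at hlt
  have hder := (Polynomial.one_lt_rootMultiplicity_iff_isRoot h0).1 hlt
  have h3 := hder.2
  simp [Polynomial.IsRoot] at h3
  have h4 : (1 : k) = 0 := by linear_combination h3 - x * h2
  exact one_ne_zero h4

/-- The residue field has characteristic 2. -/
theorem char_two {K Γ : Type} [Field K] [LinearOrderedCommGroupWithZero Γ] (v : Valuation K Γ)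
    (hv : v 2 < 1) : CharP (IsLocalRing.ResidueField v.valuationSubring) 2 := by
  have h2 : ((2 : ℕ) : IsLocalRing.ResidueField v.valuationSubring) = 0 := by
    have hmem : (2 : K) ∈ v.valuationSubring := by
      rw [Valuation.mem_valuationSubring_iff]
      exact hv.le
    have e : ((2 : ℕ) : IsLocalRing.ResidueField v.valuationSubring)
        = IsLocalRing.residue v.valuationSubring (2 : v.valuationSubring) := by
      rw [map_ofNat]
      rfl
    rw [e, IsLocalRing.residue_eq_zero_iff]
    rw [Valuation.mem_maximalIdeal_iff]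
    exact hv
  have hp := CharP.charP_iff_prime_eq_zero (R := IsLocalRing.ResidueField v.valuationSubring)
    Nat.prime_two
  exact hp.2 h2

end MT2
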