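import Pool.Agent.Lib_MP_bfd926_dd.DBlk
import Pool.Agent.Lib_MP_bfd926_dd.DRed
import Pool.Agent.Lib_MP_bfd926_dd.DPert
import Pool.Agent.Lib_MP_bfd926_dd.DTwo
import Pool.Agent.Lib_MP_bfd926_sq.SQCutK

/-!
# The two eigenvalues of a pair

Please copy the proof of `cut_count` (SQCutK) with `blkQ`, `gred`, `pertD`, `det_gD`, `mult_two`, `char_two` (`x ≠ 0` as
`0 ^ 2 + 0 + 1 ≠ 0`), `ph_lower`, `ph_upper` (SQPh), `B ≥ 2` (`c ≥ 2`).
-/

open Matrix

namespace MT2

theorem nres_M {K Γ : Type} [Field K] [CharZero K] [IsAlgClosed K]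
    [LinearOrderedCommGroupWithZero Γ] (v : Valuation K Γ) (hv : v 2 < 1)
    {e q a w d c B D : ℕ} (he : e ≤ 1) (hw : w + 2 * e = 4 * q + 1)
    (ha : 2 ^ a ∣ q) (hd : 3 * d + e ≤ w) (hD : d + e = D + 1) (hB : B + e = c + 1)
    (hBd : B + 3 * Nat.log 2 w + 2 ≤ d) (hg : Good q a D c) (M N1 : Matrix (Fin d) (Fin d) K)
    (hN1 : ∀ i j, v (N1 i j) ≤ v 2 ^ (4 * (d - (j : ℕ))))
    (hM : ∀ i j, M i j =
      16 ^ ((i : ℕ) + 1) * ((NE e w ((i : ℕ) + 1) ((j : ℕ) + 1) : K) + N1 i j))
    (x : IsLocalRing.ResidueField v.valuationSubring) (hx : x ^ 2 + x + 1 = 0) :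
    nres v M.charpoly.roots ((2 : K) ^ (ph e w B)) x = 1 := by
  obtain ⟨C, rfl⟩ : ∃ C, d = B + C := ⟨d - B, by omega⟩
  have hc2 := hg.two_le
  have hB1 : 1 ≤ B := by omega
  have hC1 : 1 ≤ C := by omega
  obtain ⟨Pi, hAP, hPn, hPi, hP, hQ, hS⟩ := blkQ he hw ha hd hD hB hC1 hg
  have hlow := ph_lower (e := e) (w := w) (n := B) he hB1 (by omega)
  have hupp := ph_upper (e := e) (w := w) (n := B) he hB1 (by omega)
  set f : ℚ →+* K := Rat.castHom K with hf
  have hfa : ∀ q : ℚ, f q = (q : K) := fun q => rfl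
  have hA : (blkA ℚ e w B).map f = blkA K e w B := by
    ext i j
    simp [blkA, hfa]
  have hB' : (blkB ℚ e w B C).map f = blkB K e w B C := by
    ext i j
    simp [blkB, hfa]
  have hC' : (blkC ℚ e w B C).map f = blkC K e w B C := by
    ext i j
    simp [blkC, hfa]
  have hE : (blkE ℚ e w B C).map f = blkE K e w B C := by
    ext i j
    simp [blkE, hfa]
  have hAP' : blkA K e w B * Pi.map f = 1 := by
    rw [← hA, ← Matrix.map_mul, hAP]
    exact Matrix.map_one f (map_zero f) (map_one f)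
  have hCP : blkC K e w B C * Pi.map f = (blkC ℚ e w B C * Pi).map f := by
    rw [← hC', ← Matrix.map_mul]
  have hPB : Pi.map f * blkB K e w B C = (Pi * blkB ℚ e w B C).map f := by
    rw [← hB', ← Matrix.map_mul]
  have hS' : blkE K e w B C - blkC K e w B C * Pi.map f * blkB K e w B C =
      (blkE ℚ e w B C - blkC ℚ e w B C * Pi * blkB ℚ e w B C).map f := by
    rw [← hC', ← hB', ← hE, ← Matrix.map_mul, ← Matrix.map_mul]
    ext i j
    simp only [Matrix.sub_apply, Matrix.map_apply, map_sub]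
  have hpow : ∀ j : ℕ, j ≤ B + C →
      v (2 : K) ^ (4 * (B + C - j)) = v (2 : K) ^ (4 * ((B : ℤ) + C - (j : ℤ))) := by
    intro j hj
    rw [← zpow_natCast]
    congr 1
    push_cast [Nat.cast_sub hj]
    ring
  have hx0 : x ≠ 0 := by
    rintro rfl
    have h9 : (0 : IsLocalRing.ResidueField v.valuationSubring) ^ 2 + 0 + 1 = 1 := by ring
    rw [h9] at hx
    exact one_ne_zero hx
  have hcount := pertD v hv (L := Nat.log 2 w) (M := ph e w B) hB1 (by omega)
    (by omega) (by omega)
    (blkA K e w B) (Pi.map f)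
    (Matrix.of fun i j : Fin B => N1 (Fin.castAdd C i) (Fin.castAdd C j))
    (blkB K e w B C)
    (Matrix.of fun (i : Fin B) (j : Fin C) => N1 (Fin.castAdd C i) (Fin.natAdd B j))
    (blkC K e w B C)
    (Matrix.of fun (i : Fin C) (j : Fin B) => N1 (Fin.natAdd B i) (Fin.castAdd C j))
    (blkE K e w B C)
    (Matrix.of fun i j : Fin C => N1 (Fin.natAdd B i) (Fin.natAdd B j))
    (gD B)
    hAP'
    (fun i j => by simpa [blkB] using val_int v _)
    (fun i j => by simpa [blkC] using val_int v _)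
    (fun i j => by
      have h1 := val_zpow v hv (Pi i j) (EE w : ℤ) (hPi i j)
      rw [Matrix.map_apply, hfa]
      convert h1 using 2
      simp [EE])
    (fun i j => by
      have h1 := gred he hw ha hd hD hB (by omega) hg i j
      rw [← hPn i j] at h1
      have h2 := val_zpow v hv _ (-1) (h1.trans (le_of_eq (by norm_num)))
      rw [neg_neg, zpow_one] at h2
      refine lt_of_le_of_lt (le_of_eq ?_) (h2.trans_lt hv)
      congr 1
      rw [Matrix.map_apply, hfa]
      push_cast
      rfl)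
    (fun i j => by
      have h1 := val_zpow v hv _ _ (hP i j)
      rw [hCP, Matrix.map_apply, hfa]
      refine h1.trans (le_of_eq ?_)
      congr 1
      ring)
    (fun i j => by
      have h1 := val_zpow v hv _ _ (hQ i j)
      rw [hPB, Matrix.map_apply, hfa]
      refine h1.trans (le_of_eq ?_)
      congr 1
      ring)
    (fun i j => by
      have h1 := val_zpow v hv _ _ (hS i j)
      rw [hS', Matrix.map_apply, hfa]
      refine h1.trans (le_of_eq ?_)
      congr 1
      ring)
    (fun i j => by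
      have h1 := hN1 (Fin.castAdd C i) (Fin.castAdd C j)
      rw [Matrix.of_apply]
      refine h1.trans (le_of_eq ?_)
      rw [hpow _ (by simp; omega)]
      simp)
    (fun i j => by
      have h1 := hN1 (Fin.castAdd C i) (Fin.natAdd B j)
      rw [Matrix.of_apply]
      refine h1.trans (le_of_eq ?_)
      rw [hpow _ (by simp)]
      congr 1
      simp only [Fin.val_natAdd]
      push_cast
      ring)
    (fun i j => by
      have h1 := hN1 (Fin.natAdd B i) (Fin.castAdd C j)
      rw [Matrix.of_apply]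
      refine h1.trans (le_of_eq ?_)
      rw [hpow _ (by simp; omega)]
      simp)
    (fun i j => by
      have h1 := hN1 (Fin.natAdd B i) (Fin.natAdd B j)
      rw [Matrix.of_apply]
      refine h1.trans (le_of_eq ?_)
      rw [hpow _ (by simp)]
      congr 1
      simp only [Fin.val_natAdd]
      push_cast
      ring)
    x hx0
  haveI := char_two v hv
  rw [det_gD B (by omega), mult_two x hx] at hcount
  refine Eq.trans (congrArg (fun p : Polynomial K =>
    nres v p.roots ((2 : K) ^ (ph e w B)) x) ?_) hcount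
  -- the characteristic polynomials
  set N' : Matrix (Fin (B + C)) (Fin (B + C)) K := Matrix.of fun i j =>
    (4 : K) ^ ((i : ℕ) + 1) * ((NE e w ((i : ℕ) + 1) ((j : ℕ) + 1) : K) + N1 i j) *
      4 ^ ((j : ℕ) + 1) with hN'
  have h4 : (4 : K) ≠ 0 := by
    have h40 : ((4 : ℕ) : K) ≠ 0 := Nat.cast_ne_zero.2 (by norm_num)
    simpa using h40
  have h1 : M.charpoly = N'.charpoly := by
    have hMeq : M = Matrix.diagonal (fun i : Fin (B + C) => (4 : K) ^ ((i : ℕ) + 1)) *
        (N' * Matrix.diagonal (fun i : Fin (B + C) => ((4 : K) ^ ((i : ℕ) + 1))⁻¹)) := by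
      ext i j
      rw [Matrix.diagonal_mul, Matrix.mul_diagonal, hM, hN', Matrix.of_apply]
      have h5 : (4 : K) ^ ((j : ℕ) + 1) ≠ 0 := pow_ne_zero _ h4
      have h6 : (16 : K) ^ ((i : ℕ) + 1) = 4 ^ ((i : ℕ) + 1) * 4 ^ ((i : ℕ) + 1) := by
        rw [← mul_pow]
        norm_num
      rw [h6]
      field_simp
    rw [hMeq, Matrix.charpoly_mul_comm, Matrix.mul_assoc, Matrix.diagonal_mul_diagonal]
    have h7 : (Matrix.diagonal fun i : Fin (B + C) =>
        ((4 : K) ^ ((i : ℕ) + 1))⁻¹ * (4 : K) ^ ((i : ℕ) + 1)) = 1 := by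
      rw [← Matrix.diagonal_one]
      congr 1
      funext i
      exact inv_mul_cancel₀ (pow_ne_zero _ h4)
    rw [h7, Matrix.mul_one]
  rw [h1, ← Matrix.charpoly_reindex finSumFinEquiv (fromBlocks _ _ _ _)]
  congr 1
  ext i j
  rw [Matrix.reindex_apply, Matrix.submatrix_apply]
  refine Fin.addCases (fun i => ?_) (fun i => ?_) i <;>
    refine Fin.addCases (fun j => ?_) (fun j => ?_) j
  · simp [hN', blkA]
  · simp [hN', blkB, add_assoc]
  · simp [hN', blkC, add_assoc]
  · simp [hN', blkE, add_assoc]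

end MT2
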