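import Pool.Agent.Lib_MP_bfd926_sq.SQDefs

/-!
# The pairs of eigenvalues: definitions

`w + 2 * e = 4 * q + 1`, `e ≤ 1`, `2 ^ a ∣ q`, `1 ≤ a`, `1 ≤ q`; the weight is `k = 4 * w + 2 * e`, that is
`k = 16 * q - 2` (`e = 1`) or `k = 16 * q + 4` (`e = 0`).

* `nt e n = n + e - 1`: the shifted index of the index `n ≥ 1`. One has `w - 2 * n = 2 * (2 * q - nt e n) - 1`.
* `dl q a ν`: the excess `max 0 (v₂(2 q - ν) - (a + 1))`; zero for odd `ν`.
* `Sd q a x y`: the sum of `dl` over `x < ν ≤ y`.
* `bX e q a n t`: a lower bound for the valuations of `4 ^ t * XE e w (n - t) n`,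
  `4 ^ t * YE e w n (n - t)`.
* `bL e q a m s`: a lower bound for the valuations of `4 ^ s * LE e w (m + s) m`,
  `4 ^ s * UE e w m (m + s)`.
* `Good q a D c`: the conditions on the shifted index `c` which imply that the indices with the
  shifted indices `c - 1`, `c` form a pair.
* `resPoly k G0`: `det (X * G0 - 1)` over `k`.
* `nres v R π x`: the number of the `r ∈ R` (with multiplicity) such that `r / π` has the residue `x`.
* `gD b`: the residue of the scaled inverse of the upper left block (only the last two rows and columns).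
-/

namespace MT2

/-- The shifted index. -/
def nt (e n : ℕ) : ℕ := n + e - 1

/-- The excess. -/
def dl (q a ν : ℕ) : ℕ := padicValNat 2 (2 * q - ν) - (a + 1)

/-- The sum of the excesses. -/
def Sd (q a x y : ℕ) : ℕ := ∑ ν ∈ Finset.Ioc x y, dl q a ν

/-- Lower bound for the entries of the inverse factors. -/
def bX (e q a n t : ℕ) : ℤ :=
  if t = 0 then 0
  else (t : ℤ) - (if Even (nt e n) then 1 else 0) - Sd q a (nt e n - (t + 1) / 2) (nt e n)

/-- Lower bound for the entries of the factors. -/
def bL (e q a m s : ℕ) : ℤ :=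
  if s = 0 then 0 else (s : ℤ) - 1 - Sd q a (nt e m) (nt e m + (s + 1) / 2)

/-- The conditions for a pair. -/
structure Good (q a D c : ℕ) : Prop where
  even : Even c
  two_le : 2 ≤ c
  ndvd : ¬ 2 ^ (a + 1) ∣ c
  left : ∀ x, x < c → Sd q a x c + 1 ≤ c - x
  right : ∀ y, c < y → y ≤ D → Sd q a c y + 1 ≤ y - c

/-- The residue of the scaled inverse block. -/
def gD (b : ℕ) : Matrix (Fin b) (Fin b) ℤ :=
  Matrix.of fun i j =>
    if b ≤ (i : ℕ) + 2 ∧ b ≤ (j : ℕ) + 2 ∧ (b = (i : ℕ) + 1 ∨ b = (j : ℕ) + 1) then 1 else 0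

/-- The residual polynomial `det (X * G0 - 1)`. -/
noncomputable def resPoly (k : Type) [Field k] {m : Type} [Fintype m] [DecidableEq m]
    (G0 : Matrix m m ℤ) : Polynomial k :=
  (Matrix.of fun i j => Polynomial.X * Polynomial.C ((G0 i j : ℤ) : k) -
    (if i = j then 1 else 0)).det

open Classical in
/-- The number of the elements `r` of `R` such that `r / π` has the residue `x`. -/
noncomputable def nres {K Γ : Type} [Field K] [LinearOrderedCommGroupWithZero Γ]
    (v : Valuation K Γ) (R : Multiset K) (π : K)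
    (x : IsLocalRing.ResidueField v.valuationSubring) : ℕ :=
  Multiset.card (R.filter fun r => ∃ h : r / π ∈ v.valuationSubring,
    IsLocalRing.residue v.valuationSubring ⟨r / π, h⟩ = x)

end MT2
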