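import Pool.Agent.Lib_MP_bfd926_dd.DFrob
import Pool.Agent.Lib_MP_bfd926_dd.DTwo

/-!
# The number of the rational factors of odd degree

Let `ω` be as in `exists_omega`; the roots of `x ^ 2 + x + 1` in the residue field (characteristic 2, `char_two`)
are `ω` and `ω ^ 2 = ω + 1 ≠ ω`. Call `r ∈ ℂ` good if for some `c ∈ S` the number `r / 2 ^ σ c` is in the valuation ring with
the residue `ω` or `ω ^ 2`; then `v r = v 2 ^ σ c`, so `c` is unique (`hσ`). For a multiset `R` the number of the good
elements is `∑ c ∈ S, (nres v R (2 ^ σ c) ω + nres v R (2 ^ σ c) (ω ^ 2))` (`good_card`).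
For the roots of `P` it is `2 * S.card` (`h`). For the roots of a rational polynomial `Q` it is even (`frob` with
`c = 2 ^ σ c`, as `ω ^ 2 ^ 2 = ω`), so if `Q.natDegree` is odd at least one root of `Q` is not good.
The roots of `s.prod.map` are the sum of the roots of the `Q ∈ s` and a submultiset of the roots of `P`
(`Polynomial.roots.le_of_dvd`), so `s.card` is at most the number of the roots of `P` which are not good.
-/

open Polynomial

namespace MT2

private theorem DOdd_val {Γ : Type} [LinearOrderedCommGroupWithZero Γ] (v : Valuation ℂ Γ)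
    (π r : ℂ) (hπ : π ≠ 0) (x : IsLocalRing.ResidueField v.valuationSubring) (hx : x ≠ 0)
    (h : ∃ h : r / π ∈ v.valuationSubring,
      IsLocalRing.residue v.valuationSubring ⟨r / π, h⟩ = x) : v r = v π := by
  obtain ⟨hm, hr⟩ := h
  have hu : IsUnit (⟨r / π, hm⟩ : v.valuationSubring) := by
    rw [← IsLocalRing.residue_ne_zero_iff_isUnit, hr]
    exact hx
  obtain ⟨w, hw⟩ := hu.exists_right_inv
  have h1 : v (r / π) ≤ 1 := (Valuation.mem_valuationSubring_iff v _).mp hm
  have h2 : v (w : ℂ) ≤ 1 := (Valuation.mem_valuationSubring_iff v _).mp w.2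
  have h3 : r / π * (w : ℂ) = 1 := congrArg (fun a : v.valuationSubring => (a : ℂ)) hw
  have h4 : v (r / π) * v (w : ℂ) = 1 := by rw [← map_mul, h3, map_one]
  have h5 : v (r / π) = 1 := by
    refine le_antisymm h1 ?_
    calc (1 : Γ) = v (r / π) * v (w : ℂ) := h4.symm
      _ ≤ v (r / π) * 1 := mul_le_mul_right h2 _
      _ = v (r / π) := mul_one _
  have h6 : v π ≠ 0 := (Valuation.ne_zero_iff v).mpr hπ
  rw [map_div₀, div_eq_iff h6, one_mul] at h5
  exact h5

private theorem DOdd_add {Γ : Type} [LinearOrderedCommGroupWithZero Γ] (v : Valuation ℂ Γ)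
    (R T : Multiset ℂ) (π : ℂ) (x : IsLocalRing.ResidueField v.valuationSubring) :
    nres v (R + T) π x = nres v R π x + nres v T π x := by
  unfold nres
  rw [Multiset.filter_add, Multiset.card_add]

private theorem DOdd_zero {Γ : Type} [LinearOrderedCommGroupWithZero Γ] (v : Valuation ℂ Γ)
    (π : ℂ) (x : IsLocalRing.ResidueField v.valuationSubring) :
    nres v 0 π x = 0 := by
  unfold nres
  rw [Multiset.filter_zero, Multiset.card_zero]

private theorem DOdd_single_le {Γ : Type} [LinearOrderedCommGroupWithZero Γ] (v : Valuation ℂ Γ)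
    (r π : ℂ) (x : IsLocalRing.ResidueField v.valuationSubring) :
    nres v {r} π x ≤ 1 := by
  classical
  unfold nres
  exact (Multiset.card_le_card (Multiset.filter_le _ _)).trans (Multiset.card_singleton r).le

private theorem DOdd_single_zero {Γ : Type} [LinearOrderedCommGroupWithZero Γ]
    (v : Valuation ℂ Γ) (r π : ℂ) (x : IsLocalRing.ResidueField v.valuationSubring)
    (h : ¬ ∃ h : r / π ∈ v.valuationSubring,
      IsLocalRing.residue v.valuationSubring ⟨r / π, h⟩ = x) :
    nres v {r} π x = 0 := by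
  classical
  unfold nres
  rw [Multiset.card_eq_zero, Multiset.filter_eq_nil]
  intro a ha
  rw [Multiset.mem_singleton] at ha
  rw [ha]
  exact h

/-- the number of the good elements -/
private noncomputable def DOddN {Γ : Type} [LinearOrderedCommGroupWithZero Γ] (v : Valuation ℂ Γ)
    (S : Finset ℕ) (σ : ℕ → ℤ) (w : IsLocalRing.ResidueField v.valuationSubring)
    (R : Multiset ℂ) : ℕ :=
  ∑ c ∈ S, (nres v R ((2 : ℂ) ^ σ c) w + nres v R ((2 : ℂ) ^ σ c) (w ^ 2))

private theorem DOddN_add {Γ : Type} [LinearOrderedCommGroupWithZero Γ] (v : Valuation ℂ Γ)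
    (S : Finset ℕ) (σ : ℕ → ℤ) (w : IsLocalRing.ResidueField v.valuationSubring)
    (R T : Multiset ℂ) : DOddN v S σ w (R + T) = DOddN v S σ w R + DOddN v S σ w T := by
  unfold DOddN
  rw [← Finset.sum_add_distrib]
  refine Finset.sum_congr rfl fun c _ => ?_
  rw [DOdd_add, DOdd_add]
  ring

private theorem DOddN_zero {Γ : Type} [LinearOrderedCommGroupWithZero Γ] (v : Valuation ℂ Γ)
    (S : Finset ℕ) (σ : ℕ → ℤ) (w : IsLocalRing.ResidueField v.valuationSubring) :
    DOddN v S σ w 0 = 0 := by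
  unfold DOddN
  refine Finset.sum_eq_zero fun c _ => ?_
  rw [DOdd_zero, DOdd_zero, add_zero]

private theorem DOddN_le {Γ : Type} [LinearOrderedCommGroupWithZero Γ] (v : Valuation ℂ Γ)
    (hv : v 2 < 1) (S : Finset ℕ) (σ : ℕ → ℤ) (hσ : Set.InjOn σ S)
    (w : IsLocalRing.ResidueField v.valuationSubring) (hw0 : w ≠ 0) (hw1 : w ≠ w ^ 2)
    (R : Multiset ℂ) : DOddN v S σ w R ≤ Multiset.card R := by
  have h2 : (v 2 : Γ) ≠ 0 := by
    rw [Valuation.ne_zero_iff]
    norm_num
  have key : ∀ r : ℂ, DOddN v S σ w {r} ≤ 1 := by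
    intro r
    have hval : ∀ c, ∀ x : IsLocalRing.ResidueField v.valuationSubring, x ≠ 0 →
        (∃ h : r / (2 : ℂ) ^ σ c ∈ v.valuationSubring,
          IsLocalRing.residue v.valuationSubring ⟨r / (2 : ℂ) ^ σ c, h⟩ = x) →
        v r = v 2 ^ σ c := by
      intro c x hx h
      have h1 := DOdd_val v ((2 : ℂ) ^ σ c) r (zpow_ne_zero _ (by norm_num)) x hx h
      rw [h1, map_zpow₀]
    have hinj : ∀ c ∈ S, ∀ c' ∈ S, v 2 ^ σ c = v 2 ^ σ c' → c = c' := by
      intro c hc c' hc' h
      exact hσ hc hc' (zpow_right_injective₀ (zero_lt_iff.mpr h2) hv.ne h)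
    have hw2 : w ^ 2 ≠ 0 := pow_ne_zero 2 hw0
    by_cases hex : ∃ c ∈ S, v r = v 2 ^ σ c
    · obtain ⟨c0, hc0, hr⟩ := hex
      unfold DOddN
      rw [Finset.sum_eq_single c0]
      · by_cases h1 : ∃ h : r / (2 : ℂ) ^ σ c0 ∈ v.valuationSubring,
          IsLocalRing.residue v.valuationSubring ⟨r / (2 : ℂ) ^ σ c0, h⟩ = w
        · have h3 : ¬ ∃ h : r / (2 : ℂ) ^ σ c0 ∈ v.valuationSubring,
              IsLocalRing.residue v.valuationSubring ⟨r / (2 : ℂ) ^ σ c0, h⟩ = w ^ 2 := by
            rintro ⟨h4, h5⟩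
            obtain ⟨h6, h7⟩ := h1
            exact hw1 (h7.symm.trans h5)
          rw [DOdd_single_zero v r _ _ h3, add_zero]
          exact DOdd_single_le v r _ _
        · rw [DOdd_single_zero v r _ _ h1, zero_add]
          exact DOdd_single_le v r _ _
      · intro c hc hcc
        rw [DOdd_single_zero v r _ w fun h =>
            hcc (hinj c hc c0 hc0 ((hval c _ hw0 h).symm.trans hr)),
          DOdd_single_zero v r _ (w ^ 2) fun h =>
            hcc (hinj c hc c0 hc0 ((hval c _ hw2 h).symm.trans hr)), add_zero]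
      · intro h
        exact absurd hc0 h
    · unfold DOddN
      rw [Finset.sum_eq_zero]
      · exact Nat.zero_le _
      · intro c hc
        rw [DOdd_single_zero v r _ w fun h => hex ⟨c, hc, hval c _ hw0 h⟩,
          DOdd_single_zero v r _ (w ^ 2) fun h => hex ⟨c, hc, hval c _ hw2 h⟩, add_zero]
  induction R using Multiset.induction_on with
  | empty =>
    rw [DOddN_zero]
    exact Nat.zero_le _
  | cons r R ih =>
    rw [← Multiset.singleton_add, DOddN_add, Multiset.card_add, Multiset.card_singleton]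
    exact Nat.add_le_add (key r) ih

theorem odd_count {Γ : Type} [LinearOrderedCommGroupWithZero Γ] (v : Valuation ℂ Γ)
    (hv : v 2 < 1) (P : Polynomial ℂ) (hP : P ≠ 0) (S : Finset ℕ) (σ : ℕ → ℤ)
    (hσ : Set.InjOn σ S)
    (h : ∀ c ∈ S, ∀ x : IsLocalRing.ResidueField v.valuationSubring, x ^ 2 + x + 1 = 0 →
      nres v P.roots ((2 : ℂ) ^ σ c) x = 1)
    (s : Multiset (Polynomial ℚ)) (hs : ∀ Q ∈ s, Odd Q.natDegree)
    (hd : s.prod.map (algebraMap ℚ ℂ) ∣ P) : s.card + 2 * S.card ≤ P.natDegree := by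
  have hchar := char_two v hv
  obtain ⟨w, hw⟩ := exists_omega v
  have hw0 : w ≠ 0 := by
    rintro rfl
    norm_num at hw
  have hww : w ^ 2 = w + 1 := by
    have h1 : w ^ 2 = -(w + 1) := by linear_combination hw
    rw [h1, CharTwo.neg_eq]
  have hw1 : w ≠ w ^ 2 := by
    intro h1
    rw [hww] at h1
    exact one_ne_zero (left_eq_add.mp h1)
  have hw' : (w ^ 2) ^ 2 + w ^ 2 + 1 = 0 := by
    have h3 : (w ^ 2) ^ 2 + w ^ 2 + 1 = (w ^ 2 + w + 1) * (w ^ 2 - w + 1) := by ring
    rw [h3, hw, zero_mul]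
  have hle := fun R => DOddN_le v hv S σ hσ w hw0 hw1 R
  have hinj : Function.Injective (algebraMap ℚ ℂ) := (algebraMap ℚ ℂ).injective
  -- one factor
  have hone : ∀ Q : Polynomial ℚ, Odd Q.natDegree →
      DOddN v S σ w (Q.map (algebraMap ℚ ℂ)).roots + 1 ≤
        Multiset.card (Q.map (algebraMap ℚ ℂ)).roots := by
    intro Q hQ
    have hQ0 : Q ≠ 0 := by
      rintro rfl
      simp at hQ
    have hcard : Multiset.card (Q.map (algebraMap ℚ ℂ)).roots = Q.natDegree :=
      IsAlgClosed.card_roots_map_eq_natDegree_of_injective Q hinj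
    have heven : Even (DOddN v S σ w (Q.map (algebraMap ℚ ℂ)).roots) := by
      unfold DOddN
      refine Finset.even_sum _ fun c _ => ?_
      have h1 := frob v hv Q hQ0 ((2 : ℚ) ^ σ c) (zpow_ne_zero _ (by norm_num)) w
      push_cast at h1
      rw [← h1]
      exact Even.add_self _
    rw [← hcard] at hQ
    refine Nat.succ_le_of_lt (lt_of_le_of_ne (hle _) ?_)
    intro h1
    rw [← h1] at hQ
    exact (Nat.not_even_iff_odd.mpr hQ) heven
  have hne : ∀ s : Multiset (Polynomial ℚ), (∀ Q ∈ s, Odd Q.natDegree) →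
      s.prod.map (algebraMap ℚ ℂ) ≠ 0 := by
    intro s hs
    rw [Ne, Polynomial.map_eq_zero_iff hinj, Multiset.prod_eq_zero_iff]
    intro h0
    have := hs 0 h0
    simp at this
  have hall : ∀ s : Multiset (Polynomial ℚ), (∀ Q ∈ s, Odd Q.natDegree) →
      DOddN v S σ w (s.prod.map (algebraMap ℚ ℂ)).roots + Multiset.card s ≤
        Multiset.card (s.prod.map (algebraMap ℚ ℂ)).roots := by
    intro s
    induction s using Multiset.induction_on with
    | empty =>
      intro _
      simp [DOddN_zero]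
    | cons Q s ih =>
      intro hs
      have h1 := hone Q (hs Q (Multiset.mem_cons_self Q s))
      have h2 := ih fun Q' hQ' => hs Q' (Multiset.mem_cons_of_mem hQ')
      have h3 := hne (Q ::ₘ s) hs
      rw [Multiset.prod_cons, Polynomial.map_mul] at h3 ⊢
      rw [Polynomial.roots_mul h3, DOddN_add, Multiset.card_add, Multiset.card_cons]
      omega
  have h1 := hall s hs
  have hsub : (s.prod.map (algebraMap ℚ ℂ)).roots ≤ P.roots := Polynomial.roots.le_of_dvd hP hd
  obtain ⟨T, hT⟩ := Multiset.le_iff_exists_add.mp hsub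
  have h2 : DOddN v S σ w P.roots = 2 * S.card := by
    unfold DOddN
    rw [Finset.sum_congr rfl fun c hc => by rw [h c hc w hw, h c hc (w ^ 2) hw']]
    simp [mul_comm]
  have h3 : Multiset.card P.roots = P.natDegree := IsAlgClosed.card_roots_eq_natDegree
  have h4 := hle T
  rw [hT, DOddN_add] at h2
  rw [hT, Multiset.card_add] at h3
  omega

end MT2
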