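import Pool.Agent.Lib_MP_bfd926_dd.DDefs

/-!
# The eigenvalues of `2 * N`

`det (X - 2 N) = 2 ^ d det (X / 2 - N)`: `(2 • N).charpoly = C (2 ^ d) * N.charpoly.comp (C (1 / 2) * X)`, whose roots are
the numbers `2 μ`; or use `Matrix.charpoly` of a triangular form; or show by the definition of `charpoly` that
`(2 • N).charpoly.comp (C 2 * X) = C (2 ^ d) * N.charpoly` (`Matrix.det_smul`, the ring hom `comp` commutes with `det`).
`nres_two`: `r / 2 ^ σ = μ / 2 ^ (σ - 1)` for `r = 2 μ`.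
-/

open Polynomial

namespace MT2

private theorem DRt_charpoly {d : ℕ} (N : Matrix (Fin d) (Fin d) ℂ) :
    ((2 : ℂ) • N).charpoly = N.charpoly.scaleRoots 2 := by
  apply Polynomial.funext
  intro r
  obtain ⟨s, rfl⟩ : ∃ s : ℂ, r = 2 * s := ⟨r / 2, by ring⟩
  rw [Polynomial.scaleRoots_eval_mul, Matrix.eval_charpoly, Matrix.eval_charpoly,
    Matrix.charpoly_natDegree_eq_dim, Fintype.card_fin]
  have h : Matrix.scalar (Fin d) (2 * s) - (2 : ℂ) • N = (2 : ℂ) • (Matrix.scalar (Fin d) s - N) := by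
    rw [smul_sub]
    congr 1
    ext i j
    by_cases hij : i = j
    · subst hij; simp [Matrix.scalar]
    · simp [Matrix.scalar, hij]
  rw [h, Matrix.det_smul, Fintype.card_fin]

theorem roots_two {d : ℕ} (N : Matrix (Fin d) (Fin d) ℂ) :
    ((2 : ℂ) • N).charpoly.roots = N.charpoly.roots.map (fun μ => 2 * μ) := by
  rw [DRt_charpoly, Polynomial.roots_scaleRoots _ (isUnit_iff_ne_zero.mpr two_ne_zero)]

theorem nres_two {Γ : Type} [LinearOrderedCommGroupWithZero Γ] (v : Valuation ℂ Γ)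
    (R : Multiset ℂ) (σ : ℤ) (x : IsLocalRing.ResidueField v.valuationSubring) :
    nres v (R.map (fun μ => 2 * μ)) ((2 : ℂ) ^ σ) x = nres v R ((2 : ℂ) ^ (σ - 1)) x := by
  classical
  unfold nres
  rw [Multiset.filter_map, Multiset.card_map]
  congr 1
  apply Multiset.filter_congr
  intro μ _
  have h : (2 * μ) / (2 : ℂ) ^ σ = μ / (2 : ℂ) ^ (σ - 1) := by
    rw [zpow_sub_one₀ (two_ne_zero' ℂ)]
    have h2 : ((2 : ℂ) ^ σ) ≠ 0 := zpow_ne_zero _ two_ne_zero
    field_simp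
  simp only [Function.comp]
  constructor
  · rintro ⟨h1, h2⟩
    refine ⟨h ▸ h1, ?_⟩
    rw [← h2]
    congr 1
    exact Subtype.ext h.symm
  · rintro ⟨h1, h2⟩
    refine ⟨h.symm ▸ h1, ?_⟩
    rw [← h2]
    congr 1
    exact Subtype.ext h

end MT2
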