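import Pool.Agent.Lib_MP_bfd926_dd.DCutK
import Pool.Agent.Lib_MP_bfd926_dd.DCount
import Pool.Agent.Lib_MP_bfd926_dd.DOdd
import Pool.Agent.Lib_MP_bfd926_dd.DRt
import Pool.Agent.Lib_MP_bfd926_sq.SQRed
import Pool.Agent.Lib_MP_bfd926_sq.SMat
import Pool.Agent.Lib_MP_bfd926_sq.SExV
import Pool.Agent.Lib_MP_bfd926_ab.ADiag

/-!
# The rational factors of odd degree of the characteristic polynomial of `T₂`
-/

open UpperHalfPlane PowerSeries
open scoped MatrixGroups ModularForm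

namespace MT2

theorem thmD_mat {Γ : Type} [LinearOrderedCommGroupWithZero Γ] (v : Valuation ℂ Γ) (hv : v 2 < 1)
    {q a e w d : ℕ} (he : e ≤ 1) (hq : 1 ≤ q) (ha : 2 ^ a ∣ q) (hw : w + 2 * e = 4 * q + 1)
    (hd3 : 3 * d + e ≤ w) (N N1 : Matrix (Fin d) (Fin d) ℂ)
    (hN1 : ∀ i j, v (N1 i j) ≤ v 2 ^ (4 * (d - (j : ℕ))))
    (hM : ∀ i j, ((2 : ℂ) • N) i j =
      16 ^ ((i : ℕ) + 1) * ((NE e w ((i : ℕ) + 1) ((j : ℕ) + 1) : ℂ) + N1 i j))
    (s : Multiset (Polynomial ℚ)) (hs : ∀ Q ∈ s, Odd Q.natDegree)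
    (hd : s.prod.map (algebraMap ℚ ℂ) ∣ N.charpoly) :
    2 ^ (a + 2) * s.card ≤ 7 * d + 2 ^ (a + 2) * (5 * Nat.log 2 w + 7) := by
  classical
  obtain ⟨L, hL⟩ : ∃ L, L = Nat.log 2 w := ⟨_, rfl⟩
  obtain ⟨D, hD⟩ : ∃ D, D = d + e - 1 := ⟨_, rfl⟩
  obtain ⟨n, hn⟩ : ∃ n, n = d - (3 * L + 3) := ⟨_, rfl⟩
  have hDq : D < 2 * q := by omega
  have hnD : n ≤ D := by omega
  have hDd : D ≤ d := by omega
  have h1 := count_goodD (q := q) (a := a) (D := D) (N := n) ha hDq hnD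
  obtain ⟨S, hS⟩ : ∃ S, S = (Finset.Icc 1 n).filter (Good q a D) := ⟨_, rfl⟩
  rw [← hS] at h1
  have hSm : ∀ c ∈ S, 1 ≤ c ∧ c ≤ n ∧ Good q a D c := by
    intro c hc
    rw [hS, Finset.mem_filter, Finset.mem_Icc] at hc
    exact ⟨hc.1.1, hc.1.2, hc.2⟩
  have hmon : N.charpoly ≠ 0 := (Matrix.charpoly_monic N).ne_zero
  have hlt : ∀ c₁ ∈ S, ∀ c₂ ∈ S, c₁ < c₂ →
      ph e w (c₁ + 1 - e) - 1 < ph e w (c₂ + 1 - e) - 1 := by
    intro c₁ h₁ c₂ h₂ hlt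
    obtain ⟨a1, a2, a3⟩ := hSm c₁ h₁
    obtain ⟨b1, b2, b3⟩ := hSm c₂ h₂
    obtain ⟨x, hx⟩ := a3.even
    obtain ⟨y, hy⟩ := b3.even
    have h := ph_good (e := e) (q := q) (a := a) (w := w) (d := d) (c := c₂) (B := c₂ + 1 - e)
      (D := D) (n := c₁ + 1 - e) he hw ha hd3 (by omega) (by omega) (by omega) b3
      (by omega) (by omega)
    omega
  have h2 := odd_count v hv N.charpoly hmon S (fun c => ph e w (c + 1 - e) - 1) ?_ ?_ s hs hd
  · rw [Matrix.charpoly_natDegree_eq_dim, Fintype.card_fin] at h2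
    have hlog : Nat.log 2 q ≤ L := by
      rw [hL]
      exact Nat.log_mono_right (by omega)
    have hdn : d ≤ n + (3 * L + 3) := by omega
    rw [← hL]
    have h3 : 2 ^ (a + 3) = 2 * 2 ^ (a + 2) := by ring
    rw [h3] at h1
    generalize 2 ^ (a + 2) = A at h1 ⊢
    have h4 : A * (s.card + 2 * S.card) ≤ A * (n + (3 * L + 3)) :=
      Nat.mul_le_mul le_rfl (h2.trans hdn)
    have h5 : A * Nat.log 2 q ≤ A * L := Nat.mul_le_mul le_rfl hlog
    nlinarith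
  · intro c₁ h₁ c₂ h₂ heq
    have e1 : ph e w (c₁ + 1 - e) - 1 = ph e w (c₂ + 1 - e) - 1 := heq
    rcases lt_trichotomy c₁ c₂ with h | h | h
    · have := hlt c₁ h₁ c₂ h₂ h
      omega
    · exact h
    · have := hlt c₂ h₂ c₁ h₁ h
      omega
  · intro c hc x hx
    obtain ⟨a1, a2, a3⟩ := hSm c hc
    have h := nres_M v hv (e := e) (q := q) (a := a) (w := w) (d := d) (c := c)
      (B := c + 1 - e) (D := D) he hw ha hd3 (by omega) (by omega) (by omega) a3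
      ((2 : ℂ) • N) N1 hN1 hM x hx
    rw [roots_two, nres_two] at h
    exact h

theorem thmD_q (q a e : ℕ) (he : e ≤ 1) (hq : 1 ≤ q) (ha : 2 ^ a ∣ q) (w : ℕ)
    (hw : w + 2 * e = 4 * q + 1)
    (T : Module.End ℂ (CuspForm 𝒮ℒ ((4 * w + 2 * e : ℕ) : ℤ)))
    [FiniteDimensional ℂ (CuspForm 𝒮ℒ ((4 * w + 2 * e : ℕ) : ℤ))]
    (hT : ∀ f, qExpansion 1 (T f) =
      uu (qExpansion 1 f) + C ((2 : ℂ) ^ (4 * w + 2 * e) / 2) * dbl (qExpansion 1 f))
    (s : Multiset (Polynomial ℚ)) (hs : ∀ Q ∈ s, Odd Q.natDegree)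
    (hd : s.prod.map (algebraMap ℚ ℂ) ∣ T.charpoly) :
    2 ^ (a + 2) * s.card ≤
      7 * Module.finrank ℂ (CuspForm 𝒮ℒ ((4 * w + 2 * e : ℕ) : ℤ)) +
        2 ^ (a + 2) * (5 * Nat.log 2 w + 7) := by
  obtain ⟨Γ, iΓ, v, hv⟩ := exists_val
  obtain ⟨b, cc, r, hc, hr, hM⟩ := matrix_T2 v hv.le e w he T hT
  have hd3 : 3 * ((w - e) / 3) + e ≤ w := by omega
  have hfr : Module.finrank ℂ (CuspForm 𝒮ℒ ((4 * w + 2 * e : ℕ) : ℤ)) = (w - e) / 3 := by
    rw [Module.finrank_eq_card_basis b, Fintype.card_fin]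
  rw [← LinearMap.charpoly_toMatrix T b] at hd
  have hM' : ∀ i j : Fin ((w - e) / 3), ((2 : ℂ) • LinearMap.toMatrix b b T) i j =
      16 ^ ((i : ℕ) + 1) * (NE e w ((i : ℕ) + 1) ((j : ℕ) + 1) : ℂ) +
        16 ^ ((i : ℕ) + 1) * ∑ l ∈ Finset.Ioc ((w - e) / 3) (2 * ((i : ℕ) + 1)),
          (NE e w ((i : ℕ) + 1) l : ℂ) * cc l ((j : ℕ) + 1) +
        2 ^ (4 * w + 2 * e) / 16 ^ ((i : ℕ) + 1) * r ((i : ℕ) + 1) ((j : ℕ) + 1) := by
    intro i j
    rw [← hM i j, Matrix.smul_apply, smul_eq_mul]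
  obtain ⟨N1, hN1, hM1⟩ := red_T2 v hv he hd3 cc r hc hr _ hM'
  rw [hfr]
  exact thmD_mat v hv he hq ha hw hd3 _ N1 hN1 hM1 s hs hd

/-- The number of factors of positive degree is at most the degree. -/
theorem card_le_deg (P : Polynomial ℂ) (hP : P ≠ 0) (s : Multiset (Polynomial ℚ))
    (hs : ∀ Q ∈ s, Odd Q.natDegree) (hd : s.prod.map (algebraMap ℚ ℂ) ∣ P) :
    s.card ≤ P.natDegree := by
  have h1 : (s.prod.map (algebraMap ℚ ℂ)).natDegree ≤ P.natDegree :=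
    Polynomial.natDegree_le_of_dvd hd hP
  rw [Polynomial.natDegree_map] at h1
  refine le_trans ?_ h1
  clear hd h1 hP
  induction s using Multiset.induction_on with
  | empty => simp
  | cons Q s ih =>
    have hQ := hs Q (Multiset.mem_cons_self Q s)
    have hQ1 : 1 ≤ Q.natDegree := hQ.pos
    have hQ0 : Q ≠ 0 := by
      rintro rfl
      simp at hQ1
    have hs' : ∀ R ∈ s, Odd R.natDegree := fun R hR => hs R (Multiset.mem_cons_of_mem hR)
    have hs0 : s.prod ≠ 0 := by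
      refine Multiset.prod_ne_zero fun h0 => ?_
      have := (hs' 0 h0).pos
      simp at this
    rw [Multiset.card_cons, Multiset.prod_cons, Polynomial.natDegree_mul hQ0 hs0]
    have := ih hs'
    omega

theorem thmD (r k : ℕ) (hk : (2 : ℤ) ^ r ∣ (k : ℤ) + 2 ∨ (2 : ℤ) ^ r ∣ (k : ℤ) - 4) :
    ∃ (_ : FiniteDimensional ℂ (CuspForm 𝒮ℒ (k : ℤ))) (T : Module.End ℂ (CuspForm 𝒮ℒ (k : ℤ))),
      (∀ (f : CuspForm 𝒮ℒ (k : ℤ)) (z : ℍ),
        T f z = 2 ^ ((k : ℤ) - 1) * f (ofComplex (2 * z)) +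
          (f (ofComplex (z / 2)) + f (ofComplex ((z + 1) / 2))) / 2) ∧
      ∀ s : Multiset (Polynomial ℚ), (∀ Q ∈ s, Odd Q.natDegree) →
        s.prod.map (algebraMap ℚ ℂ) ∣ T.charpoly →
          2 ^ r * s.card ≤ 28 * Module.finrank ℂ (CuspForm 𝒮ℒ (k : ℤ)) +
            2 ^ r * (5 * Nat.log 2 k + 7) := by
  obtain ⟨hfin, T, hT1, hT2, htop⟩ := exists_T2_diag k
  refine ⟨hfin, T, hT1, fun s hs hd => ?_⟩
  have h0 : s.card ≤ Module.finrank ℂ (CuspForm 𝒮ℒ (k : ℤ)) := by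
    have h := card_le_deg T.charpoly (LinearMap.charpoly_monic T).ne_zero s hs hd
    rwa [LinearMap.charpoly_natDegree] at h
  -- small `r`
  by_cases hr : r < 5
  · have h1 : 2 ^ r ≤ 16 := by
      calc 2 ^ r ≤ 2 ^ 4 := Nat.pow_le_pow_right (by norm_num) (by omega)
        _ = 16 := by norm_num
    calc 2 ^ r * s.card ≤ 16 * Module.finrank ℂ (CuspForm 𝒮ℒ (k : ℤ)) := Nat.mul_le_mul h1 h0
      _ ≤ _ := by
        have : 16 * Module.finrank ℂ (CuspForm 𝒮ℒ (k : ℤ)) ≤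
          28 * Module.finrank ℂ (CuspForm 𝒮ℒ (k : ℤ)) := Nat.mul_le_mul (by norm_num) le_rfl
        exact this.trans (Nat.le_add_right _ _)
  push Not at hr
  obtain ⟨a, rfl⟩ : ∃ a, r = a + 4 := ⟨r - 4, by omega⟩
  -- the form of the weight
  obtain ⟨q, e, he, hq, ha, hk'⟩ : ∃ q e : ℕ, e ≤ 1 ∧ 1 ≤ q ∧ 2 ^ a ∣ q ∧
      (k = 16 * q + 4 - 6 * e ∨ Module.finrank ℂ (CuspForm 𝒮ℒ (k : ℤ)) = 0) := by
    rcases hk with hk | hk
    · obtain ⟨m, hm⟩ := hk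
      have h16 : (2 : ℤ) ^ (a + 4) = 16 * 2 ^ a := by ring
      rw [h16] at hm
      have hpos : (0 : ℤ) < 2 ^ a := by positivity
      have hm0 : 0 < m := by
        by_contra hne
        push Not at hne
        have : 16 * (2 : ℤ) ^ a * m ≤ 0 := mul_nonpos_of_nonneg_of_nonpos (by positivity) hne
        omega
      obtain ⟨m, rfl⟩ : ∃ m' : ℕ, m = m' := ⟨m.toNat, by omega⟩
      refine ⟨2 ^ a * m, 1, le_rfl, ?_, dvd_mul_right _ _, Or.inl ?_⟩
      · have : 0 < 2 ^ a * m := Nat.mul_pos (by positivity) (by exact_mod_cast hm0)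
        omega
      · have h3 : (k : ℤ) + 2 = ((16 * (2 ^ a * m) : ℕ) : ℤ) := by
          rw [hm]
          push_cast
          ring
        omega
    · obtain ⟨m, hm⟩ := hk
      have h16 : (2 : ℤ) ^ (a + 4) = 16 * 2 ^ a := by ring
      rw [h16] at hm
      have hpos : (0 : ℤ) < 2 ^ a := by positivity
      rcases lt_trichotomy m 0 with hm0 | hm0 | hm0
      · exfalso
        have : 16 * (2 : ℤ) ^ a * m ≤ -16 := by nlinarith
        omega
      · refine ⟨2 ^ a, 0, by norm_num, Nat.one_le_two_pow, dvd_rfl, Or.inr ?_⟩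
        rw [hm0, mul_zero] at hm
        have hk4 : k = 4 := by omega
        subst hk4
        have h := cusp_dim 0 1 (by norm_num)
        simpa using h.2
      · obtain ⟨m, rfl⟩ : ∃ m' : ℕ, m = m' := ⟨m.toNat, by omega⟩
        refine ⟨2 ^ a * m, 0, by norm_num, ?_, dvd_mul_right _ _, Or.inl ?_⟩
        · have : 0 < 2 ^ a * m := Nat.mul_pos (by positivity) (by exact_mod_cast hm0)
          omega
        · have h3 : (k : ℤ) - 4 = ((16 * (2 ^ a * m) : ℕ) : ℤ) := by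
            rw [hm]
            push_cast
            ring
          omega
  rcases hk' with hk' | hk'
  · obtain ⟨w, hw⟩ : ∃ w, w + 2 * e = 4 * q + 1 := ⟨4 * q + 1 - 2 * e, by omega⟩
    have hkw : k = 4 * w + 2 * e := by omega
    subst hkw
    have h := thmD_q q a e he hq ha w hw T hT2 s hs hd
    have hlog : Nat.log 2 w ≤ Nat.log 2 (4 * w + 2 * e) := Nat.log_mono_right (by omega)
    have h3 : 2 ^ (a + 4) = 4 * 2 ^ (a + 2) := by ring
    rw [h3]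
    generalize 2 ^ (a + 2) = A at h ⊢
    have h5 : A * Nat.log 2 w ≤ A * Nat.log 2 (4 * w + 2 * e) := Nat.mul_le_mul le_rfl hlog
    nlinarith
  · rw [hk'] at h0
    have : s.card = 0 := by omega
    rw [this, mul_zero]
    exact Nat.zero_le _

end MT2
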