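import Pool.Agent.Lib_MP_bfd926_dd.DDefs
import Pool.Agent.Lib_MP_bfd926_ab.AEven

/-!
# The residues of the roots of rational polynomials

`frob`: the private theorem `aeven_frob` of `AEven` (please copy it with its lemmas) for the polynomial
`Q.comp (C c * X)`, whose roots are `μ / c` (`Polynomial.roots` of `comp` with a linear polynomial, or `scaleRoots`).
-/

open Polynomial

namespace MT2

/-- integers lie in `A` -/
private theorem dfrob_int {Γ : Type} [LinearOrderedCommGroupWithZero Γ] (v : Valuation ℂ Γ) (m : ℤ) :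
    v (m : ℂ) ≤ 1 := by
  have h : ((m : ℤ) : ℂ) ∈ v.valuationSubring := intCast_mem _ m
  exact (Valuation.mem_valuationSubring_iff v _).mp h

/-- odd integers are units -/
private theorem dfrob_odd {Γ : Type} [LinearOrderedCommGroupWithZero Γ] (v : Valuation ℂ Γ)
    (hv : v 2 < 1) (m : ℤ) (hm : Odd m) : v (m : ℂ) = 1 := by
  obtain ⟨k, hk⟩ := hm
  have h1 : v (2 * (k : ℂ)) < 1 := by
    rw [map_mul]
    calc v 2 * v (k : ℂ) ≤ v 2 * 1 := mul_le_mul' le_rfl (dfrob_int v k)
      _ = v 2 := mul_one _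
      _ < 1 := hv
  have h2 : (m : ℂ) = 2 * (k : ℂ) + 1 := by rw [hk]; push_cast; ring
  rw [h2]
  have h3 : v (1 : ℂ) = 1 := map_one v
  rw [Valuation.map_add_eq_of_lt_right v (by rw [h3]; exact h1), h3]

/-- even integers are in the maximal ideal -/
private theorem dfrob_even {Γ : Type} [LinearOrderedCommGroupWithZero Γ] (v : Valuation ℂ Γ)
    (hv : v 2 < 1) (m : ℤ) (hm : Even m) : v (m : ℂ) < 1 := by
  obtain ⟨k, hk⟩ := hm
  have h2 : (m : ℂ) = 2 * (k : ℂ) := by rw [hk]; push_cast; ring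
  rw [h2, map_mul]
  calc v 2 * v (k : ℂ) ≤ v 2 * 1 := mul_le_mul' le_rfl (dfrob_int v k)
    _ = v 2 := mul_one _
    _ < 1 := hv

/-- the residue vanishes iff the valuation is less than one -/
private theorem dfrob_res {Γ : Type} [LinearOrderedCommGroupWithZero Γ] (v : Valuation ℂ Γ)
    (a : v.valuationSubring) :
    IsLocalRing.residue v.valuationSubring a = 0 ↔ v (a : ℂ) < 1 := by
  rw [IsLocalRing.residue_eq_zero_iff, IsLocalRing.mem_maximalIdeal, mem_nonunits_iff]
  have hle : v (a : ℂ) ≤ 1 := (Valuation.mem_valuationSubring_iff v _).mp a.2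
  constructor
  · intro h
    refine lt_of_le_of_ne hle ?_
    intro h1
    apply h
    have hne : (a : ℂ) ≠ 0 := by
      intro h0
      rw [h0, map_zero] at h1
      exact zero_ne_one h1
    have hinv : ((a : ℂ))⁻¹ ∈ v.valuationSubring := by
      rw [Valuation.mem_valuationSubring_iff, map_inv₀, h1, inv_one]
    refine IsUnit.of_mul_eq_one ⟨(a : ℂ)⁻¹, hinv⟩ ?_
    apply Subtype.ext
    exact mul_inv_cancel₀ hne
  · intro h hu
    obtain ⟨u, hu⟩ := hu
    have h1 : ((u : v.valuationSubring) : ℂ) * ((u⁻¹ : (v.valuationSubring)ˣ) : v.valuationSubring) = 1 := by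
      have := congrArg (fun z : v.valuationSubring => (z : ℂ)) u.mul_inv
      exact this
    have h2 := congrArg v h1
    rw [map_mul, map_one, hu] at h2
    have h3 : v ((((u⁻¹ : (v.valuationSubring)ˣ) : v.valuationSubring)) : ℂ) ≤ 1 :=
      (Valuation.mem_valuationSubring_iff v _).mp ((u⁻¹ : (v.valuationSubring)ˣ) : v.valuationSubring).2
    have h4 : v (a : ℂ) * v ((((u⁻¹ : (v.valuationSubring)ˣ) : v.valuationSubring)) : ℂ) < 1 :=
      calc _ ≤ v (a : ℂ) * 1 := mul_le_mul' le_rfl h3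
        _ = v (a : ℂ) := mul_one _
        _ < 1 := h
    exact absurd h2 h4.ne

/-- the residue of a rational number is zero or one -/
private theorem dfrob_rat {Γ : Type} [LinearOrderedCommGroupWithZero Γ] (v : Valuation ℂ Γ)
    (hv : v 2 < 1) (c : ℚ) (a : v.valuationSubring) (ha : (a : ℂ) = (c : ℂ)) :
    (IsLocalRing.residue v.valuationSubring a) ^ 2 = IsLocalRing.residue v.valuationSubring a := by
  have hle : v (a : ℂ) ≤ 1 := (Valuation.mem_valuationSubring_iff v _).mp a.2
  -- it suffices that `v (a ^ 2 - a) < 1`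
  suffices h : v (((a ^ 2 - a : v.valuationSubring)) : ℂ) < 1 by
    rw [← dfrob_res] at h
    rw [map_sub, map_pow] at h
    exact sub_eq_zero.mp h
  have hden : (c.den : ℂ) ≠ 0 := Nat.cast_ne_zero.mpr c.den_ne_zero
  have hc : (c : ℂ) = (c.num : ℂ) / (c.den : ℂ) := Rat.cast_def c
  have hco : Nat.Coprime c.num.natAbs c.den := c.reduced
  -- the denominator is odd
  have hodd : Odd ((c.den : ℕ) : ℤ) := by
    by_contra hne
    rw [Int.not_odd_iff_even] at hne
    have h1 := dfrob_even v hv _ hne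
    have hnum : Odd c.num := by
      by_contra hne2
      rw [Int.not_odd_iff_even] at hne2
      have h2 : 2 ∣ c.num.natAbs := by
        have := Int.natAbs_dvd_natAbs.mpr hne2.two_dvd
        simpa using this
      have h3 : 2 ∣ c.den := by
        have := hne.two_dvd
        exact_mod_cast this
      have h4 := Nat.dvd_gcd h2 h3
      rw [hco] at h4
      omega
    have h2 := dfrob_odd v hv _ hnum
    rw [ha, hc, map_div₀, h2] at hle
    have hpos : (0 : Γ) < v (c.den : ℂ) := (Valuation.pos_iff v).mpr hden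
    have h1' : v (c.den : ℂ) < 1 := by
      have : (((c.den : ℕ) : ℤ) : ℂ) = (c.den : ℂ) := by push_cast; rfl
      rw [this] at h1
      exact h1
    rw [div_le_one₀ hpos] at hle
    exact absurd h1' (not_lt.mpr hle)
  have hd := dfrob_odd v hv _ hodd
  have hd' : v (c.den : ℂ) = 1 := by
    have : (((c.den : ℕ) : ℤ) : ℂ) = (c.den : ℂ) := by push_cast; rfl
    rw [this] at hd
    exact hd
  have heq : (((a ^ 2 - a : v.valuationSubring)) : ℂ) =
      ((c.num * (c.num - (c.den : ℤ)) : ℤ) : ℂ) / ((c.den : ℂ) ^ 2) := by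
    have h0 : (((a ^ 2 - a : v.valuationSubring)) : ℂ) = (a : ℂ) ^ 2 - (a : ℂ) := by
      rfl
    rw [h0, ha, hc]
    push_cast
    field_simp
  rw [heq, map_div₀, map_pow, hd', one_pow, div_one]
  apply dfrob_even v hv
  rcases Int.even_or_odd c.num with h | h
  · exact h.mul_right _
  · exact (h.sub_odd hodd).mul_left _

/-- the maximal coefficient -/
private theorem dfrob_max {Γ : Type} [LinearOrderedCommGroupWithZero Γ] (v : Valuation ℂ Γ)
    (Q : Polynomial ℚ) (hQ : Q ≠ 0) :
    ∃ i, Q.coeff i ≠ 0 ∧ ∀ j, v ((Q.coeff j : ℚ) : ℂ) ≤ v ((Q.coeff i : ℚ) : ℂ) := by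
  obtain ⟨i, hi, hmax⟩ := Finset.exists_max_image Q.support
    (fun j => v ((Q.coeff j : ℚ) : ℂ)) (Polynomial.support_nonempty.mpr hQ)
  refine ⟨i, Polynomial.mem_support_iff.mp hi, fun j => ?_⟩
  by_cases hj : j ∈ Q.support
  · exact hmax j hj
  · rw [Polynomial.notMem_support_iff.mp hj, Rat.cast_zero, map_zero]
    exact zero_le

open Classical in
/-- the numbers of roots with residues `x` and `x ^ 2` agree -/
private theorem dfrob_frob {Γ : Type} [LinearOrderedCommGroupWithZero Γ] (v : Valuation ℂ Γ)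
    (hv : v 2 < 1) (Q : Polynomial ℚ) (hQ : Q ≠ 0)
    (x : IsLocalRing.ResidueField v.valuationSubring) :
    Multiset.card ((Q.map (algebraMap ℚ ℂ)).roots.filter fun μ => ∃ h : μ ∈ v.valuationSubring,
        IsLocalRing.residue v.valuationSubring ⟨μ, h⟩ = x) =
      Multiset.card ((Q.map (algebraMap ℚ ℂ)).roots.filter fun μ => ∃ h : μ ∈ v.valuationSubring,
        IsLocalRing.residue v.valuationSubring ⟨μ, h⟩ = x ^ 2) := by
  obtain ⟨i, hi, hmax⟩ := dfrob_max v Q hQ
  set c : ℚ := Q.coeff i with hc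
  have hcC : ((c : ℚ) : ℂ) ≠ 0 := Rat.cast_ne_zero.mpr hi
  set P : Polynomial ℂ := (C c⁻¹ * Q).map (algebraMap ℚ ℂ) with hP
  have hroots : P.roots = (Q.map (algebraMap ℚ ℂ)).roots := by
    rw [hP, Polynomial.map_mul, Polynomial.map_C]
    apply roots_C_mul
    rw [map_inv₀]
    exact inv_ne_zero hcC
  have hP0 : P ≠ 0 := by
    rw [hP, Ne, Polynomial.map_eq_zero]
    exact mul_ne_zero (C_ne_zero.mpr (inv_ne_zero hi)) hQ
  have hcoeff : ∀ n, P.coeff n = ((c⁻¹ * Q.coeff n : ℚ) : ℂ) := by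
    intro n
    rw [hP, Polynomial.coeff_map, coeff_C_mul]
    rfl
  have hlift : P ∈ Polynomial.lifts (algebraMap v.valuationSubring ℂ) := by
    rw [Polynomial.lifts_iff_coeff_lifts]
    intro n
    have hle : v (P.coeff n) ≤ 1 := by
      rw [hcoeff, Rat.cast_mul, Rat.cast_inv, map_mul, map_inv₀]
      have h1 := hmax n
      have hpos : (0 : Γ) < v ((c : ℚ) : ℂ) := (Valuation.pos_iff v).mpr hcC
      rw [inv_mul_le_iff₀ hpos, mul_one]
      exact h1
    exact ⟨⟨P.coeff n, (Valuation.mem_valuationSubring_iff v _).mpr hle⟩, rfl⟩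
  obtain ⟨R, hR⟩ := (Polynomial.mem_lifts _).mp hlift
  have hRc : ∀ n, ((R.coeff n : v.valuationSubring) : ℂ) = ((c⁻¹ * Q.coeff n : ℚ) : ℂ) := by
    intro n
    rw [← hcoeff, ← hR, Polynomial.coeff_map]
    rfl
  have hR0 : R.map (IsLocalRing.residue v.valuationSubring) ≠ 0 := by
    intro h0
    have h1 := congrArg (fun p => Polynomial.coeff p i) h0
    simp only [Polynomial.coeff_map, Polynomial.coeff_zero] at h1
    rw [dfrob_res, hRc, ← hc, inv_mul_cancel₀ hi, Rat.cast_one, map_one] at h1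
    exact lt_irrefl _ h1
  have h2 : (2 : IsLocalRing.ResidueField v.valuationSubring) = 0 := by
    have h3 : IsLocalRing.residue v.valuationSubring (2 : v.valuationSubring) = 0 := by
      rw [dfrob_res]
      exact hv
    rw [← h3, map_ofNat]
  have : CharP (IsLocalRing.ResidueField v.valuationSubring) 2 :=
    CharTwo.of_one_ne_zero_of_two_eq_zero one_ne_zero h2
  have hfro : (R.map (IsLocalRing.residue v.valuationSubring)).map
      (frobenius (IsLocalRing.ResidueField v.valuationSubring) 2) =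
      R.map (IsLocalRing.residue v.valuationSubring) := by
    ext n
    rw [Polynomial.coeff_map, Polynomial.coeff_map, frobenius_def]
    exact dfrob_rat v hv _ _ (hRc n)
  have hmul := Polynomial.eq_rootMultiplicity_map
    (p := R.map (IsLocalRing.residue v.valuationSubring))
    (f := frobenius (IsLocalRing.ResidueField v.valuationSubring) 2)
    (RingHom.injective _) x
  rw [hfro, frobenius_def] at hmul
  rw [← hroots]
  have e1 := root_red v.valuationSubring P hP0 R hR hR0 x
  have e2 := root_red v.valuationSubring P hP0 R hR hR0 (x ^ 2)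
  rw [← e1, ← e2, hmul]

theorem frob {Γ : Type} [LinearOrderedCommGroupWithZero Γ] (v : Valuation ℂ Γ)
    (hv : v 2 < 1) (Q : Polynomial ℚ) (hQ : Q ≠ 0) (c : ℚ) (hc : c ≠ 0)
    (x : IsLocalRing.ResidueField v.valuationSubring) :
    nres v (Q.map (algebraMap ℚ ℂ)).roots (c : ℂ) x =
      nres v (Q.map (algebraMap ℚ ℂ)).roots (c : ℂ) (x ^ 2) := by
  classical
  have hcC : ((c : ℚ) : ℂ) ≠ 0 := Rat.cast_ne_zero.mpr hc
  set M : Multiset ℂ := (Q.map (algebraMap ℚ ℂ)).roots with hM
  set Qs : Polynomial ℚ := Q.comp (C c * X + C 0) with hQs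
  have hQsr : (Qs.map (algebraMap ℚ ℂ)).roots = M.map fun μ => μ / (c : ℂ) := by
    rw [hQs, Polynomial.map_comp, Polynomial.map_add, Polynomial.map_mul, Polynomial.map_C,
      Polynomial.map_C, Polynomial.map_X, map_zero]
    have h3 : (algebraMap ℚ ℂ) c = (c : ℂ) := rfl
    rw [h3, roots_comp_C_mul_X_add_C _ _ _ hcC.isUnit]
    apply Multiset.map_congr rfl
    intro μ _
    rw [Ring.inverse_eq_inv, sub_zero, div_eq_inv_mul]
  have hQs0 : Qs ≠ 0 := by
    intro h0
    have h1 : Qs.comp (C c⁻¹ * X) = Q := by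
      rw [hQs, comp_assoc]
      have h2 : (C c * X + C 0 : Polynomial ℚ).comp (C c⁻¹ * X) = X := by
        rw [add_comp, mul_comp, C_comp, X_comp, C_comp, C_0, add_zero, ← mul_assoc, ← C_mul,
          mul_inv_cancel₀ hc, C_1, one_mul]
      rw [h2, comp_X]
    rw [h0, zero_comp] at h1
    exact hQ h1.symm
  have hcount : ∀ y : IsLocalRing.ResidueField v.valuationSubring,
      nres v M (c : ℂ) y =
        Multiset.card ((Qs.map (algebraMap ℚ ℂ)).roots.filter fun μ =>
          ∃ h : μ ∈ v.valuationSubring,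
            IsLocalRing.residue v.valuationSubring ⟨μ, h⟩ = y) := by
    intro y
    rw [hQsr, Multiset.filter_map, Multiset.card_map]
    unfold nres
    congr 1
  rw [hcount, hcount, dfrob_frob v hv Qs hQs0 x]

/-- A root of `X ^ 2 + X + 1` in the residue field. -/
theorem exists_omega {Γ : Type} [LinearOrderedCommGroupWithZero Γ] (v : Valuation ℂ Γ) :
    ∃ x : IsLocalRing.ResidueField v.valuationSubring, x ^ 2 + x + 1 = 0 := by
  obtain ⟨ω, hω⟩ : ∃ ω : ℂ, ω ^ 2 + ω + 1 = 0 := by
    have hdeg : (X ^ 2 + X + 1 : Polynomial ℂ).degree ≠ 0 := by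
      have h : (X ^ 2 + X + 1 : Polynomial ℂ).degree = 2 := by compute_degree!
      rw [h]
      decide
    obtain ⟨ω, hω⟩ := IsAlgClosed.exists_root (X ^ 2 + X + 1 : Polynomial ℂ) hdeg
    refine ⟨ω, ?_⟩
    simpa [Polynomial.IsRoot.def] using hω
  have h3 : ω ^ 3 = 1 := by linear_combination (ω - 1) * hω
  have hv3 : v ω ^ 3 = 1 := by rw [← map_pow, h3, map_one]
  have hv1 : v ω ≤ 1 := by
    by_contra hlt
    rw [not_le] at hlt
    exact absurd hv3 (one_lt_pow₀ hlt (by norm_num)).ne'
  have hmem : ω ∈ v.valuationSubring := (Valuation.mem_valuationSubring_iff v _).mpr hv1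
  refine ⟨IsLocalRing.residue v.valuationSubring ⟨ω, hmem⟩, ?_⟩
  have h1 : (⟨ω, hmem⟩ : v.valuationSubring) ^ 2 + ⟨ω, hmem⟩ + 1 = 0 := by
    apply Subtype.ext
    exact hω
  have h2 := congrArg (IsLocalRing.residue v.valuationSubring) h1
  rw [map_add, map_add, map_pow, map_one, map_zero] at h2
  exact h2

end MT2
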