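import Pool.Agent.Lib_MP_bfd926_dd.DSd
import Pool.Agent.Lib_MP_bfd926_sq.SQDs

/-!
# Valuations of the binomial coefficients

`den_X`: `vc_sum` (SQDs); `w - 2 n + j = 2 (2 q - nt) - 1 + j` is odd for even `j`, and for `j = 2 i - 1` it is
`2 (2 q - (nt + 1 - i))`, `i = 1, …, (t + 1) / 2` (`Finset.sum` over the even `u`, e. g. by induction on `t`).
`den_L`: the same, `w - 2 m - 1 - s < u ≤ w - 2 m - 1`, `u = w - 2 m - j`, `j = 2 i - 1`: `2 (2 q - (nt + i))`.
`num_ge`: split the sum at `x1`, `x2`; an interval with `l` elements contains at least `l / 2` even numbers,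
at least `(l + 1) / 2` if it begins with an even number.
-/

namespace MT2

private theorem DNum_fac (n : ℕ) : padicValNat 2 n.factorial + ds n = n := by
  have h := sub_one_mul_padicValNat_factorial (p := 2) n
  have h2 : ds n ≤ n := Nat.digit_sum_le 2 n
  unfold ds at *
  omega

private theorem DNum_two {n : ℕ} (hn : n ≠ 0) : padicValNat 2 (2 * n) = 1 + padicValNat 2 n := by
  have : Fact (Nat.Prime 2) := ⟨Nat.prime_two⟩
  rw [padicValNat.mul two_ne_zero hn, padicValNat.self (by norm_num)]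

private theorem DNum_odd {n : ℕ} (hn : n % 2 = 1) : padicValNat 2 n = 0 := by
  apply padicValNat.eq_zero_of_not_dvd
  omega

/-- `v₂((2 t)!) = t + v₂(t!)`. -/
theorem fac_two (t : ℕ) :
    padicValNat 2 (2 * t).factorial = t + padicValNat 2 t.factorial := by
  have h1 := DNum_fac (2 * t)
  have h2 := DNum_fac t
  rw [ds_two] at h1
  omega

private theorem DNum_up {q N : ℕ} (t : ℕ) (hN : N < 2 * q) (ht : (t + 1) / 2 ≤ N) :
    ∑ u ∈ Finset.Ioc (2 * (2 * q - N) - 1) (2 * (2 * q - N) - 1 + t), padicValNat 2 u =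
      (t + 1) / 2 + ∑ ν ∈ Finset.Ioc (N - (t + 1) / 2) N, padicValNat 2 (2 * q - ν) := by
  induction t with
  | zero => simp
  | succ t ih =>
    have ih := ih (by omega)
    have h1 : Finset.Ioc (2 * (2 * q - N) - 1) (2 * (2 * q - N) - 1 + (t + 1)) =
        insert (2 * (2 * q - N) - 1 + t + 1)
          (Finset.Ioc (2 * (2 * q - N) - 1) (2 * (2 * q - N) - 1 + t)) := by
      ext u
      simp only [Finset.mem_Ioc, Finset.mem_insert]
      omega
    rw [h1, Finset.sum_insert (by simp), ih]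
    rcases Nat.even_or_odd' t with ⟨i, hi | hi⟩
    · have h2 : (t + 1 + 1) / 2 = i + 1 := by omega
      have h3 : (t + 1) / 2 = i := by omega
      rw [h2, h3]
      have h4 : Finset.Ioc (N - (i + 1)) N = insert (N - i) (Finset.Ioc (N - i) N) := by
        ext u
        simp only [Finset.mem_Ioc, Finset.mem_insert]
        omega
      have h5 : 2 * (2 * q - N) - 1 + t + 1 = 2 * (2 * q - (N - i)) := by omega
      rw [h4, Finset.sum_insert (by simp), h5, DNum_two (by omega)]
      omega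
    · have h2 : (t + 1 + 1) / 2 = (t + 1) / 2 := by omega
      rw [h2, DNum_odd (by omega), zero_add]

private theorem DNum_down {q N : ℕ} (s : ℕ) (hs : N + (s + 1) / 2 < 2 * q)
    (hs' : s ≤ 2 * (2 * q - N) - 2) :
    ∑ u ∈ Finset.Ioc (2 * (2 * q - N) - 2 - s) (2 * (2 * q - N) - 2), padicValNat 2 u =
      (s + 1) / 2 + ∑ ν ∈ Finset.Ioc N (N + (s + 1) / 2), padicValNat 2 (2 * q - ν) := by
  induction s with
  | zero => simp
  | succ s ih =>
    have ih := ih (by omega) (by omega)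
    have h1 : Finset.Ioc (2 * (2 * q - N) - 2 - (s + 1)) (2 * (2 * q - N) - 2) =
        insert (2 * (2 * q - N) - 2 - s)
          (Finset.Ioc (2 * (2 * q - N) - 2 - s) (2 * (2 * q - N) - 2)) := by
      ext u
      simp only [Finset.mem_Ioc, Finset.mem_insert]
      omega
    rw [h1, Finset.sum_insert (by simp), ih]
    rcases Nat.even_or_odd' s with ⟨i, hi | hi⟩
    · have h2 : (s + 1 + 1) / 2 = i + 1 := by omega
      have h3 : (s + 1) / 2 = i := by omega
      rw [h2, h3]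
      have h4 : Finset.Ioc N (N + (i + 1)) = insert (N + (i + 1)) (Finset.Ioc N (N + i)) := by
        ext u
        simp only [Finset.mem_Ioc, Finset.mem_insert]
        omega
      have h5 : 2 * (2 * q - N) - 2 - s = 2 * (2 * q - (N + (i + 1))) := by omega
      rw [h4, Finset.sum_insert (by simp), h5, DNum_two (by omega)]
      omega
    · have h2 : (s + 1 + 1) / 2 = (s + 1) / 2 := by omega
      rw [h2, DNum_odd (by omega), zero_add]

theorem den_X {e q w n t : ℕ} (he : e ≤ 1) (hw : w + 2 * e = 4 * q + 1) (ht : t < n)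
    (h : 3 * n + e ≤ w) :
    vc (w - 2 * n) t + padicValNat 2 t.factorial = (t + 1) / 2 +
      ∑ ν ∈ Finset.Ioc (nt e n - (t + 1) / 2) (nt e n), padicValNat 2 (2 * q - ν) := by
  rw [vc_sum]
  have hN : nt e n = n + e - 1 := rfl
  have h1 : w - 2 * n = 2 * (2 * q - nt e n) - 1 := by omega
  rw [h1]
  exact DNum_up t (by omega) (by omega)

theorem den_L {e q w m s : ℕ} (he : e ≤ 1) (hw : w + 2 * e = 4 * q + 1) (hm : 1 ≤ m)
    (h : 3 * (m + s) + e ≤ w) :
    vc (w - 2 * m - 1 - s) s + padicValNat 2 s.factorial = (s + 1) / 2 +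
      ∑ ν ∈ Finset.Ioc (nt e m) (nt e m + (s + 1) / 2), padicValNat 2 (2 * q - ν) := by
  rw [vc_sum]
  have hN : nt e m = m + e - 1 := rfl
  have h1 : w - 2 * m - 1 - s = 2 * (2 * q - nt e m) - 2 - s := by omega
  have h2 : 2 * (2 * q - nt e m) - 2 - s + s = 2 * (2 * q - nt e m) - 2 := by omega
  rw [h1, h2]
  exact DNum_down s (by omega) (by omega)

private theorem DNum_even (g : ℕ → ℕ) (a b : ℕ) (hab : a ≤ b)
    (hg : ∀ x, a < x → x ≤ b → Even x → 1 ≤ g x) :
    b / 2 - a / 2 ≤ ∑ x ∈ Finset.Ioc a b, g x := by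
  induction b, hab using Nat.le_induction with
  | base => simp
  | succ b hab ih =>
    have ih := ih fun x h1 h2 => hg x h1 (by omega)
    rw [Finset.sum_Ioc_succ_top hab]
    by_cases h : Even (b + 1)
    · have h1 := hg (b + 1) (by omega) le_rfl h
      omega
    · rw [Nat.even_iff] at h
      omega

theorem num_ge {q a x0 x1 x2 x3 : ℕ} (g : ℕ → ℕ) (h01 : x0 ≤ x1) (h12 : x1 ≤ x2)
    (h23 : x2 ≤ x3) (hg : ∀ x, x0 < x → x ≤ x3 → Even x → 1 ≤ g x)
    (hI : ∀ ν, x1 < ν → ν ≤ x2 → padicValNat 2 (2 * q - ν) ≤ g ν + dl q a ν) :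
    ∑ ν ∈ Finset.Ioc x1 x2, padicValNat 2 (2 * q - ν) +
        (if Even x0 then (x1 - x0) / 2 else (x1 - x0 + 1) / 2) +
        (if Even x2 then (x3 - x2) / 2 else (x3 - x2 + 1) / 2) ≤
      ∑ x ∈ Finset.Ioc x0 x3, g x + Sd q a x1 x2 := by
  have h1 : ∑ x ∈ Finset.Ioc x0 x3, g x = ∑ x ∈ Finset.Ioc x0 x1, g x +
      ∑ x ∈ Finset.Ioc x1 x2, g x + ∑ x ∈ Finset.Ioc x2 x3, g x := by
    rw [Finset.sum_Ioc_consecutive _ h01 h12, Finset.sum_Ioc_consecutive _ (h01.trans h12) h23]
  have h2 : ∑ ν ∈ Finset.Ioc x1 x2, padicValNat 2 (2 * q - ν) ≤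
      ∑ x ∈ Finset.Ioc x1 x2, g x + Sd q a x1 x2 := by
    unfold Sd
    rw [← Finset.sum_add_distrib]
    refine Finset.sum_le_sum fun ν hν => ?_
    rw [Finset.mem_Ioc] at hν
    exact hI ν hν.1 hν.2
  have h3 := DNum_even g x0 x1 h01 fun x h4 h5 => hg x h4 (by omega)
  have h4 := DNum_even g x2 x3 h23 fun x h4 h5 => hg x (by omega) h5
  have h5 : (if Even x0 then (x1 - x0) / 2 else (x1 - x0 + 1) / 2) ≤ x1 / 2 - x0 / 2 := by
    split_ifs with h
    · rw [Nat.even_iff] at h
      omega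
    · rw [Nat.even_iff] at h
      omega
  have h6 : (if Even x2 then (x3 - x2) / 2 else (x3 - x2 + 1) / 2) ≤ x3 / 2 - x2 / 2 := by
    split_ifs with h
    · rw [Nat.even_iff] at h
      omega
    · rw [Nat.even_iff] at h
      omega
  omega

end MT2
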