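import Pool.Agent.Lib_MP_bfd926_dd.DSd
import Pool.Agent.Lib_MP_bfd926_sq.SQPh

/-!
# The valuations of the pivots

`ph_one`: `ph_step` (SQPh). With `ν = nt e n + 1`: `w - 2 n - 1 = 2 (2 q - ν)`, `w - 2 n` and `w - 2 n - 2` are odd;
`w - 3 n - e = 4 q - (3 ν - 1)`, `w - 3 n - e - 1 = 4 q - 3 ν`, `w - 3 n - e - 2 = 4 q - (3 ν + 1)`,
`2 w - 3 n - 1 + e = 8 q - (3 ν - 1)`, …. So the step is
`2 + v₂((4 q - 3 ν + 1) (4 q - 3 ν) (4 q - 3 ν - 1)) + v₂((8 q - 3 ν + 1) (8 q - 3 ν) (8 q - 3 ν - 1)) - 2 -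
2 v₂(2 q - ν)`.
`ν` odd: `v₂(2 q - ν) = 0`, and the product of the even numbers `4 q - 3 ν + 1`, `4 q - 3 ν - 1` (consecutive even
numbers) is divisible by 8, the same for `8 q`: at least 6 (`dl` is zero, `dl_odd`). `ν` even: the outer
factors are odd, `val_ge43`, `val_ge83`.
`ph_eq`: `val_eq43`, `val_eq83`, `val_eq`.
`ph_ge`: induction on `m`, the number of odd `ν` in `(nt e n, nt e m]` is `(nt e m + 1) / 2 - (nt e n + 1) / 2`.
-/

namespace MT2

private theorem DPh_val3 {x : ℕ} (hx : 2 ≤ x) :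
    padicValNat 2 ((x + 1) * x * (x - 1)) =
      padicValNat 2 (x + 1) + padicValNat 2 x + padicValNat 2 (x - 1) := by
  rw [padicValNat.mul (Nat.mul_ne_zero (by omega) (by omega)) (by omega),
    padicValNat.mul (by omega) (by omega)]

private theorem DPh_odd {x : ℕ} (hx : x % 2 = 1) : padicValNat 2 x = 0 :=
  padicValNat.eq_zero_of_not_dvd (by omega)

private theorem DPh_two {x : ℕ} (hx : 1 ≤ x) : padicValNat 2 (2 * x) = 1 + padicValNat 2 x := by
  rw [padicValNat.mul (by norm_num) (by omega), padicValNat.self (by norm_num)]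

private theorem DPh_even {x : ℕ} (hx : 1 ≤ x) (h2 : x % 2 = 0) : 1 ≤ padicValNat 2 x := by
  obtain ⟨y, rfl⟩ : ∃ y, x = 2 * y := ⟨x / 2, by omega⟩
  rw [DPh_two (by omega)]
  omega

private theorem DPh_three {x : ℕ} (hx : 2 ≤ x) (h2 : x % 2 = 1) :
    3 ≤ padicValNat 2 (x + 1) + padicValNat 2 (x - 1) := by
  obtain ⟨k, rfl⟩ : ∃ k, x = 2 * k + 1 := ⟨x / 2, by omega⟩
  have e1 : 2 * k + 1 + 1 = 2 * (k + 1) := by omega
  have e2 : 2 * k + 1 - 1 = 2 * k := by omega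
  rw [e1, e2, DPh_two (by omega), DPh_two (by omega)]
  rcases Nat.even_or_odd k with hk | hk
  · have := DPh_even (x := k) (by omega) (Nat.even_iff.mp hk)
    omega
  · have := DPh_even (x := k + 1) (by omega) (by have := Nat.odd_iff.mp hk; omega)
    omega

private theorem DPh_step {e q w n ν : ℕ} (he : e ≤ 1) (hw : w + 2 * e = 4 * q + 1)
    (hn : 1 ≤ n) (h : 3 * (n + 1) + e ≤ w) (hν : ν = n + e) :
    ph e w (n + 1) - ph e w n =
      (padicValNat 2 (4 * q - 3 * ν + 1) + padicValNat 2 (4 * q - 3 * ν) +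
        padicValNat 2 (4 * q - 3 * ν - 1) : ℕ) +
      (padicValNat 2 (8 * q - 3 * ν + 1) + padicValNat 2 (8 * q - 3 * ν) +
        padicValNat 2 (8 * q - 3 * ν - 1) : ℕ) - 2 * (padicValNat 2 (2 * q - ν) : ℤ) := by
  have hs := ph_step he hn h
  have a1 : w - 3 * n - e = 4 * q - 3 * ν + 1 := by omega
  have a2 : 4 * q - 3 * ν + 1 - 1 = 4 * q - 3 * ν := by omega
  have a3 : 4 * q - 3 * ν + 1 - 2 = 4 * q - 3 * ν - 1 := by omega
  have b1 : 2 * w - 3 * n - 1 + e = 8 * q - 3 * ν + 1 := by omega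
  have b2 : 2 * w - 3 * n - 2 + e = 8 * q - 3 * ν := by omega
  have b3 : 2 * w - 3 * n - 3 + e = 8 * q - 3 * ν - 1 := by omega
  have c2 : w - 2 * n - 1 = 2 * (2 * q - ν) := by omega
  rw [a1, a2, a3, b1, b2, b3, c2, DPh_val3 (by omega), DPh_val3 (by omega), DPh_two (by omega),
    DPh_odd (x := w - 2 * n) (by omega), DPh_odd (x := w - 2 * n - 2) (by omega)] at hs
  rw [hs]
  push_cast
  ring

private theorem DPh_nt {e n : ℕ} (hn : 1 ≤ n) : nt e n + 1 = n + e := by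
  unfold nt
  omega

theorem ph_one {e q a w n : ℕ} (he : e ≤ 1) (hw : w + 2 * e = 4 * q + 1) (ha : 2 ^ a ∣ q)
    (hn : 1 ≤ n) (h : 3 * (n + 1) + e ≤ w) :
    (if Even (nt e n) then 6 else 0) - 2 * (dl q a (nt e n + 1) : ℤ) ≤
      ph e w (n + 1) - ph e w n := by
  have hν := DPh_nt (e := e) hn
  obtain ⟨ν, hν2⟩ : ∃ ν, ν = nt e n + 1 := ⟨_, rfl⟩
  rw [DPh_step (ν := ν) he hw hn h (by omega), ← hν2]
  split_ifs with hev
  · have hp : nt e n % 2 = 0 := Nat.even_iff.mp hev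
    have h1 := DPh_three (x := 4 * q - 3 * ν) (by omega) (by omega)
    have h2 := DPh_three (x := 8 * q - 3 * ν) (by omega) (by omega)
    have h3 := DPh_odd (x := 2 * q - ν) (by omega)
    omega
  · have h1 := val_ge43 (q := q) (a := a) (ν := ν) ha (by omega) (by omega)
    have h2 := val_ge83 (q := q) (a := a) (ν := ν) ha (by omega) (by omega)
    omega

theorem ph_eq {e q a w n : ℕ} (he : e ≤ 1) (hw : w + 2 * e = 4 * q + 1) (ha : 2 ^ a ∣ q)
    (hn : 1 ≤ n) (h : 3 * (n + 1) + e ≤ w) (hev : Even (nt e (n + 1)))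
    (hnd : ¬ 2 ^ (a + 1) ∣ nt e (n + 1)) : ph e w (n + 1) = ph e w n := by
  have hν : nt e (n + 1) = n + e := by
    unfold nt
    omega
  rw [hν] at hev hnd
  have hp : (n + e) % 2 = 0 := Nat.even_iff.mp hev
  obtain ⟨ν, hν2⟩ : ∃ ν, ν = n + e := ⟨_, rfl⟩
  rw [← hν2] at hnd hp
  have hs := DPh_step (ν := ν) he hw hn h hν2
  have h1 := val_eq43 (q := q) (a := a) (ν := ν) ha (by omega) (by omega) hnd
  have h2 := val_eq83 (q := q) (a := a) (ν := ν) ha (by omega) (by omega) hnd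
  have h3 := val_eq (q := q) (a := a) (ν := ν) ha (by omega) (by omega) hnd
  have o1 := DPh_odd (x := 4 * q - 3 * ν + 1) (by omega)
  have o2 := DPh_odd (x := 4 * q - 3 * ν - 1) (by omega)
  have o3 := DPh_odd (x := 8 * q - 3 * ν + 1) (by omega)
  have o4 := DPh_odd (x := 8 * q - 3 * ν - 1) (by omega)
  rw [h1, h2, h3, o1, o2, o3, o4] at hs
  omega

theorem ph_ge {e q a w n m : ℕ} (he : e ≤ 1) (hw : w + 2 * e = 4 * q + 1) (ha : 2 ^ a ∣ q)
    (hn : 1 ≤ n) (hnm : n ≤ m) (h : 3 * m + e ≤ w) :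
    6 * (((nt e m + 1) / 2 : ℕ) - ((nt e n + 1) / 2 : ℕ) : ℤ) - 2 * (Sd q a (nt e n) (nt e m) : ℤ) ≤
      ph e w m - ph e w n := by
  induction m, hnm using Nat.le_induction with
  | base =>
    rw [Sd_self]
    simp
  | succ m hm ih =>
    have ih' := ih (by omega)
    have h1 := ph_one (e := e) (q := q) (a := a) (w := w) (n := m) he hw ha (by omega) h
    have e1 : nt e (m + 1) = nt e m + 1 := by
      unfold nt
      omega
    have h2 := Sd_succ (q := q) (a := a) (x := nt e n) (y := nt e m) (by unfold nt; omega)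
    rw [e1, h2]
    split_ifs at h1 with hev
    · have hp : nt e m % 2 = 0 := Nat.even_iff.mp hev
      push_cast at ih' ⊢
      omega
    · have hp : nt e m % 2 = 1 := Nat.odd_iff.mp (Nat.not_even_iff_odd.mp hev)
      push_cast at ih' ⊢
      omega

end MT2
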