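import Mathlib

/-!
# Counting the points with a heavy window

`rise_left`: strong induction on `N`. If `N` is not counted use `N - 1`. If `N` is counted with `u` then the
counted numbers are at most those `≤ N - u` and the `u` numbers of `(N - u, N]`, and
`2 u ≤ ∑ μ ∈ Ioc (N - u) N, f μ`.
`rise_right`: prove for all `s ≤ N`: `2 * #{c ∈ [s, N) | ∃ y, c < y ≤ N, 2 (y - c) ≤ ∑ μ ∈ Ioc c y, f μ} ≤
∑ μ ∈ Ioc s N, f μ` by induction on `N - s`: if `s` is not counted use `s + 1`; if it is counted with `y` there are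
`y - s` numbers in `[s, y)`, and use `y`.
-/

namespace MT2

private theorem DRise_sum_split (f : ℕ → ℕ) {a b c : ℕ} (h1 : a ≤ b) (h2 : b ≤ c) :
    ∑ μ ∈ Finset.Ioc a b, f μ + ∑ μ ∈ Finset.Ioc b c, f μ = ∑ μ ∈ Finset.Ioc a c, f μ := by
  rw [← Finset.sum_union]
  · rw [Finset.Ioc_union_Ioc_eq_Ioc h1 h2]
  · rw [Finset.disjoint_left]
    intro x hx hx2
    rw [Finset.mem_Ioc] at hx hx2
    omega

private theorem DRise_Icc (N : ℕ) : Finset.Icc 1 N = Finset.Ioc 0 N := by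
  ext x
  rw [Finset.mem_Icc, Finset.mem_Ioc]
  omega

open Classical in
theorem rise_left (f : ℕ → ℕ) (N : ℕ) :
    2 * ((Finset.Icc 1 N).filter fun c => ∃ u, 1 ≤ u ∧ u ≤ c ∧
      2 * u ≤ ∑ μ ∈ Finset.Ioc (c - u) c, f μ).card ≤ ∑ μ ∈ Finset.Icc 1 N, f μ := by
  induction N using Nat.strong_induction_on with
  | _ N ih =>
    rcases Nat.eq_zero_or_pos N with h0 | h0
    · subst h0
      simp
    by_cases hP : ∃ u, 1 ≤ u ∧ u ≤ N ∧ 2 * u ≤ ∑ μ ∈ Finset.Ioc (N - u) N, f μ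
    · obtain ⟨u, hu1, hu2, hu3⟩ := hP
      have h1 := ih (N - u) (by omega)
      have h2 : ((Finset.Icc 1 N).filter fun c => ∃ u, 1 ≤ u ∧ u ≤ c ∧
          2 * u ≤ ∑ μ ∈ Finset.Ioc (c - u) c, f μ) ⊆
          ((Finset.Icc 1 (N - u)).filter fun c => ∃ u, 1 ≤ u ∧ u ≤ c ∧
            2 * u ≤ ∑ μ ∈ Finset.Ioc (c - u) c, f μ) ∪ Finset.Ioc (N - u) N := by
        intro c hc
        rw [Finset.mem_filter, Finset.mem_Icc] at hc
        rw [Finset.mem_union, Finset.mem_filter, Finset.mem_Icc, Finset.mem_Ioc]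
        by_cases hcu : c ≤ N - u
        · exact Or.inl ⟨⟨hc.1.1, hcu⟩, hc.2⟩
        · exact Or.inr ⟨by omega, hc.1.2⟩
      have h3 := (Finset.card_le_card h2).trans (Finset.card_union_le _ _)
      rw [Nat.card_Ioc] at h3
      rw [DRise_Icc] at h1
      have h4 := DRise_sum_split f (Nat.zero_le (N - u)) (Nat.sub_le N u)
      rw [← DRise_Icc N] at h4
      rw [DRise_Icc (N - u)] at h3
      omega
    · have h1 := ih (N - 1) (by omega)
      have h2 : ((Finset.Icc 1 N).filter fun c => ∃ u, 1 ≤ u ∧ u ≤ c ∧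
          2 * u ≤ ∑ μ ∈ Finset.Ioc (c - u) c, f μ) ⊆
          ((Finset.Icc 1 (N - 1)).filter fun c => ∃ u, 1 ≤ u ∧ u ≤ c ∧
            2 * u ≤ ∑ μ ∈ Finset.Ioc (c - u) c, f μ) := by
        intro c hc
        rw [Finset.mem_filter, Finset.mem_Icc] at hc
        rw [Finset.mem_filter, Finset.mem_Icc]
        refine ⟨⟨hc.1.1, ?_⟩, hc.2⟩
        have hcN : c ≠ N := by
          rintro rfl
          exact hP hc.2
        omega
      have h3 := Finset.card_le_card h2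
      have h4 : ∑ μ ∈ Finset.Icc 1 (N - 1), f μ ≤ ∑ μ ∈ Finset.Icc 1 N, f μ :=
        Finset.sum_le_sum_of_subset (Finset.Icc_subset_Icc_right (by omega))
      omega

open Classical in
private theorem DRise_right (f : ℕ → ℕ) (N : ℕ) : ∀ k s : ℕ, s + k = N →
    2 * ((Finset.Ico s N).filter fun c => ∃ y, c < y ∧ y ≤ N ∧
      2 * (y - c) ≤ ∑ μ ∈ Finset.Ioc c y, f μ).card ≤ ∑ μ ∈ Finset.Ioc s N, f μ := by
  intro k
  induction k using Nat.strong_induction_on with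
  | _ k ih =>
    intro s hs
    rcases Nat.eq_zero_or_pos k with h0 | h0
    · subst h0
      have : s = N := by omega
      subst this
      simp
    by_cases hP : ∃ y, s < y ∧ y ≤ N ∧ 2 * (y - s) ≤ ∑ μ ∈ Finset.Ioc s y, f μ
    · obtain ⟨y, hy1, hy2, hy3⟩ := hP
      have h1 := ih (N - y) (by omega) y (by omega)
      have h2 : ((Finset.Ico s N).filter fun c => ∃ y, c < y ∧ y ≤ N ∧
          2 * (y - c) ≤ ∑ μ ∈ Finset.Ioc c y, f μ) ⊆
          Finset.Ico s y ∪ ((Finset.Ico y N).filter fun c => ∃ y, c < y ∧ y ≤ N ∧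
            2 * (y - c) ≤ ∑ μ ∈ Finset.Ioc c y, f μ) := by
        intro c hc
        rw [Finset.mem_filter, Finset.mem_Ico] at hc
        rw [Finset.mem_union, Finset.mem_filter, Finset.mem_Ico, Finset.mem_Ico]
        by_cases hcy : c < y
        · exact Or.inl ⟨hc.1.1, hcy⟩
        · exact Or.inr ⟨⟨by omega, hc.1.2⟩, hc.2⟩
      have h3 := (Finset.card_le_card h2).trans (Finset.card_union_le _ _)
      rw [Nat.card_Ico] at h3
      have h4 := DRise_sum_split f hy1.le hy2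
      omega
    · have h1 := ih (k - 1) (by omega) (s + 1) (by omega)
      have h2 : ((Finset.Ico s N).filter fun c => ∃ y, c < y ∧ y ≤ N ∧
          2 * (y - c) ≤ ∑ μ ∈ Finset.Ioc c y, f μ) ⊆
          ((Finset.Ico (s + 1) N).filter fun c => ∃ y, c < y ∧ y ≤ N ∧
            2 * (y - c) ≤ ∑ μ ∈ Finset.Ioc c y, f μ) := by
        intro c hc
        rw [Finset.mem_filter, Finset.mem_Ico] at hc
        rw [Finset.mem_filter, Finset.mem_Ico]
        refine ⟨⟨?_, hc.1.2⟩, hc.2⟩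
        have hcN : c ≠ s := by
          rintro rfl
          exact hP hc.2
        omega
      have h3 := Finset.card_le_card h2
      have h4 : ∑ μ ∈ Finset.Ioc (s + 1) N, f μ ≤ ∑ μ ∈ Finset.Ioc s N, f μ :=
        Finset.sum_le_sum_of_subset (Finset.Ioc_subset_Ioc_left (by omega))
      omega

open Classical in
theorem rise_right (f : ℕ → ℕ) (N : ℕ) :
    2 * ((Finset.Icc 1 N).filter fun c => ∃ y, c < y ∧ y ≤ N ∧
      2 * (y - c) ≤ ∑ μ ∈ Finset.Ioc c y, f μ).card ≤ ∑ μ ∈ Finset.Icc 1 N, f μ := by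
  have h1 := DRise_right f N N 0 (by omega)
  rw [← DRise_Icc] at h1
  refine le_trans ?_ h1
  refine Nat.mul_le_mul_left 2 (Finset.card_le_card ?_)
  intro c hc
  rw [Finset.mem_filter, Finset.mem_Icc] at hc
  rw [Finset.mem_filter, Finset.mem_Ico]
  obtain ⟨y, hy1, hy2, hy3⟩ := hc.2
  exact ⟨⟨Nat.zero_le _, by omega⟩, ⟨y, hy1, hy2, hy3⟩⟩

/-- The numbers `μ` with `2 ^ j ∣ q - μ`. -/
theorem card_dvd {q N j : ℕ} (hN : N < q) :
    ((Finset.Icc 1 N).filter fun μ => 2 ^ j ∣ q - μ).card ≤ N / 2 ^ j + 1 := by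
  have hm : 0 < 2 ^ j := by positivity
  generalize 2 ^ j = m at hm ⊢
  have h1 : ((Finset.Icc 1 N).filter fun μ => m ∣ q - μ).card ≤
      (Finset.Ioc ((q - N - 1) / m) ((q - 1) / m)).card := by
    refine Finset.card_le_card_of_injOn (fun μ => (q - μ) / m) ?_ ?_
    · intro μ hμ
      have hμ' := Finset.mem_coe.1 hμ
      rw [Finset.mem_filter, Finset.mem_Icc] at hμ'
      obtain ⟨⟨h1, h2⟩, g, hg⟩ := hμ'
      refine Finset.mem_coe.2 (Finset.mem_Ioc.2 ⟨?_, ?_⟩)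
      · show (q - N - 1) / m < (q - μ) / m
        rw [hg, Nat.mul_div_cancel_left _ hm]
        refine (Nat.div_lt_iff_lt_mul hm).2 ?_
        rw [mul_comm g m, ← hg]
        omega
      · exact Nat.div_le_div_right (by omega)
    · intro μ hμ ν hν h
      have hμ' := Finset.mem_coe.1 hμ
      have hν' := Finset.mem_coe.1 hν
      rw [Finset.mem_filter, Finset.mem_Icc] at hμ' hν'
      obtain ⟨⟨h1, h2⟩, g, hg⟩ := hμ'
      obtain ⟨⟨h3, h4⟩, g', hg'⟩ := hν'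
      have h5 : (q - μ) / m = (q - ν) / m := h
      rw [hg, hg', Nat.mul_div_cancel_left _ hm, Nat.mul_div_cancel_left _ hm] at h5
      rw [← h5, ← hg] at hg'
      omega
  rw [Nat.card_Ioc] at h1
  have h2 : (q - 1) / m < (q - N - 1) / m + N / m + 2 := by
    refine (Nat.div_lt_iff_lt_mul hm).2 ?_
    have h3 := Nat.div_add_mod (q - N - 1) m
    have h4 := Nat.div_add_mod N m
    have h5 := Nat.mod_lt (q - N - 1) hm
    have h6 := Nat.mod_lt N hm
    have h7 : ((q - N - 1) / m + N / m + 2) * m =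
        m * ((q - N - 1) / m) + m * (N / m) + 2 * m := by ring
    rw [h7]
    omega
  generalize (q - 1) / m = A at h1 h2
  generalize (q - N - 1) / m = B at h1 h2
  generalize N / m = D at h1 h2 ⊢
  omega

/-- `2 ^ a ∣ q - μ`, but not `2 ^ (a + 1)`. -/
theorem card_exact {q N a : ℕ} (hN : N < q) :
    ((Finset.Icc 1 N).filter fun μ => 2 ^ a ∣ q - μ ∧ ¬ 2 ^ (a + 1) ∣ q - μ).card ≤
      N / 2 ^ (a + 1) + 1 := by
  refine le_trans (Finset.card_le_card ?_)
    (card_dvd (q := q + 2 ^ a) (N := N) (j := a + 1) (Nat.lt_add_right _ hN))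
  intro μ hμ
  rw [Finset.mem_filter, Finset.mem_Icc] at hμ ⊢
  obtain ⟨⟨h1, h2⟩, ⟨t, ht⟩, h4⟩ := hμ
  refine ⟨⟨h1, h2⟩, ?_⟩
  have h5 : q + 2 ^ a - μ = 2 ^ a * (t + 1) := by
    rw [mul_add, mul_one, ← ht]
    omega
  have h6 : ¬ 2 ∣ t := by
    rintro ⟨s, hs⟩
    apply h4
    refine ⟨s, ?_⟩
    rw [ht, hs, pow_succ]
    ring
  rw [h5, pow_succ]
  exact Nat.mul_dvd_mul_left _ (by omega)

private theorem DRise_geom (N a : ℕ) : ∀ k : ℕ,
    2 ^ a * ∑ j ∈ Finset.Ioc a (a + k), N / 2 ^ j + 2 ^ a * (N / 2 ^ (a + k)) ≤ N := by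
  intro k
  induction k with
  | zero =>
    simp only [add_zero, Finset.Ioc_self, Finset.sum_empty, mul_zero, zero_add]
    exact Nat.mul_div_le N (2 ^ a)
  | succ k ih =>
    have h1 : ∑ j ∈ Finset.Ioc a (a + (k + 1)), N / 2 ^ j =
        ∑ j ∈ Finset.Ioc a (a + k), N / 2 ^ j + N / 2 ^ (a + k + 1) := by
      have h2 : Finset.Ioc a (a + (k + 1)) = insert (a + k + 1) (Finset.Ioc a (a + k)) := by
        ext x
        rw [Finset.mem_insert, Finset.mem_Ioc, Finset.mem_Ioc]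
        omega
      rw [h2, Finset.sum_insert (by rw [Finset.mem_Ioc]; omega), add_comm]
    have h3 : N / 2 ^ (a + k + 1) = N / 2 ^ (a + k) / 2 := by
      rw [pow_succ, Nat.div_div_eq_div_mul]
    have h4 : 2 * (N / 2 ^ (a + k + 1)) ≤ N / 2 ^ (a + k) := by
      rw [h3]
      exact Nat.mul_div_le _ 2
    have h5 : 2 ^ a * (2 * (N / 2 ^ (a + k + 1))) ≤ 2 ^ a * (N / 2 ^ (a + k)) :=
      Nat.mul_le_mul_left _ h4
    have h6 : a + (k + 1) = a + k + 1 := by ring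
    rw [h1, h6]
    calc 2 ^ a * (∑ j ∈ Finset.Ioc a (a + k), N / 2 ^ j + N / 2 ^ (a + k + 1)) +
        2 ^ a * (N / 2 ^ (a + k + 1))
        = 2 ^ a * ∑ j ∈ Finset.Ioc a (a + k), N / 2 ^ j + 2 ^ a * (2 * (N / 2 ^ (a + k + 1))) := by
          ring
      _ ≤ 2 ^ a * ∑ j ∈ Finset.Ioc a (a + k), N / 2 ^ j + 2 ^ a * (N / 2 ^ (a + k)) :=
          Nat.add_le_add_left h5 _
      _ ≤ N := ih

/-- `∑ max 0 (v₂(q - μ) - a) = ∑_{j > a} #{μ | 2 ^ j ∣ q - μ}`, at most `log₂ q` values of `j`. -/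
theorem sum_excess {q N a : ℕ} (hN : N < q) :
    2 ^ a * ∑ μ ∈ Finset.Icc 1 N, (padicValNat 2 (q - μ) - a) ≤
      N + 2 ^ a * Nat.log 2 q := by
  have : Fact (Nat.Prime 2) := ⟨Nat.prime_two⟩
  set L := Nat.log 2 q with hL
  have h1 : ∀ μ ∈ Finset.Icc 1 N, padicValNat 2 (q - μ) - a =
      ∑ j ∈ Finset.Ioc a L, if 2 ^ j ∣ q - μ then 1 else 0 := by
    intro μ hμ
    rw [Finset.mem_Icc] at hμ
    have hpos : q - μ ≠ 0 := by omega
    rw [← Finset.card_filter]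
    have h2 : ((Finset.Ioc a L).filter fun j => 2 ^ j ∣ q - μ) =
        Finset.Ioc a (padicValNat 2 (q - μ)) := by
      ext j
      rw [Finset.mem_filter, Finset.mem_Ioc, Finset.mem_Ioc, padicValNat_dvd_iff_le hpos]
      constructor
      · rintro ⟨⟨h3, -⟩, h5⟩
        exact ⟨h3, h5⟩
      · rintro ⟨h3, h5⟩
        refine ⟨⟨h3, ?_⟩, h5⟩
        have h6 : 2 ^ j ∣ q - μ := (padicValNat_dvd_iff_le hpos).2 h5
        have h7 := Nat.le_of_dvd (by omega) h6
        exact Nat.le_log_of_pow_le (by norm_num) (h7.trans (Nat.sub_le _ _))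
    rw [h2, Nat.card_Ioc]
  rw [Finset.sum_congr rfl h1, Finset.sum_comm]
  have h3 : ∀ j ∈ Finset.Ioc a L, ∑ μ ∈ Finset.Icc 1 N, (if 2 ^ j ∣ q - μ then 1 else 0) ≤
      N / 2 ^ j + 1 := by
    intro j _
    rw [← Finset.card_filter]
    exact card_dvd hN
  have h4 : ∑ j ∈ Finset.Ioc a L, ∑ μ ∈ Finset.Icc 1 N, (if 2 ^ j ∣ q - μ then 1 else 0) ≤
      ∑ j ∈ Finset.Ioc a L, N / 2 ^ j + (L - a) := by
    refine (Finset.sum_le_sum h3).trans ?_
    rw [Finset.sum_add_distrib, Finset.sum_const, Nat.card_Ioc]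
    simp
  rcases le_total L a with hLa | hLa
  · rw [Finset.Ioc_eq_empty_of_le hLa]
    simp
  · obtain ⟨k, hk⟩ := Nat.exists_eq_add_of_le hLa
    have h5 := DRise_geom N a k
    rw [← hk] at h5
    calc 2 ^ a * ∑ j ∈ Finset.Ioc a L, ∑ μ ∈ Finset.Icc 1 N, (if 2 ^ j ∣ q - μ then 1 else 0)
        ≤ 2 ^ a * (∑ j ∈ Finset.Ioc a L, N / 2 ^ j + (L - a)) := Nat.mul_le_mul_left _ h4
      _ = 2 ^ a * ∑ j ∈ Finset.Ioc a L, N / 2 ^ j + 2 ^ a * (L - a) := by ring
      _ ≤ N + 2 ^ a * L := by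
          refine Nat.add_le_add (le_trans (Nat.le_add_right _ _) h5) ?_
          exact Nat.mul_le_mul_left _ (Nat.sub_le _ _)

end MT2
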