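import Pool.Agent.Lib_MP_bfd926_dd.DNum
import Pool.Agent.Lib_MP_bfd926_sq.SQX

/-!
# The entries of the right vectors

`XE_vc`: as in the proof of `XE_norm` (SQX): `XE e w (n - t) n * odd * C(w - 2 n + t, t) =
odd * C(n + t - 1, 2 t) * integer` for both `e`.
`XE_bd`: by `XE_vc`, `v₂(C(n + t - 1, 2 t)) = vc (n - t - 1) (2 t)`, `vc_sum`, `fac_two`, `den_X` and
`num_ge` with `g = v₂`, `x0 = n - t - 1`, `x1 = nt - (t + 1) / 2`, `x2 = nt`, `x3 = n + t - 1`,
`val_ge`. Here `nt = n - 1` (`e = 0`), `nt = n` (`e = 1`).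
-/

namespace MT2

private theorem DX_prod (t : ℕ) (f : ℕ → ℚ) (hf : ∀ m, padicNorm 2 (f m) = 1) :
    padicNorm 2 (∏ m ∈ Finset.range t, f m) = 1 := by
  induction t with
  | zero => simp
  | succ t ih => rw [Finset.prod_range_succ, padicNorm.mul, ih, hf, one_mul]

private theorem DX_P {w n : ℕ} (h : 3 * n ≤ w) (t : ℕ) :
    padicNorm 2 (∏ m ∈ Finset.range t, (2 * (w : ℚ) - 2 * n + 1 + 2 * m)) = 1 := by
  apply DX_prod
  intro m
  have e : (2 * (w : ℚ) - 2 * n + 1 + 2 * m) = ((2 * (w - n) + 1 + 2 * m : ℕ) : ℚ) := by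
    push_cast [Nat.cast_sub (show n ≤ w by omega)]
    ring
  rw [e]
  exact (padicNorm.nat_eq_one_iff _).2 (by omega)

private theorem DX_Q (t : ℕ) :
    padicNorm 2 (∏ m ∈ Finset.range t, (2 * (m : ℚ) + 1)) = 1 := by
  apply DX_prod
  intro m
  have e : (2 * (m : ℚ) + 1) = ((2 * m + 1 : ℕ) : ℚ) := by push_cast; ring
  rw [e]
  exact (padicNorm.nat_eq_one_iff _).2 (by omega)

private theorem DX_core {w n t N h : ℕ} {X : ℚ} (hn : 3 * n ≤ w)
    (hX : X * (∏ m ∈ Finset.range t, (2 * (w : ℚ) - 2 * n + 1 + 2 * m)) *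
        (Nat.choose (w - 2 * n + t) t : ℚ) = (∏ m ∈ Finset.range t, (2 * (m : ℚ) + 1)) * (N : ℚ))
    (hN : 2 ^ h ∣ N) : padicNorm 2 X ≤ (2 : ℚ) ^ ((vc (w - 2 * n) t : ℤ) - h) := by
  have h1 := congrArg (padicNorm 2) hX
  rw [padicNorm.mul, padicNorm.mul, padicNorm.mul, DX_P hn, DX_Q, mul_one, one_mul] at h1
  have hc0 : Nat.choose (w - 2 * n + t) t ≠ 0 := (Nat.choose_pos (by omega)).ne'
  have hc0' : (Nat.choose (w - 2 * n + t) t : ℚ) ≠ 0 := by exact_mod_cast hc0
  have hc : padicNorm 2 (Nat.choose (w - 2 * n + t) t : ℚ) =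
      (2 : ℚ) ^ (-(vc (w - 2 * n) t : ℤ)) := by
    rw [padicNorm.eq_zpow_of_nonzero hc0', padicValRat.of_nat, Nat.cast_ofNat]
    rfl
  rw [hc] at h1
  have hN' : padicNorm 2 (N : ℚ) ≤ (2 : ℚ) ^ (-(h : ℤ)) := by
    have h2 := (padicNorm.dvd_iff_norm_le (p := 2) (n := h) (z := (N : ℤ))).1
      (by exact_mod_cast hN)
    simpa using h2
  rw [zpow_neg] at h1
  have h3 : (0 : ℚ) < 2 ^ (vc (w - 2 * n) t : ℤ) := by positivity
  have h4 : padicNorm 2 X = padicNorm 2 (N : ℚ) * 2 ^ (vc (w - 2 * n) t : ℤ) := by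
    rw [← h1, mul_assoc, inv_mul_cancel₀ h3.ne', mul_one]
  rw [h4, sub_eq_add_neg, zpow_add₀ (by norm_num), mul_comm ((2 : ℚ) ^ (vc (w - 2 * n) t : ℤ))]
  exact mul_le_mul_of_nonneg_right hN' h3.le

theorem XE_vc {e w n t : ℕ} (he : e ≤ 1) (ht : t < n) (h : 3 * n + e ≤ w) :
    padicNorm 2 (XE e w (n - t) n) ≤
      (2 : ℚ) ^ ((vc (w - 2 * n) t : ℤ) - vc (n - t - 1) (2 * t)) := by
  have hn : 3 * n ≤ w := by omega
  have hv : 2 ^ vc (n - t - 1) (2 * t) ∣ Nat.choose (n + t - 1) (2 * t) := by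
    have h1 : n - t - 1 + 2 * t = n + t - 1 := by omega
    unfold vc
    rw [h1]
    exact pow_padicValNat_dvd
  have key : ∃ N : ℕ, XE e w (n - t) n *
      (∏ m ∈ Finset.range t, (2 * (w : ℚ) - 2 * n + 1 + 2 * m)) *
        (Nat.choose (w - 2 * n + t) t : ℚ) =
      (∏ m ∈ Finset.range t, (2 * (m : ℚ) + 1)) * (N : ℚ) ∧
      2 ^ vc (n - t - 1) (2 * t) ∣ N := by
    have hcl := xv_closed hn ht
    rcases Nat.eq_zero_or_pos e with he0 | he0
    · subst he0
      refine ⟨Nat.choose (n + t - 1) (2 * t) * Nat.choose (2 * w - 3 * n + t - 1) t, ?_,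
        hv.mul_right _⟩
      unfold XE
      rw [if_pos rfl, hcl]
      push_cast
      ring
    · have he1 : e = 1 := by omega
      subst he1
      have hq : (3 : ℚ) * n + 1 ≤ w := by exact_mod_cast h
      have hq0 : (0 : ℚ) ≤ n := Nat.cast_nonneg n
      have hM : (2 * (w : ℚ) - 3 * n) ≠ 0 := by
        have : (0 : ℚ) < 2 * (w : ℚ) - 3 * n := by linarith
        exact this.ne'
      have hX : XE 1 w (n - t) n =
          (2 * w - 3 * n + 3 * t) / (2 * w - 3 * n) * xv w n (n - t) := by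
        unfold XE
        rw [if_neg (by norm_num), Nat.cast_sub ht.le]
        congr 2
        ring
      rcases Nat.eq_zero_or_pos t with ht0 | ht0
      · subst ht0
        refine ⟨1, ?_, ?_⟩
        · rw [hX, Nat.cast_zero, mul_zero, add_zero, div_self hM, one_mul, hcl]
          simp
        · rw [mul_zero, vc_zero, pow_zero]
      · obtain ⟨s, rfl⟩ : ∃ s, t = s + 1 := ⟨t - 1, by omega⟩
        refine ⟨Nat.choose (n + (s + 1) - 1) (2 * (s + 1)) *
          (Nat.choose (2 * w - 3 * n + (s + 1) - 1) (s + 1) +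
            3 * Nat.choose (2 * w - 3 * n + (s + 1) - 1) s), ?_, hv.mul_right _⟩
        have h2 := Nat.choose_succ_right_eq (2 * w - 3 * n + (s + 1) - 1) s
        rw [show 2 * w - 3 * n + (s + 1) - 1 - s = 2 * w - 3 * n by omega] at h2
        have h2' : ((Nat.choose (2 * w - 3 * n + (s + 1) - 1) (s + 1) * (s + 1) : ℕ) : ℚ) =
          ((Nat.choose (2 * w - 3 * n + (s + 1) - 1) s * (2 * w - 3 * n) : ℕ) : ℚ) := by rw [h2]
        push_cast [Nat.cast_sub (show 3 * n ≤ 2 * w by omega)] at h2'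
        rw [hX]
        push_cast at hcl ⊢
        generalize xv w n (n - (s + 1)) = X at *
        generalize (Nat.choose (w - 2 * n + (s + 1)) (s + 1) : ℚ) = A at *
        generalize (Nat.choose (2 * w - 3 * n + (s + 1) - 1) (s + 1) : ℚ) = B at *
        generalize (Nat.choose (2 * w - 3 * n + (s + 1) - 1) s : ℚ) = B' at *
        generalize (Nat.choose (n + (s + 1) - 1) (2 * (s + 1)) : ℚ) = D at *
        generalize (∏ m ∈ Finset.range (s + 1), (2 * (w : ℚ) - 2 * n + 1 + 2 * m)) = P at *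
        generalize (∏ m ∈ Finset.range (s + 1), (2 * (m : ℚ) + 1)) = Q at *
        apply mul_left_cancel₀ hM
        have e3 : (2 * (w : ℚ) - 3 * n) * ((2 * w - 3 * n + 3 * (s + 1)) / (2 * w - 3 * n) *
            X * P * A) = (2 * w - 3 * n + 3 * (s + 1)) * (X * P * A) := by
          field_simp
        rw [e3, hcl]
        linear_combination (3 * Q * D) * h2'
  obtain ⟨N, hN1, hN2⟩ := key
  exact DX_core hn hN1 hN2

theorem XE_bd {e q a w n t : ℕ} (he : e ≤ 1) (hw : w + 2 * e = 4 * q + 1) (ha : 2 ^ a ∣ q)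
    (ht : t < n) (h : 3 * n + e ≤ w) :
    padicNorm 2 (XE e w (n - t) n) ≤ (2 : ℚ) ^ (2 * (t : ℤ) - bX e q a n t) := by
  refine (XE_vc he ht h).trans (zpow_le_zpow_right₀ (by norm_num) ?_)
  rcases Nat.eq_zero_or_pos t with ht0 | ht0
  · subst ht0
    unfold bX
    rw [mul_zero, vc_zero, vc_zero]
    simp
  · unfold bX
    rw [if_neg (by omega)]
    have hN : nt e n = n + e - 1 := rfl
    have h1 := den_X he hw ht h
    have h2 := vc_sum (n - t - 1) (2 * t)
    rw [fac_two, show n - t - 1 + 2 * t = n + t - 1 by omega] at h2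
    have h3 := num_ge (q := q) (a := a) (x0 := n - t - 1) (x1 := nt e n - (t + 1) / 2)
      (x2 := nt e n) (x3 := n + t - 1) (padicValNat 2) (by omega) (by omega) (by omega)
      (fun x hx1 hx2 hx3 => by
        apply one_le_padicValNat_of_dvd (by omega)
        exact hx3.two_dvd)
      (fun ν hν1 hν2 => val_ge ha (by omega) (by omega))
    simp only [Nat.even_iff] at h3 ⊢
    generalize Sd q a (nt e n - (t + 1) / 2) (nt e n) = Z at *
    generalize (∑ ν ∈ Finset.Ioc (nt e n - (t + 1) / 2) (nt e n), padicValNat 2 (2 * q - ν)) = Z1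
      at *
    generalize (∑ u ∈ Finset.Ioc (n - t - 1) (n + t - 1), padicValNat 2 u) = Z2 at *
    generalize vc (w - 2 * n) t = v1 at *
    generalize vc (n - t - 1) (2 * t) = v2 at *
    generalize padicValNat 2 t.factorial = v3 at *
    generalize nt e n = M at *
    split_ifs at h3 ⊢ <;> omega

end MT2
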